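import Pool.Agent.Lib.MP_6ff8d9_an.Defs

open Metric Filter Topology

namespace Pool.Agent.Lib.MP_6ff8d9_an

noncomputable section

/-- the open ball of radius `√n` in `ℂⁿ`, in plain coordinates -/
def Dn (n : ℕ) : Set (Fin n → ℂ) := {y | ∑ j, ‖y j‖ ^ 2 < (n : ℝ)}

/-- monomials -/
def mon {n : ℕ} (γ : Fin n → ℕ) (y : Fin n → ℂ) : ℂ := ∏ j, y j ^ γ j

/-- the function with Taylor coefficients `a` -/
def fn {n : ℕ} (a : (Fin n → ℕ) → ℂ) (y : Fin n → ℂ) : ℂ := ∑' γ, a γ * mon γ y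

/-- Taylor coefficient families (in the coordinates `y = √n z`) of the elements of `N(𝔹)` -/
def KB (n : ℕ) : Set ((Fin n → ℕ) → ℂ) :=
  {a | a 0 = 1 ∧ ∀ y ∈ Dn n, Summable (fun γ => a γ * mon γ y) ∧ 0 ≤ (fn a y).re}

/-- extension of a coefficient family by `0` to `ℤⁿ` -/
def ext {n : ℕ} (a : (Fin n → ℕ) → ℂ) (γ : Fin n → ℤ) : ℂ :=
  if ∀ j, 0 ≤ γ j then a (fun j => (γ j).toNat) else 0

/-- value of a trigonometric polynomial at a point of the torus -/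
def evT {n : ℕ} (F : (Fin n → ℤ) →₀ ℂ) (θ : Fin n → ℝ) : ℂ :=
  F.sum fun γ a => a * Complex.exp (Complex.I * ((∑ j, (γ j : ℝ) * θ j : ℝ) : ℂ))

/-- value of a trigonometric polynomial in one variable -/
def evC (P : ℤ →₀ ℂ) (φ : ℝ) : ℂ :=
  P.sum fun k a => a * Complex.exp (Complex.I * (((k : ℝ) * φ : ℝ) : ℂ))

end

end Pool.Agent.Lib.MP_6ff8d9_an
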