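import Pool.Agent.Lib.MP_6ff8d9_an.Base

open Metric Filter Topology

namespace Pool.Agent.Lib.MP_6ff8d9_an

noncomputable section

/-- good polynomials: value 1 at 0, real part bounded below on the ball, and an isolated
monomial -/
def Good (n : ℕ) : Set ((Fin n → ℕ) → ℂ) :=
  {a | ∃ p : (Fin n → ℕ) →₀ ℂ, ⇑p = a ∧ p 0 = 1 ∧
    (∃ δ > 0, ∀ y ∈ Dn n, δ ≤ (p.sum fun γ c => c * mon γ y).re) ∧
    ∃ (i : Fin n) (N : ℕ), 0 < N ∧ p (Pi.single i N) ≠ 0 ∧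
      ∀ l : ℕ, 0 < l → p (Pi.single i N + fun _ => l) = 0}

/-- `D_j g₀ (θ) = ∑ γ_j a_γ e^{iγθ}` -/
def DD {n : ℕ} (p : (Fin n → ℕ) →₀ ℂ) (j : Fin n) (θ : Fin n → ℝ) : ℂ :=
  p.sum fun γ a => (γ j : ℂ) * a * Complex.exp (Complex.I * ((∑ i, (γ i : ℝ) * θ i : ℝ) : ℂ))

/-- the polynomial on the torus -/
def gT {n : ℕ} (p : (Fin n → ℕ) →₀ ℂ) (θ : Fin n → ℝ) : ℂ :=
  p.sum fun γ a => a * Complex.exp (Complex.I * ((∑ i, (γ i : ℝ) * θ i : ℝ) : ℂ))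

/-- component of `D g₀` orthogonal to `(1,…,1)` -/
def DP {n : ℕ} (p : (Fin n → ℕ) →₀ ℂ) (j : Fin n) (θ : Fin n → ℝ) : ℂ :=
  DD p j θ - (∑ i, DD p i θ) / n

/-- the threshold function `k_*(θ,φ)` -/
def kstar {n : ℕ} (p : (Fin n → ℕ) →₀ ℂ) (θ : Fin n → ℝ) (φ : ℝ) : ℝ :=
  ((∑ j, ‖DP p j θ‖ ^ 2) - (Complex.exp (φ * Complex.I) * (starRingEnd ℂ) (∑ j, DP p j θ ^ 2)).re)
    / (4 * (gT p θ).re)

/-- pairing of the boundary values with the weight `R(θ) P(mΣθ_j)` -/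
def BB {n : ℕ} (a : (Fin n → ℕ) → ℂ) (m : ℕ) (R : (Fin n → ℤ) →₀ ℂ) (P : ℤ →₀ ℂ) : ℂ :=
  P.sum fun k pk => R.sum fun γ r => pk * r * ext a (-γ - fun _ => k * (m : ℤ))

/-- the linear functional `E_A` -/
def EE {n : ℕ} (b : (Fin n → ℤ) → ℂ) (R : (Fin n → ℤ) →₀ ℂ) (P : ℤ →₀ ℂ) (A : Fin n → ℝ) : ℝ :=
  (R.sum fun γ r => r * (P 0 * b (-γ) * ((-∑ j, (γ j : ℝ) * A j : ℝ) : ℂ) +
    P.sum fun k pk => if k < 0 then pk * (b (-γ) + (starRingEnd ℂ) (b γ)) *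
      ((-∑ j, (γ j : ℝ) * A j + (k : ℝ) * ∑ j, A j ^ 2 : ℝ) : ℂ) else 0)).re

end

end Pool.Agent.Lib.MP_6ff8d9_an
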