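import Pool.Agent.Lib.MP_6ff8d9_an.HDefs

open Metric Filter Topology MvPolynomial

namespace Pool.Agent.Lib.MP_6ff8d9_an.Hom

noncomputable section

namespace M1

/-- derivative of a polynomial along a complex line -/
lemma line_deriv {n : ℕ} (P : MvPolynomial (Fin n) ℂ) (u v : Fin n → ℂ) (t : ℂ) :
    HasDerivAt (fun t : ℂ => eval (fun i => u i + t * v i) P)
      (∑ k, v k * eval (fun i => u i + t * v i) (pderiv k P)) t := by
  classical
  induction P using MvPolynomial.induction_on with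
  | C a => simp [hasDerivAt_const]
  | add p q hp hq =>
    simp only [map_add, mul_add, Finset.sum_add_distrib]
    exact hp.fun_add hq
  | mul_X p i hp =>
    simp only [map_mul, eval_X, pderiv_mul, map_add, pderiv_X]
    have h1 : HasDerivAt (fun t : ℂ => u i + t * v i) (v i) t := by
      have := ((hasDerivAt_id t).mul_const (v i)).const_add (u i)
      simpa using this
    have h2 := hp.fun_mul h1
    refine h2.congr_deriv ?_
    have h3 : ∀ k, v k * (eval (fun i => u i + t * v i) (pderiv k p) * (u i + t * v i)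
        + eval (fun i => u i + t * v i) p * eval (fun i => u i + t * v i) ((Pi.single k 1 : Fin n → MvPolynomial (Fin n) ℂ) i))
        = (v k * eval (fun i => u i + t * v i) (pderiv k p)) * (u i + t * v i)
          + (if k = i then eval (fun i => u i + t * v i) p * v i else 0) := by
      intro k
      by_cases hk : k = i
      · subst hk
        rw [Pi.single_eq_same, map_one, if_pos rfl]
        ring
      · rw [Pi.single_eq_of_ne (Ne.symm hk), map_zero, if_neg hk]
        ring
    rw [Finset.sum_congr rfl (fun k _ => h3 k), Finset.sum_add_distrib, ← Finset.sum_mul, Finset.sum_ite_eq']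
    simp

/-- two polynomials with proportional gradients are proportional -/
lemma proportional {n : ℕ} (A B : MvPolynomial (Fin n) ℂ) (hB : B ≠ 0)
    (h : ∀ i, B * pderiv i A = A * pderiv i B) : ∃ c : ℂ, A = C c * B := by
  obtain ⟨z₀, hz₀⟩ : ∃ z₀ : Fin n → ℂ, eval z₀ B ≠ 0 := by
    by_contra hcon
    push Not at hcon
    exact hB (MvPolynomial.funext (by intro z; rw [hcon z, map_zero]))
  refine ⟨eval z₀ A / eval z₀ B, ?_⟩
  apply MvPolynomial.funext
  intro z
  set v : Fin n → ℂ := fun i => z i - z₀ i with hv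
  set a : ℂ → ℂ := fun t => eval (fun i => z₀ i + t * v i) A with ha
  set b : ℂ → ℂ := fun t => eval (fun i => z₀ i + t * v i) B with hb
  set c := eval z₀ A / eval z₀ B with hc
  have ha0 : a 0 = eval z₀ A := by simp [ha]
  have hb0 : b 0 = eval z₀ B := by simp [hb]
  have ha1 : a 1 = eval z A := by simp [ha, hv]
  have hb1 : b 1 = eval z B := by simp [hb, hv]
  have hda := fun t => line_deriv A z₀ v t
  have hdb := fun t => line_deriv B z₀ v t
  have hbc : Continuous b := by
    rw [continuous_iff_continuousAt]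
    intro t
    exact (hdb t).continuousAt
  have hne : ∀ᶠ t in 𝓝 (0:ℂ), b t ≠ 0 := hbc.continuousAt.eventually_ne (by rw [hb0]; exact hz₀)
  obtain ⟨r, hr, hball⟩ := Metric.eventually_nhds_iff_ball.1 hne
  have hq : ∀ t ∈ ball (0:ℂ) r, HasDerivWithinAt (fun t => a t / b t) 0 (ball (0:ℂ) r) t := by
    intro t ht
    have h1 := ((hda t).fun_div (hdb t) (hball t ht)).hasDerivWithinAt (s := ball (0:ℂ) r)
    refine h1.congr_deriv ?_
    rw [div_eq_zero_iff]
    left
    rw [Finset.sum_mul, Finset.mul_sum, ← Finset.sum_sub_distrib]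
    apply Finset.sum_eq_zero
    intro k _
    have h2 := congrArg (eval (fun i => z₀ i + t * v i)) (h k)
    simp only [map_mul] at h2
    linear_combination (v k) * h2
  have hconst : ∀ t ∈ ball (0:ℂ) r, a t / b t = c := by
    intro t ht
    have h1 := (convex_ball (0:ℂ) r).norm_image_sub_le_of_norm_hasDerivWithin_le (C := 0) hq
      (fun x _ => by simp) (mem_ball_self hr) ht
    rw [zero_mul] at h1
    have h2 := norm_le_zero_iff.1 h1
    rw [sub_eq_zero] at h2
    rw [h2, ha0, hb0]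
  have hev : a =ᶠ[𝓝 0] fun t => c * b t := by
    filter_upwards [ball_mem_nhds (0:ℂ) hr] with t ht
    have h1 := hconst t ht
    rw [div_eq_iff (hball t ht)] at h1
    exact h1
  have hA : AnalyticOnNhd ℂ a Set.univ := by
    apply DifferentiableOn.analyticOnNhd _ isOpen_univ
    intro t _
    exact (hda t).differentiableAt.differentiableWithinAt
  have hB' : AnalyticOnNhd ℂ (fun t => c * b t) Set.univ := by
    apply DifferentiableOn.analyticOnNhd _ isOpen_univ
    intro t _
    exact ((hdb t).differentiableAt.const_mul c).differentiableWithinAt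
  have hall := hA.eq_of_eventuallyEq hB' hev
  have h1 := congrFun hall 1
  rw [ha1, hb1] at h1
  rw [h1, map_mul, eval_C]

end M1

open M1

/-- M1 -/
theorem power_of_wronskian {n : ℕ} (H f : MvPolynomial (Fin n) ℂ) (d j : ℕ) (hj : 0 < j) (hjd : j < d)
    (hH : H ≠ 0) (hf : f ≠ 0)
    (h : ∀ i, (d : MvPolynomial (Fin n) ℂ) * H * pderiv i f = (j : MvPolynomial (Fin n) ℂ) * f * pderiv i H) :
    ∃ k : ℕ, 2 ≤ k ∧ ∃ P : MvPolynomial (Fin n) ℂ, H = P ^ k := by
  classical
  obtain ⟨c, hc⟩ := proportional (f ^ d) (H ^ j) (pow_ne_zero _ hH) (by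
    intro i
    rw [pderiv_pow, pderiv_pow]
    obtain ⟨d', rfl⟩ : ∃ d', d = d' + 1 := ⟨d - 1, by omega⟩
    obtain ⟨j', rfl⟩ : ∃ j', j = j' + 1 := ⟨j - 1, by omega⟩
    have := h i
    simp only [Nat.add_sub_cancel]
    linear_combination (f ^ d' * H ^ j') * this)
  have hc0 : c ≠ 0 := by
    rintro rfl
    rw [C_0, zero_mul] at hc
    exact hf (pow_eq_zero_iff (by omega) |>.1 hc)
  set g := Nat.gcd j d with hg
  have hgpos : 0 < g := Nat.gcd_pos_of_pos_left _ hj
  have hgd : g < d := lt_of_le_of_lt (Nat.gcd_le_left d hj) hjd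
  obtain ⟨a, _, ha⟩ := Nat.exists_mul_mod_eq_gcd (k := d) (n := j) hgd
  set b := j * a / d with hb
  have hab : j * a = d * b + g := by
    have := Nat.div_add_mod (j * a) d
    rw [← hb, ha, ← hg] at this
    omega
  -- first extraction
  have h1 : (f ^ a) ^ d = (H ^ b) ^ d * (C (c ^ a) * H ^ g) := by
    calc (f ^ a) ^ d = (f ^ d) ^ a := by ring
      _ = C (c ^ a) * H ^ (j * a) := by rw [hc, mul_pow, ← pow_mul, C_pow]
      _ = _ := by rw [hab, pow_add, mul_comm d b, pow_mul]; ring
  have h2 : H ^ b ∣ f ^ a := (IsIntegrallyClosed.pow_dvd_pow_iff (by omega : d ≠ 0)).1 ⟨_, h1⟩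
  obtain ⟨P, hP⟩ := h2
  have h3 : P ^ d = C (c ^ a) * H ^ g := by
    rw [hP, mul_pow] at h1
    exact mul_left_cancel₀ (pow_ne_zero _ (pow_ne_zero _ hH)) h1
  obtain ⟨d', hd'⟩ := Nat.gcd_dvd_right j d
  rw [← hg] at hd'
  have hd'2 : 2 ≤ d' := by
    by_contra hlt
    have : d' = 0 ∨ d' = 1 := by omega
    rcases this with h0 | h0
    · rw [h0] at hd'; omega
    · rw [h0] at hd'; omega
  have h4 : (P ^ d') ^ g = H ^ g * C (c ^ a) := by
    rw [← pow_mul, mul_comm d' g, ← hd', h3, mul_comm]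
  have h5 : H ∣ P ^ d' := (IsIntegrallyClosed.pow_dvd_pow_iff hgpos.ne').1 ⟨_, h4⟩
  obtain ⟨t, ht⟩ := h5
  have h6 : t ^ g = C (c ^ a) := by
    rw [ht, mul_pow] at h4
    exact mul_left_cancel₀ (pow_ne_zero _ hH) h4
  have h7 : IsUnit t := by
    have : IsUnit (t ^ g) := by
      rw [h6]
      exact (isUnit_iff_ne_zero.2 (pow_ne_zero a hc0)).map C
    exact (isUnit_pow_iff hgpos.ne').1 this
  obtain ⟨τ, hτ, rfl⟩ := isUnit_iff_eq_C_of_isReduced.1 h7
  have hτ0 : τ ≠ 0 := hτ.ne_zero
  obtain ⟨ρ, hρ⟩ := IsAlgClosed.exists_pow_nat_eq (τ⁻¹) (by omega : 0 < d')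
  refine ⟨d', hd'2, C ρ * P, ?_⟩
  rw [mul_pow, ← C_pow, hρ, ht]
  have : C τ⁻¹ * (H * C τ) = H * (C τ⁻¹ * C τ) := by ring
  rw [this, ← C_mul, inv_mul_cancel₀ hτ0, C_1, mul_one]

end

end Pool.Agent.Lib.MP_6ff8d9_an.Hom
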