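import Pool.Agent.Lib.MP_6ff8d9_an.Lower
import Pool.Agent.Lib.MP_6ff8d9_an.M1
import Pool.Agent.Lib.MP_6ff8d9_an_h42.M2

open Metric Filter Topology MvPolynomial

namespace Pool.Agent.Lib.MP_6ff8d9_an.Hom

noncomputable section

/-! ### one-variable pairing -/

/-- extension of a sequence by zero to `ℤ` -/
def xz (x : ℕ → ℂ) (k : ℤ) : ℂ := if 0 ≤ k then x k.toNat else 0

/-- `(fun γ : Fin 1 → ℕ => x (γ 0)) ∈ KB 1` -/
def K1 (x : ℕ → ℂ) : Prop := (fun γ : Fin 1 → ℕ => x (γ 0)) ∈ KB 1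

/-- pairing -/
def Lx (x : ℤ → ℂ) (P : ℤ →₀ ℂ) : ℂ := P.sum fun k c => c * x (-k)

lemma Lx_eq (x : ℤ → ℂ) (P : ℤ →₀ ℂ) : Lx x P = Finsupp.linearCombination ℂ (fun k => x (-k)) P := by
  simp only [Lx, Finsupp.linearCombination_apply, smul_eq_mul]

lemma evC_lc (P : ℤ →₀ ℂ) (φ : ℝ) :
    evC P φ = Finsupp.linearCombination ℂ (fun k : ℤ => Complex.exp (Complex.I * (((k : ℝ) * φ : ℝ) : ℂ))) P := by
  simp only [evC, Finsupp.linearCombination_apply, smul_eq_mul]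

lemma pair1 {x : ℕ → ℂ} (hx : K1 x) (P : ℤ →₀ ℂ) (hP : ∀ φ : ℝ, 0 ≤ (evC P φ).re ∧ (evC P φ).im = 0) :
    0 ≤ (Lx (xz x) P).re := by
  set W : (Fin 1 → ℤ) →₀ ℂ := P.mapDomain (fun k => (fun _ : Fin 1 => k)) with hW
  have h1 : ∀ θ : Fin 1 → ℝ, evT W θ = evC P (θ 0) := by
    intro θ
    rw [evT_eq, evC_lc, hW, Finsupp.linearCombination_mapDomain]
    congr 1
    ext k
    simp [ch]
  have h2 := pairing_one le_rfl hx W (by intro θ; rw [h1]; exact hP (θ 0))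
  have h3 : LL (fun γ : Fin 1 → ℕ => x (γ 0)) (fun _ => 1) W = Lx (xz x) P := by
    rw [LL, Lx_eq, hW, Finsupp.linearCombination_mapDomain]
    congr 1
    ext k
    simp only [mul_one]
    unfold ext xz
    simp
  rw [h3] at h2
  exact h2

/-- conjugate reversed -/
def st (P : ℤ →₀ ℂ) : ℤ →₀ ℂ := (P.mapDomain (fun k => -k)).mapRange (starRingEnd ℂ) (map_zero _)

lemma lc_st (v : ℤ → ℂ) (P : ℤ →₀ ℂ) :
    Finsupp.linearCombination ℂ v (st P)
      = (starRingEnd ℂ) (Finsupp.linearCombination ℂ (fun k => (starRingEnd ℂ) (v (-k))) P) := by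
  unfold st
  rw [Finsupp.linearCombination_apply, Finsupp.sum_mapRange_index (by intro a; simp)]
  rw [Finsupp.linearCombination_apply, Finsupp.sum_mapDomain_index (by intro a; simp) (by intro a b c; simp [add_mul])]
  rw [Finsupp.sum, Finsupp.sum, map_sum]
  apply Finset.sum_congr rfl
  intro k _
  simp

lemma evC_st (P : ℤ →₀ ℂ) (φ : ℝ) : evC (st P) φ = (starRingEnd ℂ) (evC P φ) := by
  have h : (fun k : ℤ => (starRingEnd ℂ) (Complex.exp (Complex.I * ((((-k : ℤ) : ℝ) * φ : ℝ) : ℂ))))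
      = fun k : ℤ => Complex.exp (Complex.I * (((k : ℝ) * φ : ℝ) : ℂ)) := by
    funext k
    rw [← Complex.exp_conj]
    congr 1
    rw [map_mul, Complex.conj_I, Complex.conj_ofReal]
    push_cast
    ring
  rw [evC_lc, lc_st, evC_lc, h]

/-- the Fourier coefficients of the real part -/
def kap (y : ℤ → ℂ) (k : ℤ) : ℂ := (y k + (starRingEnd ℂ) (y (-k))) / 2

lemma evC_add (P Q : ℤ →₀ ℂ) (φ : ℝ) : evC (P + Q) φ = evC P φ + evC Q φ := by
  rw [evC_lc, evC_lc, evC_lc, map_add]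

lemma evC_smul (a : ℂ) (P : ℤ →₀ ℂ) (φ : ℝ) : evC (a • P) φ = a * evC P φ := by
  rw [evC_lc, evC_lc, map_smul, smul_eq_mul]

lemma Lx_add (x : ℤ → ℂ) (P Q : ℤ →₀ ℂ) : Lx x (P + Q) = Lx x P + Lx x Q := by
  rw [Lx_eq, Lx_eq, Lx_eq, map_add]

lemma Lx_smul (x : ℤ → ℂ) (a : ℂ) (P : ℤ →₀ ℂ) : Lx x (a • P) = a * Lx x P := by
  rw [Lx_eq, Lx_eq, map_smul, smul_eq_mul]

lemma Lx_st (x : ℤ → ℂ) (P : ℤ →₀ ℂ) :
    Lx x (st P) = (starRingEnd ℂ) (Lx (fun k => (starRingEnd ℂ) (x (-k))) P) := by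
  rw [Lx_eq, lc_st, Lx_eq]

lemma Lx_addx (x y : ℤ → ℂ) (P : ℤ →₀ ℂ) : Lx (fun k => x k + y k) P = Lx x P + Lx y P := by
  simp only [Lx, Finsupp.sum, ← Finset.sum_add_distrib, mul_add]

lemma Lx_smulx (a : ℂ) (x : ℤ → ℂ) (P : ℤ →₀ ℂ) : Lx (fun k => a * x k) P = a * Lx x P := by
  simp only [Lx, Finsupp.sum, Finset.mul_sum]
  apply Finset.sum_congr rfl
  intro k _
  ring

/-- the basic inequality: `|∫ Re k T| ≤ ∫ Re g T₀` when `|T| ≤ T₀` -/
lemma pair_bound {x y : ℕ → ℂ} (hx : K1 (fun j => x j + y j)) (hy : K1 (fun j => x j - y j))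
    (T0 T : ℤ →₀ ℂ) (h0 : ∀ φ : ℝ, (evC T0 φ).im = 0) (hT : ∀ φ : ℝ, ‖evC T φ‖ ≤ (evC T0 φ).re) :
    ‖Lx (kap (xz y)) T‖ ≤ (Lx (xz x) T0).re := by
  have hreal : ∀ ω : ℂ, ‖ω‖ = 1 → 0 ≤ (Lx (xz x) T0).re + (ω * Lx (kap (xz y)) T).re := by
    intro ω hω
    have hpos : ∀ σ : ℝ, |σ| = 1 → ∀ φ : ℝ,
        0 ≤ (evC (T0 + ((σ / 2 : ℝ) : ℂ) • (ω • T + st (ω • T))) φ).re ∧
          (evC (T0 + ((σ / 2 : ℝ) : ℂ) • (ω • T + st (ω • T))) φ).im = 0 := by
      intro σ hσ φ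
      rw [evC_add, evC_smul, evC_add, evC_st, evC_smul, Complex.add_conj]
      rw [← Complex.ofReal_mul, Complex.add_re, Complex.add_im, Complex.ofReal_re, Complex.ofReal_im, h0 φ]
      refine ⟨?_, by ring⟩
      have h1 : |(ω * evC T φ).re| ≤ (evC T0 φ).re := by
        refine (Complex.abs_re_le_norm _).trans ?_
        rw [norm_mul, hω, one_mul]
        exact hT φ
      have h2 : |σ / 2 * (2 * (ω * evC T φ).re)| ≤ (evC T0 φ).re := by
        rw [show σ / 2 * (2 * (ω * evC T φ).re) = σ * (ω * evC T φ).re by ring, abs_mul, hσ, one_mul]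
        exact h1
      have := (abs_le.1 h2).1
      linarith
    have hp := pair1 hx _ (hpos 1 (by simp))
    have hm := pair1 hy _ (hpos (-1) (by simp))
    rw [Lx_add, Lx_smul, Lx_add, Lx_st, Lx_smul, Lx_smul] at hp hm
    have e1 : xz (fun j => x j + y j) = fun k => xz x k + xz y k := by
      ext k; unfold xz; split_ifs <;> simp
    have e2 : xz (fun j => x j - y j) = fun k => xz x k + (-1) * xz y k := by
      ext k; unfold xz; split_ifs <;> simp [sub_eq_add_neg]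
    have e3 : (fun k => (starRingEnd ℂ) (xz x (-k) + xz y (-k))) = fun k => (starRingEnd ℂ) (xz x (-k)) + (starRingEnd ℂ) (xz y (-k)) := by
      ext k; rw [map_add]
    have e4 : (fun k => (starRingEnd ℂ) (xz x (-k) + (-1) * xz y (-k))) = fun k => (starRingEnd ℂ) (xz x (-k)) + (-1) * (starRingEnd ℂ) (xz y (-k)) := by
      ext k; simp
    rw [e1] at hp
    rw [e2] at hm
    dsimp only at hp hm
    rw [e3] at hp
    rw [e4] at hm
    rw [Lx_addx, Lx_addx, Lx_addx] at hp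
    rw [Lx_addx, Lx_addx, Lx_addx, Lx_smulx, Lx_smulx, Lx_smulx] at hm
    have e5 : Lx (kap (xz y)) T = (1/2) * (Lx (xz y) T + Lx (fun k => (starRingEnd ℂ) (xz y (-k))) T) := by
      have : kap (xz y) = fun k => (1/2) * (xz y k + (starRingEnd ℂ) (xz y (-k))) := by
        ext k; unfold kap; ring
      rw [this, Lx_smulx, Lx_addx]
    rw [e5]
    generalize Lx (xz x) T0 = a at *
    generalize Lx (xz y) T0 = b at *
    generalize Lx (xz x) T = c at *
    generalize Lx (xz y) T = e at *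
    generalize Lx (fun k => (starRingEnd ℂ) (xz x (-k))) T = f at *
    generalize Lx (fun k => (starRingEnd ℂ) (xz y (-k))) T = g at *
    simp only [Complex.add_re, Complex.mul_re, Complex.conj_re, Complex.conj_im, Complex.ofReal_re, Complex.ofReal_im,
      Complex.add_im, Complex.mul_im, Complex.neg_re, Complex.neg_im, Complex.one_re, Complex.one_im,
      Complex.div_ofNat_re, Complex.div_ofNat_im] at hp hm ⊢
    nlinarith
  -- choose the phase
  by_cases hz : Lx (kap (xz y)) T = 0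
  · rw [hz, norm_zero]
    have := hreal 1 (by simp)
    rw [hz] at this
    simpa using this
  · set z := Lx (kap (xz y)) T with hzdef
    have hn : (‖z‖ : ℂ) ≠ 0 := by
      rw [Ne, Complex.ofReal_eq_zero, norm_eq_zero]
      exact hz
    have h1 := hreal (-((starRingEnd ℂ) z / ‖z‖)) (by
      rw [norm_neg, norm_div, RCLike.norm_conj, Complex.norm_real, norm_norm]
      exact div_self (norm_ne_zero_iff.2 hz))
    have h2 : -((starRingEnd ℂ) z / ‖z‖) * z = ((-‖z‖ : ℝ) : ℂ) := by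
      have h3 : (starRingEnd ℂ) z * z = (‖z‖ : ℂ) ^ 2 := by
        rw [mul_comm, Complex.mul_conj, Complex.normSq_eq_norm_sq]
        push_cast; rfl
      rw [neg_mul, div_mul_eq_mul_div, h3]
      push_cast
      field_simp
    rw [h2, Complex.ofReal_re] at h1
    linarith

/-! ### the two test polynomials -/

lemma evC_single (k : ℤ) (c : ℂ) (φ : ℝ) :
    evC (Finsupp.single k c) φ = c * Complex.exp (Complex.I * (((k : ℝ) * φ : ℝ) : ℂ)) := by
  rw [evC_lc, Finsupp.linearCombination_single, smul_eq_mul]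

lemma Lx_single (x : ℤ → ℂ) (k : ℤ) (c : ℂ) : Lx x (Finsupp.single k c) = c * x (-k) := by
  rw [Lx_eq, Finsupp.linearCombination_single, smul_eq_mul]

def W0 (d : ℕ) (h : ℂ) : ℤ →₀ ℂ :=
  Finsupp.single 0 (1 + (‖h‖ : ℂ) ^ 2) + (Finsupp.single (d : ℤ) (-h) + Finsupp.single (-(d : ℤ)) (-(starRingEnd ℂ) h))

def W1 (d : ℕ) (h : ℂ) (j : ℤ) : ℤ →₀ ℂ :=
  Finsupp.single (-j) 1 + (Finsupp.single ((d : ℤ) - j) (-2 * h) + Finsupp.single (2 * (d : ℤ) - j) (h ^ 2))

def W2 (d : ℕ) (h : ℂ) (j : ℤ) : ℤ →₀ ℂ :=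
  Finsupp.single (-j) (1 + (‖h‖ : ℂ) ^ 2) + (Finsupp.single ((d : ℤ) - j) (-h) + Finsupp.single (-(d : ℤ) - j) (-(starRingEnd ℂ) h))

lemma conj_mul_self' (h : ℂ) : (starRingEnd ℂ) h * h = (‖h‖ : ℂ) ^ 2 := by
  rw [mul_comm, Complex.mul_conj, Complex.normSq_eq_norm_sq]
  push_cast; rfl

lemma ex_add (a b : ℝ) : Complex.exp (Complex.I * ((a + b : ℝ) : ℂ)) = Complex.exp (Complex.I * (a : ℂ)) * Complex.exp (Complex.I * (b : ℂ)) := by
  rw [← Complex.exp_add]; congr 1; push_cast; ring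

lemma ex_neg (a : ℝ) : Complex.exp (Complex.I * ((-a : ℝ) : ℂ)) = (starRingEnd ℂ) (Complex.exp (Complex.I * (a : ℂ))) := by
  rw [← Complex.exp_conj, map_mul, Complex.conj_I, Complex.conj_ofReal]
  congr 1
  push_cast; ring

lemma norm_ex (a : ℝ) : ‖Complex.exp (Complex.I * (a : ℂ))‖ = 1 := by
  rw [mul_comm, Complex.norm_exp_ofReal_mul_I]

lemma evC_W0 (d : ℕ) (h : ℂ) (φ : ℝ) :
    evC (W0 d h) φ = ((‖1 - h * Complex.exp (Complex.I * (((d : ℝ) * φ : ℝ) : ℂ))‖ ^ 2 : ℝ) : ℂ) := by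
  unfold W0
  rw [evC_add, evC_add, evC_single, evC_single, evC_single]
  have e1 : ((((-(d:ℤ) : ℤ) : ℝ) * φ : ℝ)) = -((d:ℝ) * φ) := by push_cast; ring
  have e2 : (((((d:ℤ) : ℤ) : ℝ) * φ : ℝ)) = (d:ℝ) * φ := by push_cast; ring
  have e3 : ((((0:ℤ) : ℝ) * φ : ℝ)) = 0 := by push_cast; ring
  rw [e1, e2, e3, ex_neg]
  set u := Complex.exp (Complex.I * (((d : ℝ) * φ : ℝ) : ℂ)) with hu
  have hu1 : (starRingEnd ℂ) u * u = 1 := by
    rw [conj_mul_self', hu, norm_ex]; simp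
  have h2 : ((‖1 - h * u‖ ^ 2 : ℝ) : ℂ) = (starRingEnd ℂ) (1 - h * u) * (1 - h * u) := by
    rw [conj_mul_self']; push_cast; rfl
  rw [h2, map_sub, map_mul, map_one]
  have h3 := conj_mul_self' h
  simp only [Complex.ofReal_zero, mul_zero, Complex.exp_zero]
  linear_combination (-(starRingEnd ℂ) h * h) * hu1 - h3

lemma evC_W1 (d : ℕ) (h : ℂ) (j : ℤ) (φ : ℝ) :
    ‖evC (W1 d h j) φ‖ = ‖1 - h * Complex.exp (Complex.I * (((d : ℝ) * φ : ℝ) : ℂ))‖ ^ 2 := by
  unfold W1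
  rw [evC_add, evC_add, evC_single, evC_single, evC_single]
  have e1 : ((((-j : ℤ) : ℝ) * φ : ℝ)) = -((j:ℝ) * φ) := by push_cast; ring
  have e2 : (((((d:ℤ) - j : ℤ) : ℝ) * φ : ℝ)) = (d:ℝ) * φ + -((j:ℝ) * φ) := by push_cast; ring
  have e3 : ((((2 * (d:ℤ) - j : ℤ) : ℝ) * φ : ℝ)) = (d:ℝ) * φ + ((d:ℝ) * φ + -((j:ℝ) * φ)) := by push_cast; ring
  rw [e1, e2, e3, ex_add, ex_add, ex_add]
  set u := Complex.exp (Complex.I * (((d : ℝ) * φ : ℝ) : ℂ)) with hu
  set v := Complex.exp (Complex.I * ((-((j : ℝ) * φ) : ℝ) : ℂ)) with hv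
  have h1 : 1 * v + (-2 * h * (u * v) + h ^ 2 * (u * (u * v))) = v * (1 - h * u) ^ 2 := by ring
  rw [h1, norm_mul, hv, norm_ex, one_mul, norm_pow]

lemma evC_W2 (d : ℕ) (h : ℂ) (j : ℤ) (φ : ℝ) :
    ‖evC (W2 d h j) φ‖ = ‖1 - h * Complex.exp (Complex.I * (((d : ℝ) * φ : ℝ) : ℂ))‖ ^ 2 := by
  have h0 : evC (W2 d h j) φ = Complex.exp (Complex.I * ((-((j : ℝ) * φ) : ℝ) : ℂ)) * evC (W0 d h) φ := by
    unfold W2 W0
    rw [evC_add, evC_add, evC_single, evC_single, evC_single, evC_add, evC_add, evC_single, evC_single, evC_single]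
    have e1 : ((((-j : ℤ) : ℝ) * φ : ℝ)) = -((j:ℝ) * φ) := by push_cast; ring
    have e2 : (((((d:ℤ) - j : ℤ) : ℝ) * φ : ℝ)) = (((d:ℤ):ℝ)) * φ + -((j:ℝ) * φ) := by push_cast; ring
    have e3 : ((((-(d:ℤ) - j : ℤ) : ℝ) * φ : ℝ)) = (((-(d:ℤ) : ℤ):ℝ)) * φ + -((j:ℝ) * φ) := by push_cast; ring
    have e4 : ((((0:ℤ) : ℝ) * φ : ℝ)) = 0 := by push_cast; ring
    rw [e1, e2, e3, e4, ex_add, ex_add]
    simp only [Complex.ofReal_zero, mul_zero, Complex.exp_zero]
    ring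
  rw [h0, norm_mul, norm_ex, one_mul, evC_W0, Complex.norm_real, Real.norm_eq_abs, abs_of_nonneg (by positivity)]

lemma Lx_W0 (d : ℕ) (hd : 1 ≤ d) (h : ℂ) : (Lx (xz (gc d h)) (W0 d h)).re = 1 - ‖h‖ ^ 2 := by
  unfold W0
  rw [Lx_add, Lx_add, Lx_single, Lx_single, Lx_single]
  have e1 : xz (gc d h) (-0) = 1 := by simp [xz, gc]
  have e2 : xz (gc d h) (-(d:ℤ)) = 0 := by
    unfold xz
    rw [if_neg (by omega)]
  have e3 : xz (gc d h) (-(-(d:ℤ))) = 2 * h := by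
    rw [neg_neg]
    unfold xz gc
    rw [if_pos (by omega), Int.toNat_natCast, if_neg (by omega), if_pos (dvd_refl d), Nat.div_self (by omega), pow_one]
  rw [e1, e2, e3]
  have h3 := conj_mul_self' h
  have h4 : (1 + (‖h‖ : ℂ) ^ 2) * 1 + (-h * 0 + -(starRingEnd ℂ) h * (2 * h)) = ((1 - ‖h‖ ^ 2 : ℝ) : ℂ) := by
    push_cast
    linear_combination (-2) * h3
  rw [h4, Complex.ofReal_re]

lemma ineq1 {d : ℕ} (hd : 1 ≤ d) (h : ℂ) {y : ℕ → ℂ} (hx : K1 (fun j => gc d h j + y j)) (hy : K1 (fun j => gc d h j - y j))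
    (j : ℤ) : ‖kap (xz y) j - 2 * h * kap (xz y) (j - d) + h ^ 2 * kap (xz y) (j - 2 * d)‖ ≤ 1 - ‖h‖ ^ 2 := by
  have := pair_bound hx hy (W0 d h) (W1 d h j) (by intro φ; rw [evC_W0, Complex.ofReal_im])
    (by intro φ; rw [evC_W0, evC_W1, Complex.ofReal_re])
  rw [Lx_W0 d hd h] at this
  unfold W1 at this
  rw [Lx_add, Lx_add, Lx_single, Lx_single, Lx_single] at this
  have e1 : (-((d:ℤ) - j)) = j - d := by ring
  have e2 : (-(2 * (d:ℤ) - j)) = j - 2 * d := by ring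
  rw [neg_neg, e1, e2] at this
  convert this using 2
  ring

lemma ineq2 {d : ℕ} (hd : 1 ≤ d) (h : ℂ) {y : ℕ → ℂ} (hx : K1 (fun j => gc d h j + y j)) (hy : K1 (fun j => gc d h j - y j))
    (j : ℤ) : ‖(1 + (‖h‖ : ℂ) ^ 2) * kap (xz y) j - h * kap (xz y) (j - d) - (starRingEnd ℂ) h * kap (xz y) (j + d)‖ ≤ 1 - ‖h‖ ^ 2 := by
  have := pair_bound hx hy (W0 d h) (W2 d h j) (by intro φ; rw [evC_W0, Complex.ofReal_im])
    (by intro φ; rw [evC_W0, evC_W2, Complex.ofReal_re])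
  rw [Lx_W0 d hd h] at this
  unfold W2 at this
  rw [Lx_add, Lx_add, Lx_single, Lx_single, Lx_single] at this
  have e1 : (-((d:ℤ) - j)) = j - d := by ring
  have e2 : (-(-(d:ℤ) - j)) = j + d := by ring
  rw [neg_neg, e1, e2] at this
  convert this using 2
  ring

lemma kap_pos (y : ℕ → ℂ) (j : ℕ) (hj : 1 ≤ j) : kap (xz y) (j:ℤ) = y j / 2 := by
  unfold kap xz
  rw [if_pos (by omega), if_neg (by omega), map_zero, add_zero, Int.toNat_natCast]

lemma kap_neg (y : ℕ → ℂ) (j : ℕ) (hj : 1 ≤ j) : kap (xz y) (-(j:ℤ)) = (starRingEnd ℂ) (y j) / 2 := by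
  unfold kap xz
  rw [if_neg (by omega), neg_neg, if_pos (by omega), zero_add, Int.toNat_natCast]

lemma kap_zero (y : ℕ → ℂ) (h0 : y 0 = 0) : kap (xz y) 0 = 0 := by
  unfold kap xz
  simp [h0]

lemma K1_bound {h : ℂ} {d : ℕ} {y : ℕ → ℂ} (hx : K1 (fun j => gc d h j + y j)) (hy : K1 (fun j => gc d h j - y j)) (j : ℕ) :
    ‖y j‖ ≤ 2 := by
  have h1 := KB_coef_le le_rfl hx (fun _ => j)
  have h2 := KB_coef_le le_rfl hy (fun _ => j)
  dsimp only at h1 h2
  have h3 : 2 * y j = (gc d h j + y j) - (gc d h j - y j) := by ring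
  have h4 : ‖2 * y j‖ ≤ 4 := by
    rw [h3]
    refine (norm_sub_le _ _).trans ?_
    linarith
  rw [norm_mul] at h4
  have h5 : ‖(2:ℂ)‖ = 2 := by norm_num
  rw [h5] at h4
  linarith

/-- growth lemma -/
lemma growth {a D : ℝ} (ha0 : 0 ≤ a) (ha1 : a ≤ 1) (hD : 0 ≤ D) (h : ∀ l : ℕ, ((l:ℝ) + 1) * a ^ l * D ≤ 4) :
    D ≤ 16 * (1 - a ^ 2) := by
  rcases eq_or_lt_of_le ha1 with h1 | h1
  · subst h1
    have h2 : D ≤ 0 := by
      by_contra hc
      push Not at hc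
      obtain ⟨l, hl⟩ := exists_nat_gt (4 / D)
      have := h l
      rw [one_pow, mul_one] at this
      rw [div_lt_iff₀ hc] at hl
      nlinarith
    norm_num
    exact h2
  · have hpos : 0 < 1 - a := by linarith
    set l := ⌊1 / (2 * (1 - a))⌋₊ with hl
    have h2 : (l:ℝ) ≤ 1 / (2 * (1 - a)) := Nat.floor_le (by positivity)
    have h3 : 1 / (2 * (1 - a)) < (l:ℝ) + 1 := Nat.lt_floor_add_one _
    have h4 : (1:ℝ) + (l:ℝ) * (a - 1) ≤ a ^ l := by
      have := one_add_mul_le_pow (a := a - 1) (by linarith) l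
      rw [show 1 + (a - 1) = a by ring] at this
      linarith
    have h5 : (l:ℝ) * (1 - a) ≤ 1 / 2 := by
      rw [le_div_iff₀ (by positivity)] at h2
      nlinarith
    have h6 : 1 / 2 ≤ a ^ l := by nlinarith
    have h7 := h l
    have h8 : 1 / (2 * (1 - a)) * (1 / 2) * D ≤ 4 := by
      refine le_trans ?_ h7
      apply mul_le_mul_of_nonneg_right _ hD
      exact mul_le_mul h3.le h6 (by norm_num) (by positivity)
    have h9 : D ≤ 16 * (1 - a) := by
      have h10 : 1 / (2 * (1 - a)) * (1 / 2) * D = D / (4 * (1 - a)) := by field_simp; ring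
      rw [h10, div_le_iff₀ (by positivity)] at h8
      linarith
    nlinarith

/-- M4 -/
theorem core {n : ℕ} (m : Fin n → ℕ) (hm : ∀ i, 0 < m i) {d : ℕ} (hd : 1 ≤ d)
    (H : MvPolynomial (Fin n) ℂ) (hH : IsWeightedHomogeneous m H d)
    (hH1 : ∀ z ∈ Sph n, ‖eval z H‖ ≤ 1) (hi : NotPower H) (hii : NoDom H)
    (k : ℕ → MvPolynomial (Fin n) ℂ) (hk : ∀ j, IsWeightedHomogeneous m (k j) j) (hk0 : k 0 = 0)
    (hpos : ∀ ζ ∈ Sph n, (fun γ : Fin 1 → ℕ => gc d (eval ζ H) (γ 0) + eval ζ (k (γ 0))) ∈ KB 1)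
    (hneg : ∀ ζ ∈ Sph n, (fun γ : Fin 1 → ℕ => gc d (eval ζ H) (γ 0) - eval ζ (k (γ 0))) ∈ KB 1) :
    ∀ j, k j = 0 := by
  have hx : ∀ ζ ∈ Sph n, K1 (fun j => gc d (eval ζ H) j + eval ζ (k j)) := fun ζ hζ => hpos ζ hζ
  have hy : ∀ ζ ∈ Sph n, K1 (fun j => gc d (eval ζ H) j - eval ζ (k j)) := fun ζ hζ => hneg ζ hζ
  have hz0 : ∀ ζ : Fin n → ℂ, eval ζ (k 0) = 0 := by intro ζ; rw [hk0, map_zero]
  -- a dominated polynomial up to a constant vanishes
  have hdom : ∀ (p : MvPolynomial (Fin n) ℂ) (C : ℝ), 0 < C → (∀ z ∈ Sph n, ‖eval z p‖ ≤ C * (1 - ‖eval z H‖ ^ 2)) → p = 0 := by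
    intro p C hC hp
    have h1 := hii (MvPolynomial.C ((C⁻¹ : ℝ) : ℂ) * p) (by
      intro z hz
      rw [map_mul, eval_C, norm_mul, Complex.norm_real, Real.norm_eq_abs, abs_of_pos (inv_pos.2 hC)]
      rw [inv_mul_le_iff₀ hC]
      exact hp z hz)
    rcases mul_eq_zero.1 h1 with h2 | h2
    · exfalso
      rw [C_eq_zero] at h2
      have : (C⁻¹ : ℝ) ≠ 0 := (inv_pos.2 hC).ne'
      exact this (by exact_mod_cast h2)
    · exact h2
  -- (1)
  have s1 : ∀ j : ℕ, 2 * d ≤ j → k j = 2 * H * k (j - d) - H ^ 2 * k (j - 2 * d) := by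
    intro j hj
    rw [← sub_eq_zero]
    apply hdom _ 2 (by norm_num)
    intro z hz
    have h1 := ineq1 hd (eval z H) (hx z hz) (hy z hz) (j:ℤ)
    have e1 : ((j:ℤ) - d) = ((j - d : ℕ) : ℤ) := by omega
    have e2 : ((j:ℤ) - 2 * d) = ((j - 2 * d : ℕ) : ℤ) := by omega
    rw [e1, e2, kap_pos _ _ (by omega), kap_pos _ _ (by omega)] at h1
    have e3 : kap (xz fun j => eval z (k j)) ((j - 2 * d : ℕ) : ℤ) = eval z (k (j - 2 * d)) / 2 := by
      by_cases h0 : j - 2 * d = 0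
      · rw [h0, Nat.cast_zero, kap_zero _ (hz0 z), hz0 z, zero_div]
      · exact kap_pos _ _ (by omega)
    rw [e3] at h1
    have e4 : eval z (k j - (2 * H * k (j - d) - H ^ 2 * k (j - 2 * d)))
        = 2 * (eval z (k j) / 2 - 2 * eval z H * (eval z (k (j - d)) / 2) + eval z H ^ 2 * (eval z (k (j - 2 * d)) / 2)) := by
      simp only [map_sub, map_mul, map_pow, map_ofNat]
      ring
    rw [e4, norm_mul]
    have h5 : ‖(2:ℂ)‖ = 2 := by norm_num
    rw [h5]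
    linarith
  -- (2)
  have s2 : ∀ j₀ : ℕ, 1 ≤ j₀ → j₀ ≤ d → k (j₀ + d) = H * k j₀ := by
    intro j₀ hj1 hj2
    have hrec : ∀ l : ℕ, k (j₀ + (l + 1) * d) - H * k (j₀ + l * d) = H ^ l * (k (j₀ + d) - H * k j₀) := by
      intro l
      induction l with
      | zero => simp
      | succ l ih =>
        have h1 := s1 (j₀ + (l + 1 + 1) * d) (by nlinarith)
        have e1 : j₀ + (l + 1 + 1) * d - d = j₀ + (l + 1) * d := by
          have : (l + 1 + 1) * d = (l + 1) * d + d := by ring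
          omega
        have e2 : j₀ + (l + 1 + 1) * d - 2 * d = j₀ + l * d := by
          have : (l + 1 + 1) * d = l * d + 2 * d := by ring
          omega
        rw [e1, e2] at h1
        rw [h1, pow_succ]
        linear_combination H * ih
    have hform : ∀ l : ℕ, k (j₀ + (l + 1) * d) = H ^ (l + 1) * k j₀ + (l + 1 : ℕ) * H ^ l * (k (j₀ + d) - H * k j₀) := by
      intro l
      induction l with
      | zero => simp
      | succ l ih =>
        have h1 := hrec (l + 1)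
        rw [sub_eq_iff_eq_add] at h1
        rw [h1, ih]
        push_cast
        ring
    rw [← sub_eq_zero]
    apply hdom _ 16 (by norm_num)
    intro z hz
    apply growth (norm_nonneg _) (hH1 z hz) (norm_nonneg _)
    intro l
    have h1 := congrArg (eval z) (hform l)
    simp only [map_add, map_mul, map_pow, map_natCast] at h1
    have h2 : ((l + 1 : ℕ) : ℂ) * eval z H ^ l * eval z (k (j₀ + d) - H * k j₀)
        = eval z (k (j₀ + (l + 1) * d)) - eval z H ^ (l + 1) * eval z (k j₀) := by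
      rw [h1]; ring
    have h3 : ((l:ℝ) + 1) * ‖eval z H‖ ^ l * ‖eval z (k (j₀ + d) - H * k j₀)‖
        = ‖((l + 1 : ℕ) : ℂ) * eval z H ^ l * eval z (k (j₀ + d) - H * k j₀)‖ := by
      rw [norm_mul, norm_mul, norm_pow, Complex.norm_natCast]
      push_cast; ring
    rw [h3, h2]
    refine (norm_sub_le _ _).trans ?_
    have h4 := K1_bound (hx z hz) (hy z hz) (j₀ + (l + 1) * d)
    have h5 := K1_bound (hx z hz) (hy z hz) j₀
    have h6 : ‖eval z H ^ (l + 1) * eval z (k j₀)‖ ≤ 2 := by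
      rw [norm_mul, norm_pow]
      have := pow_le_one₀ (norm_nonneg (eval z H)) (hH1 z hz) (n := l + 1)
      exact (mul_le_of_le_one_left (norm_nonneg _) this).trans h5
    linarith
  -- (3)
  have s3 : k d = 0 := by
    apply hdom _ 2 (by norm_num)
    intro z hz
    have h1 := ineq2 hd (eval z H) (hx z hz) (hy z hz) (d:ℤ)
    have e1 : ((d:ℤ) + d) = ((d + d : ℕ) : ℤ) := by push_cast; ring
    rw [sub_self, kap_zero _ (hz0 z), e1, kap_pos _ _ (by omega), kap_pos _ _ (by omega), s2 d hd le_rfl, map_mul] at h1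
    have h3 := conj_mul_self' (eval z H)
    have e2 : (1 + (‖eval z H‖ : ℂ) ^ 2) * (eval z (k d) / 2) - eval z H * 0
        - (starRingEnd ℂ) (eval z H) * (eval z H * eval z (k d) / 2) = eval z (k d) / 2 := by
      linear_combination (-(eval z (k d)) / 2) * h3
    rw [e2, norm_div] at h1
    have h5 : ‖(2:ℂ)‖ = 2 := by norm_num
    rw [h5] at h1
    linarith
  have hHne : H ≠ 0 := by
    intro h0
    have := hii 1 (by intro z hz; rw [h0]; simp)
    exact one_ne_zero this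
  -- (4)
  have s4 : ∀ j : ℕ, 1 ≤ j → j < d → k j = 0 := by
    intro j hj1 hj2
    by_contra hne
    apply hi
    apply power_of_wronskian H (k j) d j (by omega) hj2 hHne hne
    intro i
    apply wronskian_of_contact m hm (by omega) hj2 H (k j) (k (d - j)) hH (hk j) (hk (d - j)) hH1 _ hii i
    intro z hz
    have h1 := ineq2 hd (eval z H) (hx z hz) (hy z hz) (j:ℤ)
    have e1 : ((j:ℤ) + d) = ((j + d : ℕ) : ℤ) := by push_cast; ring
    have e2 : ((j:ℤ) - d) = -((d - j : ℕ) : ℤ) := by omega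
    rw [e1, e2, kap_pos _ _ (by omega), kap_pos _ _ (by omega), kap_neg _ _ (by omega), s2 j hj1 hj2.le, map_mul] at h1
    have h3 := conj_mul_self' (eval z H)
    have e3 : (1 + (‖eval z H‖ : ℂ) ^ 2) * (eval z (k j) / 2) - eval z H * ((starRingEnd ℂ) (eval z (k (d - j))) / 2)
        - (starRingEnd ℂ) (eval z H) * (eval z H * eval z (k j) / 2)
        = (eval z (k j) - eval z H * (starRingEnd ℂ) (eval z (k (d - j)))) / 2 := by
      linear_combination (-(eval z (k j)) / 2) * h3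
    rw [e3, norm_div] at h1
    have h5 : ‖(2:ℂ)‖ = 2 := by norm_num
    rw [h5] at h1
    linarith
  -- conclusion
  have hall : ∀ (l : ℕ) (j₀ : ℕ), 1 ≤ j₀ → j₀ ≤ d → k (j₀ + l * d) = 0 := by
    intro l
    induction l using Nat.strong_induction_on with
    | _ l ih =>
      intro j₀ h1 h2
      rcases l with _ | _ | l
      · rw [zero_mul, add_zero]
        rcases eq_or_lt_of_le h2 with h3 | h3
        · rw [h3]; exact s3
        · exact s4 j₀ h1 h3
      · have h0 := ih 0 (by omega) j₀ h1 h2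
        rw [zero_mul, add_zero] at h0
        rw [zero_add, one_mul, s2 j₀ h1 h2, h0, mul_zero]
      · rw [s1 (j₀ + (l + 1 + 1) * d) (by nlinarith)]
        have e1 : j₀ + (l + 1 + 1) * d - d = j₀ + (l + 1) * d := by
          have : (l + 1 + 1) * d = (l + 1) * d + d := by ring
          omega
        have e2 : j₀ + (l + 1 + 1) * d - 2 * d = j₀ + l * d := by
          have : (l + 1 + 1) * d = l * d + 2 * d := by ring
          omega
        rw [e1, e2, ih (l + 1) (by omega) j₀ h1 h2, ih l (by omega) j₀ h1 h2]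
        ring
  intro j
  rcases Nat.eq_zero_or_pos j with h0 | h0
  · rw [h0, hk0]
  · have h1 := hall ((j - 1) / d) ((j - 1) % d + 1) (by omega) (by
      have := Nat.mod_lt (j - 1) (by omega : 0 < d)
      omega)
    have h2 : (j - 1) % d + 1 + (j - 1) / d * d = j := by
      have := Nat.mod_add_div (j - 1) d
      rw [mul_comm d] at this
      omega
    rw [h2] at h1
    exact h1

end

end Pool.Agent.Lib.MP_6ff8d9_an.Hom
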