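import Mathlib

open Metric Filter Topology

namespace Pool.Agent.Lib.MP_6ff8d9_an

noncomputable section

/-- `ℂⁿ` with its Euclidean (Hermitian) norm. -/
abbrev Cn (n : ℕ) := EuclideanSpace ℂ (Fin n)

/-- The class `N(𝔹)`: holomorphic functions on the open unit ball with positive real part and
value `1` at the origin.  (Functions are total functions on `ℂⁿ`; only the values on the ball
matter.) -/
def NB (n : ℕ) : Set (Cn n → ℂ) :=
  {g | DifferentiableOn ℂ g (ball 0 1) ∧ (∀ z ∈ ball (0 : Cn n) 1, 0 < (g z).re) ∧ g 0 = 1}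

/-- Extreme points of `N(𝔹)`, literally as in the problem (functions being compared on the
ball). -/
def IsExtremePoint (n : ℕ) (g : Cn n → ℂ) : Prop :=
  g ∈ NB n ∧ ∀ g₁ ∈ NB n, ∀ g₂ ∈ NB n, ∀ t : ℝ, 0 < t → t < 1 →
    (∀ z ∈ ball (0 : Cn n) 1, g z = t * g₁ z + (1 - t) * g₂ z) →
    ∀ z ∈ ball (0 : Cn n) 1, g₁ z = g₂ z

end

end Pool.Agent.Lib.MP_6ff8d9_an
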