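import Pool.Agent.Lib.MP_6ff8d9_an.Base2

open Metric Filter Topology

namespace Pool.Agent.Lib.MP_6ff8d9_an

noncomputable section

/-- one-dimensional Fejér weights -/
def fM (M : ℕ) (k : ℤ) : ℝ := max 0 (1 - |(k:ℝ)| / M)

lemma fM_zero (M : ℕ) : fM M 0 = 1 := by simp [fM]

lemma fM_neg (M : ℕ) (k : ℤ) : fM M (-k) = fM M k := by simp [fM]

lemma fM_nonneg (M : ℕ) (k : ℤ) : 0 ≤ fM M k := le_max_left _ _

lemma fM_le_one (M : ℕ) (k : ℤ) : fM M k ≤ 1 := by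
  refine max_le zero_le_one ?_
  have : 0 ≤ |(k:ℝ)| / M := by positivity
  linarith

lemma fM_tendsto (k : ℤ) : Tendsto (fun M : ℕ => fM M k) atTop (𝓝 1) := by
  have h : Tendsto (fun M : ℕ => 1 - |(k:ℝ)| / M) atTop (𝓝 (1 - 0)) :=
    tendsto_const_nhds.sub (Tendsto.div_atTop tendsto_const_nhds tendsto_natCast_atTop_atTop)
  have h2 := (tendsto_const_nhds (x := (0:ℝ)) (f := atTop (α := ℕ))).max h
  simpa [fM] using h2

lemma fM_eq_zero {M : ℕ} (hM : 1 ≤ M) {k : ℤ} (hk : (M:ℤ) ≤ |k|) : fM M k = 0 := by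
  have hpos : (0:ℝ) < M := by exact_mod_cast hM
  have h1 : (M:ℝ) ≤ |(k:ℝ)| := by exact_mod_cast hk
  unfold fM
  apply max_eq_left
  have : 1 ≤ |(k:ℝ)| / M := by rwa [le_div_iff₀ hpos, one_mul]
  linarith

lemma sum_Ioo_symm (g : ℤ → ℂ) (M : ℕ) :
    ∑ k ∈ Finset.Ioo (-((M:ℤ) + 1)) ((M:ℤ) + 1), g k =
      g 0 + ∑ j ∈ Finset.range M, (g ((j:ℤ) + 1) + g (-((j:ℤ) + 1))) := by
  induction M with
  | zero =>
    have : Finset.Ioo (-(((0:ℕ):ℤ) + 1)) (((0:ℕ):ℤ) + 1) = {0} := by decide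
    rw [this]; simp
  | succ M ih =>
    have h1 : Finset.Ioo (-(((M+1:ℕ):ℤ) + 1)) (((M+1:ℕ):ℤ) + 1) =
        insert ((M:ℤ)+1) (insert (-((M:ℤ)+1)) (Finset.Ioo (-((M:ℤ) + 1)) ((M:ℤ) + 1))) := by
      ext k
      simp only [Finset.mem_Ioo, Finset.mem_insert]
      push_cast
      omega
    rw [h1, Finset.sum_insert, Finset.sum_insert, ih, Finset.sum_range_succ]
    · ring
    · simp
    · simp only [Finset.mem_insert, Finset.mem_Ioo]
      omega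

/-- Fejér's identity -/
lemma fejer_aux (x : ℝ) (M : ℕ) :
    ∑ k ∈ Finset.Ioo (-(M:ℤ)) (M:ℤ), ((M:ℂ) - (|(k:ℝ)| : ℝ)) * Complex.exp (Complex.I * (((k:ℝ) * x : ℝ) : ℂ))
      = ((‖∑ a ∈ Finset.range M, Complex.exp (Complex.I * (((a:ℝ) * x : ℝ) : ℂ))‖ ^ 2 : ℝ) : ℂ) := by
  set E : ℝ → ℂ := fun t => Complex.exp (Complex.I * ((t * x : ℝ) : ℂ)) with hE
  have hEmul : ∀ s t, E s * E t = E (s + t) := by
    intro s t; simp only [hE, ← Complex.exp_add]; congr 1; push_cast; ring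
  have hEconj : ∀ t, (starRingEnd ℂ) (E t) = E (-t) := by
    intro t
    simp only [hE, ← Complex.exp_conj, map_mul, Complex.conj_I, Complex.conj_ofReal]
    congr 1; push_cast; ring
  have hnorm : ∀ z : ℂ, ((‖z‖^2 : ℝ) : ℂ) = z * (starRingEnd ℂ) z := by
    intro z; rw [Complex.mul_conj, Complex.normSq_eq_norm_sq]
  induction M with
  | zero => simp
  | succ M ih =>
    have h1 : ∑ k ∈ Finset.Ioo (-((M+1:ℕ):ℤ)) ((M+1:ℕ):ℤ), (((M+1:ℕ):ℂ) - (|(k:ℝ)| : ℝ)) * E k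
        = ∑ k ∈ Finset.Ioo (-((M+1:ℕ):ℤ)) ((M+1:ℕ):ℤ), ((M:ℂ) - (|(k:ℝ)| : ℝ)) * E k
          + ∑ k ∈ Finset.Ioo (-((M+1:ℕ):ℤ)) ((M+1:ℕ):ℤ), E k := by
      rw [← Finset.sum_add_distrib]
      apply Finset.sum_congr rfl
      intro k _
      push_cast; ring
    have h2 : ∑ k ∈ Finset.Ioo (-((M+1:ℕ):ℤ)) ((M+1:ℕ):ℤ), ((M:ℂ) - (|(k:ℝ)| : ℝ)) * E k
        = ∑ k ∈ Finset.Ioo (-(M:ℤ)) (M:ℤ), ((M:ℂ) - (|(k:ℝ)| : ℝ)) * E k := by
      symm
      apply Finset.sum_subset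
      · intro k hk
        simp only [Finset.mem_Ioo] at hk ⊢
        push_cast
        omega
      · intro k hk hk'
        simp only [Finset.mem_Ioo] at hk hk'
        push_cast at hk
        have h3 : |k| = M := by
          rcases abs_cases k with ⟨h, _⟩ | ⟨h, _⟩ <;> omega
        have h4 : |(k:ℝ)| = (M:ℝ) := by exact_mod_cast h3
        rw [h4]; simp
    have h3 : ∑ k ∈ Finset.Ioo (-((M+1:ℕ):ℤ)) ((M+1:ℕ):ℤ), E k
        = 1 + ∑ a ∈ Finset.range M, (E ((M:ℝ) - a) + E ((a:ℝ) - M)) := by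
      have := sum_Ioo_symm (fun k => E k) M
      push_cast at this ⊢
      rw [this]
      congr 1
      · simp [hE]
      · rw [← Finset.sum_range_reflect]
        apply Finset.sum_congr rfl
        intro a ha
        have ha' : a < M := Finset.mem_range.1 ha
        have h5 : ((M - 1 - a : ℕ) : ℝ) = (M:ℝ) - 1 - a := by
          rw [Nat.cast_sub (by omega), Nat.cast_sub (by omega)]; simp
        rw [h5]
        congr 2 <;> ring
    rw [h1, h2, ih, h3, hnorm, hnorm, Finset.sum_range_succ]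
    have hEM : Complex.exp (Complex.I * (((M:ℝ) * x : ℝ) : ℂ)) = E M := rfl
    have hEa : ∀ a : ℕ, Complex.exp (Complex.I * (((a:ℝ) * x : ℝ) : ℂ)) = E a := fun _ => rfl
    simp only [hEM, hEa, map_add, map_sum, hEconj]
    rw [add_mul, mul_add, mul_add]
    have h6 : E M * E (-M) = 1 := by rw [hEmul]; simp [hE]
    rw [h6]
    have h7 : ∑ a ∈ Finset.range M, (E ((M:ℝ) - a) + E ((a:ℝ) - M)) =
        (∑ a ∈ Finset.range M, E a) * E (-M) + E M * ∑ a ∈ Finset.range M, E (-a) := by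
      rw [Finset.sum_mul, Finset.mul_sum, ← Finset.sum_add_distrib]
      apply Finset.sum_congr rfl
      intro a _
      rw [hEmul, hEmul, add_comm]
      congr 2
    rw [h7]
    ring

/-- the Fejér kernel centred at `x₁` -/
def Fe (M : ℕ) (x₁ : ℝ) : ℤ →₀ ℂ :=
  Finsupp.onFinset (Finset.Ioo (-(M:ℤ)) M)
    (fun k => if k ∈ Finset.Ioo (-(M:ℤ)) M then (fM M k : ℂ) * Complex.exp (Complex.I * ((-(k:ℝ) * x₁ : ℝ) : ℂ)) else 0)
    (by intro k hk; by_contra h; simp only [h, if_false] at hk; exact hk rfl)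

lemma Fe_apply {M : ℕ} (hM : 1 ≤ M) (x₁ : ℝ) (k : ℤ) :
    Fe M x₁ k = (fM M k : ℂ) * Complex.exp (Complex.I * ((-(k:ℝ) * x₁ : ℝ) : ℂ)) := by
  unfold Fe
  rw [Finsupp.onFinset_apply]
  split_ifs with h
  · rfl
  · have : (M:ℤ) ≤ |k| := by
      simp only [Finset.mem_Ioo, not_and_or, not_lt] at h
      rcases abs_cases k with ⟨h1, _⟩ | ⟨h1, _⟩ <;> omega
    rw [fM_eq_zero hM this]; simp

lemma Fe_sum {M : ℕ} (x₁ : ℝ) (g : ℤ → ℂ → ℂ) (hg : ∀ k, g k 0 = 0) :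
    (Fe M x₁).sum g = ∑ k ∈ Finset.Ioo (-(M:ℤ)) M,
      g k ((fM M k : ℂ) * Complex.exp (Complex.I * ((-(k:ℝ) * x₁ : ℝ) : ℂ))) := by
  unfold Fe
  rw [Finsupp.onFinset_sum _ (fun k => hg k)]
  apply Finset.sum_congr rfl
  intro k hk
  rw [if_pos hk]

lemma Fe_ev {M : ℕ} (hM : 1 ≤ M) (x₁ x : ℝ) :
    evC (Fe M x₁) x = ((1 / M * ‖∑ a ∈ Finset.range M,
      Complex.exp (Complex.I * (((a:ℝ) * (x - x₁) : ℝ) : ℂ))‖ ^ 2 : ℝ) : ℂ) := by
  have hpos : (0:ℝ) < M := by exact_mod_cast hM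
  unfold evC
  rw [Fe_sum _ _ (by intro k; simp)]
  rw [Complex.ofReal_mul, ← fejer_aux (x - x₁) M, Finset.mul_sum]
  apply Finset.sum_congr rfl
  intro k hk
  have hk' : |(k:ℝ)| < M := by
    have : |k| < M := by
      simp only [Finset.mem_Ioo] at hk
      rcases abs_cases k with ⟨h1, _⟩ | ⟨h1, _⟩ <;> omega
    exact_mod_cast this
  have h1 : fM M k = 1 - |(k:ℝ)| / M := by
    unfold fM
    apply max_eq_right
    have : |(k:ℝ)| / M < 1 := by rwa [div_lt_one hpos]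
    linarith
  rw [h1]
  have h2 : Complex.exp (Complex.I * (((k:ℝ) * (x - x₁) : ℝ) : ℂ)) =
      Complex.exp (Complex.I * ((-(k:ℝ) * x₁ : ℝ) : ℂ)) * Complex.exp (Complex.I * (((k:ℝ) * x : ℝ) : ℂ)) := by
    rw [← Complex.exp_add]; congr 1; push_cast; ring
  rw [h2]
  have hM' : (M:ℂ) ≠ 0 := by exact_mod_cast hpos.ne'
  push_cast
  field_simp

end

end Pool.Agent.Lib.MP_6ff8d9_an
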