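import Pool.Agent.Lib.MP_6ff8d9_an_h42.M5
import Pool.Agent.Lib.MP_6ff8d9_an_h21.Series1

open Metric Filter Topology MvPolynomial

namespace Pool.Agent.Lib.MP_6ff8d9_an.Hom

noncomputable section

/-- the point of the slice through `ζ` -/
def slp {n : ℕ} (m : Fin n → ℕ) (ζ : Fin n → ℂ) (c : ℂ) : Cn n := WithLp.toLp 2 fun i => c ^ (m i) * ζ i

lemma slp_apply {n : ℕ} (m : Fin n → ℕ) (ζ : Fin n → ℂ) (c : ℂ) (i : Fin n) : slp m ζ c i = c ^ (m i) * ζ i := rfl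

lemma slp_mem {n : ℕ} (m : Fin n → ℕ) (hm : ∀ i, 0 < m i) {ζ : Fin n → ℂ} (hζ : ζ ∈ Sph n) {c : ℂ} (hc : ‖c‖ < 1) :
    slp m ζ c ∈ ball (0 : Cn n) 1 := by
  rw [M5.mem_ball_iff]
  have h1 : ∑ i, ‖ζ i‖ ^ 2 = 1 := hζ
  have h2 : ∀ i, ‖slp m ζ c i‖ ^ 2 ≤ ‖c‖ ^ 2 * ‖ζ i‖ ^ 2 := by
    intro i
    rw [slp_apply, norm_mul, mul_pow, norm_pow]
    apply mul_le_mul_of_nonneg_right _ (by positivity)
    apply pow_le_pow_left₀ (by positivity)
    exact pow_le_of_le_one (norm_nonneg _) hc.le (hm i).ne'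
  calc ∑ i, ‖slp m ζ c i‖ ^ 2 ≤ ∑ i, ‖c‖ ^ 2 * ‖ζ i‖ ^ 2 := Finset.sum_le_sum fun i _ => h2 i
    _ = ‖c‖ ^ 2 := by rw [← Finset.mul_sum, h1, mul_one]
    _ < 1 := by
      have := norm_nonneg c
      nlinarith

lemma Dn1_lt {y : Fin 1 → ℂ} (hy : y ∈ Dn 1) : ‖y 0‖ < 1 := by
  have h1 : ∑ j, ‖y j‖ ^ 2 < ((1:ℕ):ℝ) := hy
  simp at h1
  exact h1

lemma conv1 (x : ℕ → ℂ) (y : Fin 1 → ℂ) (s : ℂ) (h : HasSum (fun j => x j * y 0 ^ j) s) :
    HasSum (fun γ : Fin 1 → ℕ => x (γ 0) * mon γ y) s := by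
  rw [← (Equiv.funUnique (Fin 1) ℕ).hasSum_iff] at h
  convert h using 1
  funext γ
  simp only [Function.comp, mon]
  simp

/-- weighted degree -/
def wt {n : ℕ} (m γ : Fin n → ℕ) : ℕ := ∑ i, m i * γ i

/-- the exponents of weighted degree `j` -/
def FW {n : ℕ} (m : Fin n → ℕ) (j : ℕ) : Finset (Fin n → ℕ) :=
  (Fintype.piFinset fun _ => Finset.range (j + 1)).filter fun γ => wt m γ = j

lemma mem_FW {n : ℕ} {m : Fin n → ℕ} (hm : ∀ i, 0 < m i) {j : ℕ} {γ : Fin n → ℕ} : γ ∈ FW m j ↔ wt m γ = j := by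
  unfold FW
  rw [Finset.mem_filter, Fintype.mem_piFinset]
  constructor
  · exact fun h => h.2
  · intro h
    refine ⟨fun i => ?_, h⟩
    rw [Finset.mem_range, ← h]
    have h1 : m i * γ i ≤ wt m γ := Finset.single_le_sum (f := fun i => m i * γ i) (fun _ _ => Nat.zero_le _) (Finset.mem_univ i)
    have h2 : γ i ≤ m i * γ i := Nat.le_mul_of_pos_left _ (hm i)
    omega

/-- the weighted homogeneous components -/
def xc {n : ℕ} (m : Fin n → ℕ) (a : (Fin n → ℕ) → ℂ) (j : ℕ) : MvPolynomial (Fin n) ℂ :=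
  ∑ γ ∈ FW m j, monomial (Finsupp.equivFunOnFinite.symm γ) (a γ * (Real.sqrt n : ℂ) ^ (∑ i, γ i))

lemma xc_eval {n : ℕ} (m : Fin n → ℕ) (a : (Fin n → ℕ) → ℂ) (j : ℕ) (z : Fin n → ℂ) :
    eval z (xc m a j) = ∑ γ ∈ FW m j, a γ * mon γ (fun i => (Real.sqrt n : ℂ) * z i) := by
  unfold xc
  rw [map_sum]
  apply Finset.sum_congr rfl
  intro γ _
  rw [eval_monomial, Finsupp.prod_fintype _ _ (by intro i; simp)]
  unfold mon
  simp only [mul_pow, Finset.prod_mul_distrib, Finsupp.coe_equivFunOnFinite_symm]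
  rw [Finset.prod_pow_eq_pow_sum]
  ring

/-- M3 -/
theorem slices {n : ℕ} (hn : 1 ≤ n) (m : Fin n → ℕ) (hm : ∀ i, 0 < m i) {g : Cn n → ℂ} (hg : g ∈ NB n) :
    ∃ x : ℕ → MvPolynomial (Fin n) ℂ, (∀ j, IsWeightedHomogeneous m (x j) j) ∧ x 0 = 1 ∧
      (∀ z ∈ ball (0 : Cn n) 1, HasSum (fun j => eval (fun i => z i) (x j)) (g z)) ∧
      ∀ ζ ∈ Sph n, (fun γ : Fin 1 → ℕ => eval ζ (x (γ 0))) ∈ KB 1 := by
  classical
  obtain ⟨a, ha, hga⟩ := exists_KB hn hg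
  have hhom : ∀ j, IsWeightedHomogeneous m (xc m a j) j := by
    intro j
    unfold xc
    apply IsWeightedHomogeneous.sum
    intro γ hγ
    apply isWeightedHomogeneous_monomial
    have h1 := (mem_FW hm).1 hγ
    rw [← h1, wt, Finsupp.weight_apply, Finsupp.sum_fintype _ _ (by intro i; simp)]
    apply Finset.sum_congr rfl
    intro i _
    simp [mul_comm]
  have hzero : xc m a 0 = 1 := by
    have h1 : FW m 0 = {0} := by
      ext γ
      rw [mem_FW hm, Finset.mem_singleton]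
      constructor
      · intro h
        funext i
        have h2 : m i * γ i ≤ wt m γ := Finset.single_le_sum (f := fun i => m i * γ i) (fun _ _ => Nat.zero_le _) (Finset.mem_univ i)
        rw [h] at h2
        have h3 := hm i
        simp only [Pi.zero_apply]
        nlinarith
      · rintro rfl
        simp [wt]
    unfold xc
    rw [h1, Finset.sum_singleton, ha.1]
    have h2 : (Finsupp.equivFunOnFinite.symm (0 : Fin n → ℕ)) = (0 : Fin n →₀ ℕ) := by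
      ext i; simp
    rw [h2]
    simp
  have hsum : ∀ z ∈ ball (0 : Cn n) 1, HasSum (fun j => eval (fun i => z i) (xc m a j)) (g z) := by
    intro z hz
    have hmem : (fun i => (Real.sqrt n : ℂ) * z i) ∈ Dn n := by
      have h1 := (M5.mem_ball_iff z).1 hz
      show ∑ i, ‖(Real.sqrt n : ℂ) * z i‖ ^ 2 < (n : ℝ)
      have h2 : ∀ i, ‖(Real.sqrt n : ℂ) * z i‖ ^ 2 = n * ‖z i‖ ^ 2 := by
        intro i
        rw [norm_mul, mul_pow, Complex.norm_real, Real.norm_eq_abs, sq_abs, Real.sq_sqrt (by positivity)]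
      simp only [h2]
      rw [← Finset.mul_sum]
      have h3 : (0:ℝ) < n := by exact_mod_cast hn
      nlinarith
    have h1 := (ha.2 _ hmem).1.hasSum
    have h2 : (∑' γ, a γ * mon γ (fun i => (Real.sqrt n : ℂ) * z i)) = g z := (hga z hz).symm
    rw [h2] at h1
    have h3 := h1.tsum_fiberwise (wt m)
    refine (congrArg (fun F => HasSum F (g z)) ?_).mpr h3
    funext j
    rw [xc_eval]
    have h4 : wt m ⁻¹' {j} = (↑(FW m j) : Set (Fin n → ℕ)) := by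
      ext γ
      rw [Set.mem_preimage, Set.mem_singleton_iff, Finset.mem_coe, mem_FW hm]
    rw [h4]
    rw [Finset.tsum_subtype' (FW m j) (fun γ => a γ * mon γ (fun i => (Real.sqrt n : ℂ) * z i))]
  refine ⟨xc m a, hhom, hzero, hsum, ?_⟩
  intro ζ hζ
  have hslice : ∀ y ∈ Dn 1, HasSum (fun γ : Fin 1 → ℕ => eval ζ (xc m a (γ 0)) * mon γ y) (g (slp m ζ (y 0))) := by
    intro y hy
    have hy1 := Dn1_lt hy
    apply conv1 (fun j => eval ζ (xc m a j))
    have h1 := hsum _ (slp_mem m hm hζ hy1)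
    refine (congrArg (fun F => HasSum F (g (slp m ζ (y 0)))) ?_).mpr h1
    funext j
    simp only [slp_apply]
    rw [M5.eval_scale m (hhom j)]
    ring
  refine ⟨?_, ?_⟩
  · show eval ζ (xc m a ((0 : Fin 1 → ℕ) 0)) = 1
    rw [Pi.zero_apply, hzero, map_one]
  · intro y hy
    refine ⟨(hslice y hy).summable, ?_⟩
    unfold fn
    rw [(hslice y hy).tsum_eq]
    exact (hg.2.1 _ (slp_mem m hm hζ (Dn1_lt hy))).le

end

end Pool.Agent.Lib.MP_6ff8d9_an.Hom
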