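import Pool.Agent.Lib.MP_6ff8d9_an.Core
import Pool.Agent.Lib.MP_6ff8d9_an.Slices

open Metric Filter Topology MvPolynomial

namespace Pool.Agent.Lib.MP_6ff8d9_an.Hom

noncomputable section

/-- the one-variable series of the Cayley transform -/
lemma gc_hasSum {d : ℕ} (hd : 1 ≤ d) {h : ℂ} (hh : ‖h‖ ≤ 1) {c : ℂ} (hc : ‖c‖ < 1) :
    HasSum (fun j => gc d h j * c ^ j) ((1 + c ^ d * h) / (1 - c ^ d * h)) := by
  have hw : ‖c ^ d * h‖ < 1 := by
    rw [norm_mul, norm_pow]
    have h1 : ‖c‖ ^ d < 1 := pow_lt_one₀ (norm_nonneg _) hc (by omega)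
    have h2 : 0 ≤ ‖c‖ ^ d := by positivity
    nlinarith [norm_nonneg h]
  set w := c ^ d * h with hwdef
  have h1 : (1:ℂ) - w ≠ 0 := by
    intro h0
    have : w = 1 := (sub_eq_zero.1 h0).symm
    rw [this, norm_one] at hw
    exact lt_irrefl _ hw
  have hg := hasSum_geometric_of_norm_lt_one hw
  -- sum over multiples of `d`
  have h2 : HasSum (fun l : ℕ => 2 * w ^ l - (if l = 0 then 1 else 0)) (2 * (1 - w)⁻¹ - 1) :=
    (hg.mul_left 2).sub (hasSum_ite_eq 0 1)
  have h3 : 2 * (1 - w)⁻¹ - 1 = (1 + w) / (1 - w) := by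
    field_simp
    ring
  rw [h3] at h2
  have hinj : Function.Injective (fun l : ℕ => l * d) := by
    intro a b hab
    exact Nat.eq_of_mul_eq_mul_right (by omega) hab
  have h4 : (fun l : ℕ => 2 * w ^ l - (if l = 0 then 1 else 0)) = (fun j => gc d h j * c ^ j) ∘ (fun l => l * d) := by
    funext l
    simp only [Function.comp]
    unfold gc
    rcases Nat.eq_zero_or_pos l with hl | hl
    · subst hl; simp; norm_num
    · rw [if_neg (by omega), if_neg (by positivity), if_pos (Dvd.intro_left l rfl), Nat.mul_div_cancel _ (by omega), hwdef,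
        mul_pow, ← pow_mul, mul_comm d l]
      ring
  rw [h4] at h2
  rwa [hinj.hasSum_iff] at h2
  intro j hj
  have h5 : ¬ d ∣ j := by
    rintro ⟨l, hl⟩
    apply hj
    exact ⟨l, by rw [hl]; ring⟩
  have h6 : j ≠ 0 := by
    rintro rfl
    exact h5 (dvd_zero d)
  unfold gc
  rw [if_neg h6, if_neg h5, zero_mul]

/-- uniqueness of one-variable coefficients -/
lemma coef_unique {a b : ℕ → ℂ} {G : ℂ → ℂ} (ha : ∀ c : ℂ, ‖c‖ < 1 → HasSum (fun j => a j * c ^ j) (G c))
    (hb : ∀ c : ℂ, ‖c‖ < 1 → HasSum (fun j => b j * c ^ j) (G c)) : a = b := by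
  have h := fn_inj (n := 1) le_rfl (a := fun γ => a (γ 0)) (b := fun γ => b (γ 0))
    (fun y hy => (conv1 a y _ (ha _ (Dn1_lt hy))).summable)
    (fun y hy => (conv1 b y _ (hb _ (Dn1_lt hy))).summable)
    (fun y hy => by
      unfold fn
      rw [(conv1 a y _ (ha _ (Dn1_lt hy))).tsum_eq, (conv1 b y _ (hb _ (Dn1_lt hy))).tsum_eq])
  funext j
  have := congrFun h (fun _ => j)
  exact this

lemma NB_convex {n : ℕ} {g₁ g₂ : Cn n → ℂ} (h1 : g₁ ∈ NB n) (h2 : g₂ ∈ NB n) {t : ℝ} (ht0 : 0 ≤ t) (ht1 : t ≤ 1) :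
    (fun z => (t:ℂ) * g₁ z + (1 - t) * g₂ z) ∈ NB n := by
  refine ⟨(h1.1.const_mul _).add (h2.1.const_mul _), ?_, ?_⟩
  · intro z hz
    have e1 := h1.2.1 z hz
    have e2 := h2.2.1 z hz
    have e3 : ((1:ℂ) - t) = ((1 - t : ℝ) : ℂ) := by push_cast; ring
    rw [e3, Complex.add_re, Complex.re_ofReal_mul, Complex.re_ofReal_mul]
    rcases eq_or_lt_of_le ht0 with h | h
    · rw [← h]; simpa using e2
    · have : 0 ≤ (1 - t) * (g₂ z).re := mul_nonneg (by linarith) e2.le
      have := mul_pos h e1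
      linarith
  · show (t:ℂ) * g₁ 0 + (1 - t) * g₂ 0 = 1
    rw [h1.2.2, h2.2.2]; ring

theorem extreme_of {n : ℕ} (hn : 1 ≤ n) (m : Fin n → ℕ) (hm : ∀ i, 0 < m i) {d : ℕ} (hd : 1 ≤ d)
    (H : MvPolynomial (Fin n) ℂ) (hH : IsWeightedHomogeneous m H d)
    (hH1 : ∀ z ∈ Sph n, ‖eval z H‖ ≤ 1) (hi : NotPower H) (hii : NoDom H) : IsExtremePoint n (gH H) := by
  refine ⟨gH_mem hn m hm hd H hH hH1, ?_⟩
  intro g₁ h1 g₂ h2 t ht0 ht1 hg
  set s : ℝ := min t (1 - t) with hs
  have hs0 : 0 < s := lt_min ht0 (by linarith)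
  have hst : s ≤ t := min_le_left _ _
  have hst' : s ≤ 1 - t := min_le_right _ _
  obtain ⟨x, hx1, hx2, hx3, hx4⟩ := slices hn m hm (NB_convex h1 h2 (t := t + s) (by linarith) (by linarith))
  obtain ⟨y, hy1, hy2, hy3, hy4⟩ := slices hn m hm (NB_convex h1 h2 (t := t - s) (by linarith) (by linarith))
  -- the coefficients of the mean
  have hsum : ∀ ζ ∈ Sph n, ∀ j, (eval ζ (x j) + eval ζ (y j)) / 2 = gc d (eval ζ H) j := by
    intro ζ hζ
    have hfun : (fun j => (eval ζ (x j) + eval ζ (y j)) / 2) = gc d (eval ζ H) := by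
      apply coef_unique (G := fun c => (1 + c ^ d * eval ζ H) / (1 - c ^ d * eval ζ H))
      · intro c hc
        have hz := slp_mem m hm hζ hc
        have e1 := hx3 _ hz
        have e2 := hy3 _ hz
        have e3 := (e1.add e2).mul_left (1/2)
        have e4 : (fun j => (1/2) * (eval (fun i => slp m ζ c i) (x j) + eval (fun i => slp m ζ c i) (y j)))
            = fun j => (eval ζ (x j) + eval ζ (y j)) / 2 * c ^ j := by
          funext j
          simp only [slp_apply]
          rw [M5.eval_scale m (hx1 j), M5.eval_scale m (hy1 j)]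
          ring
        rw [e4] at e3
        refine (congrArg (HasSum _) ?_).mpr e3
        have e5 := hg _ hz
        unfold gH at e5
        simp only [slp_apply] at e5
        rw [M5.eval_scale m hH] at e5
        rw [e5]
        push_cast
        ring
      · intro c hc
        exact gc_hasSum hd (hH1 ζ hζ) hc
    intro j
    exact congrFun hfun j
  set k : ℕ → MvPolynomial (Fin n) ℂ := fun j => MvPolynomial.C (1/2) * (x j - y j) with hk
  have hkz : ∀ (z : Fin n → ℂ) j, eval z (k j) = (eval z (x j) - eval z (y j)) / 2 := by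
    intro z j
    simp only [hk, map_mul, map_sub, eval_C]
    ring
  have hk1 : ∀ j, IsWeightedHomogeneous m (k j) j := by
    intro j
    have e1 : IsWeightedHomogeneous m (x j - y j) j := by
      have := Submodule.sub_mem (weightedHomogeneousSubmodule ℂ m j) (hx1 j) (hy1 j)
      exact this
    have e2 := (isWeightedHomogeneous_C m (1/2 : ℂ)).mul e1
    rw [zero_add] at e2
    exact e2
  have hk0 : k 0 = 0 := by
    simp only [hk, hx2, hy2, sub_self, mul_zero]
  have hcore := core m hm hd H hH hH1 hi hii k hk1 hk0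
    (by
      intro ζ hζ
      have : (fun γ : Fin 1 → ℕ => gc d (eval ζ H) (γ 0) + eval ζ (k (γ 0))) = fun γ => eval ζ (x (γ 0)) := by
        funext γ
        rw [← hsum ζ hζ, hkz]
        ring
      rw [this]
      exact hx4 ζ hζ)
    (by
      intro ζ hζ
      have : (fun γ : Fin 1 → ℕ => gc d (eval ζ H) (γ 0) - eval ζ (k (γ 0))) = fun γ => eval ζ (y (γ 0)) := by
        funext γ
        rw [← hsum ζ hζ, hkz]
        ring
      rw [this]
      exact hy4 ζ hζ)
  intro z hz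
  have e1 := hx3 z hz
  have e2 := hy3 z hz
  have e3 : (fun j => eval (fun i => z i) (x j)) = fun j => eval (fun i => z i) (y j) := by
    funext j
    have e4 := hkz (fun i => z i) j
    rw [hcore j, map_zero] at e4
    have e5 : eval (fun i => z i) (x j) - eval (fun i => z i) (y j) = 0 := by
      linear_combination (-2) * e4
    exact sub_eq_zero.1 e5
  rw [e3] at e1
  have e4 := e1.unique e2
  have e5 : (2 * s : ℂ) * (g₁ z - g₂ z) = 0 := by
    have : ((t + s : ℝ) : ℂ) * g₁ z + (1 - ((t + s : ℝ) : ℂ)) * g₂ z = ((t - s : ℝ) : ℂ) * g₁ z + (1 - ((t - s : ℝ) : ℂ)) * g₂ z := e4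
    push_cast at this
    linear_combination this
  have e6 : (2 * s : ℂ) ≠ 0 := by
    have : (s:ℂ) ≠ 0 := by exact_mod_cast hs0.ne'
    exact mul_ne_zero two_ne_zero this
  exact sub_eq_zero.1 ((mul_eq_zero.1 e5).resolve_left e6)

/-- final -/
theorem mainH {n : ℕ} (hn : 1 ≤ n) (m : Fin n → ℕ) (hm : ∀ i, 0 < m i) {d : ℕ} (hd : 1 ≤ d)
    (H : MvPolynomial (Fin n) ℂ) (hH : IsWeightedHomogeneous m H d)
    (hH1 : ∀ z ∈ Sph n, ‖eval z H‖ ≤ 1) :
    gH H ∈ NB n ∧ (IsExtremePoint n (gH H) ↔ NotPower H ∧ NoDom H) :=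
  ⟨gH_mem hn m hm hd H hH hH1, fun h => ⟨notPower_of_extreme hn m hm hd H hH hH1 h, noDom_of_extreme hn m hm hd H hH hH1 h⟩,
    fun h => extreme_of hn m hm hd H hH hH1 h.1 h.2⟩

end

end Pool.Agent.Lib.MP_6ff8d9_an.Hom
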