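import Pool.Agent.Lib.MP_6ff8d9_an.Rigid2

open Metric Filter Topology MeasureTheory

namespace Pool.Agent.Lib.MP_6ff8d9_an

noncomputable section

open UnitAddTorus

/-- Haar probability measure on the torus -/
def mu (n : ℕ) : Measure (UnitAddTorus (Fin n)) := Measure.pi fun _ => (AddCircle.haarAddCircle : Measure UnitAddCircle)

instance (n : ℕ) : IsProbabilityMeasure (mu n) := by unfold mu; infer_instance

instance (n : ℕ) : (mu n).IsAddHaarMeasure := by unfold mu; infer_instance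

/-- projection of the angles -/
def prj {n : ℕ} (θ : Fin n → ℝ) : UnitAddTorus (Fin n) := fun j => ((θ j / (2 * Real.pi) : ℝ) : UnitAddCircle)

lemma prj_add {n : ℕ} (θ η : Fin n → ℝ) : prj (θ + η) = prj θ + prj η := by
  ext j
  simp only [prj, Pi.add_apply, add_div]
  rfl

lemma prj_surj {n : ℕ} (x : UnitAddTorus (Fin n)) : ∃ θ, prj θ = x := by
  have : ∀ j, ∃ t : ℝ, (t : UnitAddCircle) = x j := fun j => QuotientAddGroup.mk_surjective (x j)
  choose t ht using this
  refine ⟨fun j => 2 * Real.pi * t j, ?_⟩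
  ext j
  simp only [prj]
  rw [← ht j]
  congr 1
  field_simp

lemma mF_prj {n : ℕ} (γ : Fin n → ℤ) (θ : Fin n → ℝ) : mFourier γ (prj θ) = cx γ θ := by
  unfold cx
  simp only [mFourier, ContinuousMap.coe_mk, prj, fourier_coe_apply]
  rw [← Complex.exp_sum]
  congr 1
  push_cast
  rw [Finset.mul_sum]
  apply Finset.sum_congr rfl
  intro j _
  have : (Real.pi : ℂ) ≠ 0 := by exact_mod_cast Real.pi_ne_zero
  field_simp

lemma mF_add_x {n : ℕ} (γ : Fin n → ℤ) (x y : UnitAddTorus (Fin n)) :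
    mFourier γ (x + y) = mFourier γ x * mFourier γ y := by
  obtain ⟨θ, rfl⟩ := prj_surj x
  obtain ⟨η, rfl⟩ := prj_surj y
  rw [← prj_add, mF_prj, mF_prj, mF_prj]
  unfold cx
  rw [← Complex.exp_add]
  congr 1
  rw [← mul_add, ← Complex.ofReal_add, ← Finset.sum_add_distrib]
  congr 2
  apply Finset.sum_congr rfl
  intro j _
  simp [mul_add]

lemma norm_mF {n : ℕ} (γ : Fin n → ℤ) (x : UnitAddTorus (Fin n)) : ‖mFourier γ x‖ = 1 := by
  obtain ⟨θ, rfl⟩ := prj_surj x
  rw [mF_prj, norm_cx]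

lemma int_mF {n : ℕ} (γ : Fin n → ℤ) : ∫ x, mFourier γ x ∂(mu n) = if γ = 0 then 1 else 0 := by
  split_ifs with h
  · subst h
    simp [mFourier_zero]
  · obtain ⟨i, hi⟩ : ∃ i, γ i ≠ 0 := by
      by_contra hc
      push Not at hc
      exact h (funext hc)
    set a : UnitAddTorus (Fin n) := prj (Pi.single i (Real.pi / γ i)) with ha
    have h1 : mFourier γ a = -1 := by
      rw [ha, mF_prj]
      unfold cx
      have hs : (∑ j, (γ j : ℝ) * (Pi.single i (Real.pi / γ i) : Fin n → ℝ) j) = Real.pi := by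
        rw [Finset.sum_eq_single i]
        · rw [Pi.single_eq_same]
          have : (γ i : ℝ) ≠ 0 := by exact_mod_cast hi
          field_simp
        · intro j _ hj
          rw [Pi.single_eq_of_ne hj, mul_zero]
        · simp
      rw [hs, mul_comm, Complex.exp_pi_mul_I]
    have h2 : ∫ x, mFourier γ (a + x) ∂(mu n) = ∫ x, mFourier γ x ∂(mu n) :=
      integral_add_left_eq_self (fun x => mFourier γ x) a
    simp only [mF_add_x, h1] at h2
    rw [integral_const_mul] at h2
    have h3 : (2:ℂ) * ∫ x, mFourier γ x ∂(mu n) = 0 := by linear_combination -h2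
    simpa using h3

/-- trigonometric sum on the torus -/
def TX {n : ℕ} (S : Finset (Fin n → ℤ)) (c : (Fin n → ℤ) → ℂ) (x : UnitAddTorus (Fin n)) : ℂ :=
  ∑ γ ∈ S, c γ * mFourier γ x

lemma TX_prj {n : ℕ} (S : Finset (Fin n → ℤ)) (c : (Fin n → ℤ) → ℂ) (θ : Fin n → ℝ) :
    TX S c (prj θ) = TS S c θ := by
  simp only [TX, TS, mF_prj]

lemma TX_cont {n : ℕ} (S : Finset (Fin n → ℤ)) (c : (Fin n → ℤ) → ℂ) : Continuous (TX S c) := by
  unfold TX
  fun_prop

lemma cont_int {n : ℕ} {f : UnitAddTorus (Fin n) → ℂ} (hf : Continuous f) : Integrable f (mu n) :=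
  hf.integrable_of_hasCompactSupport (HasCompactSupport.of_compactSpace f)

lemma mF_mul {n : ℕ} (γ δ : Fin n → ℤ) (x : UnitAddTorus (Fin n)) :
    mFourier γ x * mFourier δ x = mFourier (γ + δ) x := (mFourier_add).symm

/-- Fourier coefficient against a continuous function -/
lemma int_TX {n : ℕ} (S : Finset (Fin n → ℤ)) (c : (Fin n → ℤ) → ℂ) (ψ : UnitAddTorus (Fin n) → ℂ)
    (hψ : Continuous ψ) (κ : Fin n → ℤ) :
    ∫ x, ψ x * TX S c x * mFourier (-κ) x ∂(mu n) = ∑ γ ∈ S, c γ * ∫ x, ψ x * mFourier (-(κ - γ)) x ∂(mu n) := by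
  have h1 : ∀ x, ψ x * TX S c x * mFourier (-κ) x = ∑ γ ∈ S, c γ * (ψ x * mFourier (-(κ - γ)) x) := by
    intro x
    unfold TX
    rw [Finset.mul_sum, Finset.sum_mul]
    apply Finset.sum_congr rfl
    intro γ _
    have : (-(κ - γ)) = γ + -κ := by abel
    rw [this, ← mF_mul]
    ring
  simp only [h1]
  rw [integral_finsetSum]
  · apply Finset.sum_congr rfl
    intro γ _
    rw [integral_const_mul]
  · intro γ _
    exact cont_int (by fun_prop)

lemma int_TX1 {n : ℕ} (S : Finset (Fin n → ℤ)) (c : (Fin n → ℤ) → ℂ) (κ : Fin n → ℤ) :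
    ∫ x, TX S c x * mFourier (-κ) x ∂(mu n) = if κ ∈ S then c κ else 0 := by
  have h := int_TX S c (fun _ => 1) continuous_const κ
  simp only [one_mul, int_mF] at h
  rw [h]
  split_ifs with hk
  · rw [Finset.sum_eq_single κ]
    · simp
    · intro γ _ hγ
      have : ¬ (-(κ - γ) = 0) := by
        intro h0
        apply hγ
        rw [neg_eq_zero, sub_eq_zero] at h0
        exact h0.symm
      rw [if_neg this, mul_zero]
    · intro h; exact absurd hk h
  · apply Finset.sum_eq_zero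
    intro γ hγ
    have : ¬ (-(κ - γ) = 0) := by
      intro h0
      rw [neg_eq_zero, sub_eq_zero] at h0
      exact hk (h0 ▸ hγ)
    rw [if_neg this, mul_zero]

end

end Pool.Agent.Lib.MP_6ff8d9_an
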