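import Pool.Agent.Lib.MP_6ff8d9_an.Four

open Metric Filter Topology MeasureTheory

namespace Pool.Agent.Lib.MP_6ff8d9_an

noncomputable section

open UnitAddTorus

/-- the multiplier `γ·A` -/
def DA {n : ℕ} (A : Fin n → ℝ) (c : (Fin n → ℤ) → ℂ) (γ : Fin n → ℤ) : ℂ :=
  ((∑ j, (γ j : ℝ) * A j : ℝ) : ℂ) * c γ

lemma cx_deriv {n : ℕ} (γ : Fin n → ℤ) (θ A : Fin n → ℝ) (t : ℝ) :
    HasDerivAt (fun t : ℝ => cx γ (θ + t • A)) (Complex.I * ((∑ j, (γ j : ℝ) * A j : ℝ) : ℂ) * cx γ (θ + t • A)) t := by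
  unfold cx
  have h1 : ∀ t : ℝ, (Complex.I * ((∑ j, (γ j : ℝ) * (θ + t • A) j : ℝ) : ℂ))
      = Complex.I * ((∑ j, (γ j : ℝ) * θ j : ℝ) : ℂ) + (t : ℂ) * (Complex.I * ((∑ j, (γ j : ℝ) * A j : ℝ) : ℂ)) := by
    intro t
    have : ∑ j, (γ j : ℝ) * (θ + t • A) j = (∑ j, (γ j : ℝ) * θ j) + t * ∑ j, (γ j : ℝ) * A j := by
      rw [Finset.mul_sum, ← Finset.sum_add_distrib]
      apply Finset.sum_congr rfl
      intro j _
      simp only [Pi.add_apply, Pi.smul_apply, smul_eq_mul]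
      ring
    rw [this]
    push_cast
    ring
  simp only [h1]
  have h2 : HasDerivAt (fun t : ℝ => Complex.I * ((∑ j, (γ j : ℝ) * θ j : ℝ) : ℂ) + (t : ℂ) * (Complex.I * ((∑ j, (γ j : ℝ) * A j : ℝ) : ℂ)))
      (1 * (Complex.I * ((∑ j, (γ j : ℝ) * A j : ℝ) : ℂ))) t :=
    ((Complex.ofRealCLM.hasDerivAt.mul_const _).const_add _)
  have h3 := h2.cexp
  convert h3 using 1
  ring

lemma TS_deriv {n : ℕ} (S : Finset (Fin n → ℤ)) (c : (Fin n → ℤ) → ℂ) (θ A : Fin n → ℝ) (t : ℝ) :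
    HasDerivAt (fun t : ℝ => TS S c (θ + t • A)) (Complex.I * TS S (DA A c) (θ + t • A)) t := by
  unfold TS
  have h : HasDerivAt (fun t : ℝ => ∑ γ ∈ S, c γ * cx γ (θ + t • A))
      (∑ γ ∈ S, c γ * (Complex.I * ((∑ j, (γ j : ℝ) * A j : ℝ) : ℂ) * cx γ (θ + t • A))) t :=
    HasDerivAt.fun_sum fun γ _ => (cx_deriv γ θ A t).const_mul (c γ)
  convert h using 1
  rw [Finset.mul_sum]
  apply Finset.sum_congr rfl
  intro γ _
  unfold DA
  ring

lemma TSre_deriv {n : ℕ} (S : Finset (Fin n → ℤ)) (c : (Fin n → ℤ) → ℂ) (θ A : Fin n → ℝ) (t : ℝ) :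
    HasDerivAt (fun t : ℝ => (TS S c (θ + t • A)).re) (-(TS S (DA A c) (θ + t • A)).im) t := by
  have h := Complex.reCLM.hasFDerivAt.comp_hasDerivAt t (TS_deriv S c θ A t)
  have e : Complex.reCLM (Complex.I * TS S (DA A c) (θ + t • A)) = -(TS S (DA A c) (θ + t • A)).im := by
    rw [Complex.reCLM_apply, Complex.mul_re, Complex.I_re, Complex.I_im]
    ring
  rw [e] at h
  exact h

lemma psi_shift {n : ℕ} (S S' : Finset (Fin n → ℤ)) (c c' : (Fin n → ℤ) → ℂ) (A : Fin n → ℝ) {δ e : ℝ}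
    (hδ : 0 < δ) (hu : ∀ θ, δ ≤ (TS S' c' θ).re)
    (he : ∀ θ, ‖TS S (DA A c) θ - (((TS S c θ).re / (TS S' c' θ).re : ℝ) : ℂ) * TS S' (DA A c') θ‖ ≤ e)
    (θ : Fin n → ℝ) (s : ℝ) :
    |(TS S c (θ + s • A)).re / (TS S' c' (θ + s • A)).re - (TS S c θ).re / (TS S' c' θ).re| ≤ e / δ * |s| := by
  have hd : ∀ t ∈ (Set.univ : Set ℝ), HasDerivWithinAt (fun t : ℝ => (TS S c (θ + t • A)).re / (TS S' c' (θ + t • A)).re)
      ((-(TS S (DA A c) (θ + t • A)).im * (TS S' c' (θ + t • A)).re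
        - (TS S c (θ + t • A)).re * (-(TS S' (DA A c') (θ + t • A)).im)) / (TS S' c' (θ + t • A)).re ^ 2) Set.univ t := by
    intro t _
    apply HasDerivAt.hasDerivWithinAt
    exact (TSre_deriv S c θ A t).fun_div (TSre_deriv S' c' θ A t) (lt_of_lt_of_le hδ (hu _)).ne'
  have hb : ∀ t ∈ (Set.univ : Set ℝ), ‖((-(TS S (DA A c) (θ + t • A)).im * (TS S' c' (θ + t • A)).re
        - (TS S c (θ + t • A)).re * (-(TS S' (DA A c') (θ + t • A)).im)) / (TS S' c' (θ + t • A)).re ^ 2)‖ ≤ e / δ := by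
    intro t _
    have h1 := he (θ + t • A)
    have h2 := hu (θ + t • A)
    have h3 := (Complex.abs_im_le_norm _).trans h1
    rw [Complex.sub_im, Complex.im_ofReal_mul] at h3
    generalize (TS S' c' (θ + t • A)).re = u at *
    generalize (TS S c (θ + t • A)).re = W at *
    generalize (TS S (DA A c) (θ + t • A)).im = a at *
    generalize (TS S' (DA A c') (θ + t • A)).im = b at *
    have hup : 0 < u := lt_of_lt_of_le hδ h2
    have e1 : (-a * u - W * (-b)) / u ^ 2 = -(a - W / u * b) / u := by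
      field_simp
      ring
    rw [e1, Real.norm_eq_abs, abs_div, abs_neg, abs_of_pos hup]
    exact div_le_div₀ ((abs_nonneg _).trans h3) h3 hδ h2
  have := Convex.norm_image_sub_le_of_norm_hasDerivWithin_le hd hb convex_univ (Set.mem_univ 0) (Set.mem_univ s)
  simpa using this

/-- Fourier coefficient of the quotient -/
def hq {n : ℕ} (S S' : Finset (Fin n → ℤ)) (c c' : (Fin n → ℤ) → ℂ) (γ : Fin n → ℤ) : ℂ :=
  ∫ x, (((TX S c x).re / (TX S' c' x).re : ℝ) : ℂ) * mFourier (-γ) x ∂(mu n)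

lemma psi_cont {n : ℕ} (S S' : Finset (Fin n → ℤ)) (c c' : (Fin n → ℤ) → ℂ) {δ : ℝ}
    (hδ : 0 < δ) (hu : ∀ θ, δ ≤ (TS S' c' θ).re) :
    Continuous fun x => (((TX S c x).re / (TX S' c' x).re : ℝ) : ℂ) := by
  apply Complex.continuous_ofReal.comp
  apply Continuous.div (Complex.continuous_re.comp (TX_cont S c)) (Complex.continuous_re.comp (TX_cont S' c'))
  intro x
  obtain ⟨θ, rfl⟩ := prj_surj x
  show (TX S' c' (prj θ)).re ≠ 0
  rw [TX_prj]
  exact (lt_of_lt_of_le hδ (hu θ)).ne'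

/-- F1 -/
lemma hq_small {n : ℕ} (S S' : Finset (Fin n → ℤ)) (c c' : (Fin n → ℤ) → ℂ) {i j : Fin n} {δ e : ℝ}
    (hδ : 0 < δ) (hu : ∀ θ, δ ≤ (TS S' c' θ).re)
    (he : ∀ θ, ‖TS S (DA (tt i j) c) θ - (((TS S c θ).re / (TS S' c' θ).re : ℝ) : ℂ) * TS S' (DA (tt i j) c') θ‖ ≤ e)
    (γ : Fin n → ℤ) (hγ : γ i ≠ γ j) :
    ‖hq S S' c c' γ‖ ≤ e / δ * |Real.pi / ((γ i : ℝ) - γ j)| := by
  have hγ' : ((γ i : ℝ) - γ j) ≠ 0 := by
    rw [sub_ne_zero]; exact_mod_cast hγ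
  set s : ℝ := Real.pi / ((γ i : ℝ) - γ j) with hs
  set a : UnitAddTorus (Fin n) := prj (s • tt i j) with ha
  set ψ : UnitAddTorus (Fin n) → ℂ := fun x => (((TX S c x).re / (TX S' c' x).re : ℝ) : ℂ) with hψ
  have hψc : Continuous ψ := psi_cont S S' c c' hδ hu
  have h1 : mFourier (-γ) a = -1 := by
    rw [ha, mF_prj]
    unfold cx
    have h2 : (∑ l, (((-γ) l : ℤ) : ℝ) * (s • tt i j) l) = -Real.pi := by
      have h3 : ∀ l, (((-γ) l : ℤ) : ℝ) * (s • tt i j) l = (-s) * ((γ l : ℝ) * tt i j l) := by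
        intro l
        simp only [Pi.neg_apply, Pi.smul_apply, smul_eq_mul]
        push_cast
        ring
      rw [Finset.sum_congr rfl (fun l _ => h3 l), ← Finset.mul_sum, tt_dot, hs]
      field_simp
    rw [h2]
    have : Complex.I * ((-Real.pi : ℝ) : ℂ) = -(Real.pi * Complex.I) := by push_cast; ring
    rw [this, Complex.exp_neg, Complex.exp_pi_mul_I]
    norm_num
  have h2 : hq S S' c c' γ = ∫ x, ψ (a + x) * mFourier (-γ) (a + x) ∂(mu n) :=
    (integral_add_left_eq_self (fun x => ψ x * mFourier (-γ) x) a).symm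
  have h3 : hq S S' c c' γ = - ∫ x, ψ (a + x) * mFourier (-γ) x ∂(mu n) := by
    rw [h2, ← integral_neg]
    congr 1
    ext x
    rw [mF_add_x, h1]
    ring
  have h4 : 2 * hq S S' c c' γ = ∫ x, (ψ x - ψ (a + x)) * mFourier (-γ) x ∂(mu n) := by
    have h5 : ∫ x, (ψ x - ψ (a + x)) * mFourier (-γ) x ∂(mu n)
        = (∫ x, ψ x * mFourier (-γ) x ∂(mu n)) - ∫ x, ψ (a + x) * mFourier (-γ) x ∂(mu n) := by
      rw [← integral_sub]
      · congr 1
        ext x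
        ring
      · exact cont_int (by fun_prop)
      · exact cont_int (by fun_prop)
    rw [h5]
    have h6 : hq S S' c c' γ = ∫ x, ψ x * mFourier (-γ) x ∂(mu n) := rfl
    rw [← h6]
    linear_combination h3
  have h5 : ‖∫ x, (ψ x - ψ (a + x)) * mFourier (-γ) x ∂(mu n)‖ ≤ e / δ * |s| := by
    have h6 := norm_integral_le_of_norm_le_const (μ := mu n) (f := fun x => (ψ x - ψ (a + x)) * mFourier (-γ) x)
      (C := e / δ * |s|) (Eventually.of_forall fun x => by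
        obtain ⟨θ, rfl⟩ := prj_surj x
        rw [norm_mul, norm_mF, mul_one, add_comm a, ha, ← prj_add, hψ]
        dsimp only
        rw [TX_prj, TX_prj, TX_prj, TX_prj, ← Complex.ofReal_sub, Complex.norm_real, Real.norm_eq_abs, abs_sub_comm]
        exact psi_shift S S' c c' (tt i j) hδ hu he θ s)
    simpa using h6
  rw [← h4, norm_mul] at h5
  have h7 : ‖(2:ℂ)‖ = 2 := by norm_num
  rw [h7] at h5
  have h8 := norm_nonneg (hq S S' c c' γ)
  linarith

lemma hq_conj {n : ℕ} (S S' : Finset (Fin n → ℤ)) (c c' : (Fin n → ℤ) → ℂ) (γ : Fin n → ℤ) :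
    hq S S' c c' (-γ) = (starRingEnd ℂ) (hq S S' c c' γ) := by
  unfold hq
  rw [← integral_conj]
  congr 1
  ext x
  rw [map_mul, Complex.conj_ofReal, mFourier_neg, mFourier_neg]

/-- F3 -/
lemma hq_diff {n : ℕ} (S S' : Finset (Fin n → ℤ)) (c c' : (Fin n → ℤ) → ℂ) {i j : Fin n} {δ e : ℝ}
    (hδ : 0 < δ) (hu : ∀ θ, δ ≤ (TS S' c' θ).re)
    (he : ∀ θ, ‖TS S (DA (tt i j) c) θ - (((TS S c θ).re / (TS S' c' θ).re : ℝ) : ℂ) * TS S' (DA (tt i j) c') θ‖ ≤ e)
    (κ : Fin n → ℤ) (hκ : κ ∈ S → c κ = 0) :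
    ‖∑ γ ∈ S', DA (tt i j) c' γ * hq S S' c c' (κ - γ)‖ ≤ e := by
  set ψ : UnitAddTorus (Fin n) → ℂ := fun x => (((TX S c x).re / (TX S' c' x).re : ℝ) : ℂ) with hψ
  have hψc : Continuous ψ := psi_cont S S' c c' hδ hu
  have h1 := int_TX S' (DA (tt i j) c') ψ hψc κ
  have h2 := int_TX1 S (DA (tt i j) c) κ
  have h3 : (if κ ∈ S then DA (tt i j) c κ else 0) = 0 := by
    split_ifs with hk
    · unfold DA; rw [hκ hk, mul_zero]
    · rfl
  rw [h3] at h2
  have h4 : ∑ γ ∈ S', DA (tt i j) c' γ * hq S S' c c' (κ - γ)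
      = - ∫ x, (TX S (DA (tt i j) c) x - ψ x * TX S' (DA (tt i j) c') x) * mFourier (-κ) x ∂(mu n) := by
    have h5 : ∫ x, (TX S (DA (tt i j) c) x - ψ x * TX S' (DA (tt i j) c') x) * mFourier (-κ) x ∂(mu n)
        = (∫ x, TX S (DA (tt i j) c) x * mFourier (-κ) x ∂(mu n))
          - ∫ x, ψ x * TX S' (DA (tt i j) c') x * mFourier (-κ) x ∂(mu n) := by
      have c1 := TX_cont S (DA (tt i j) c)
      have c2 := TX_cont S' (DA (tt i j) c')
      rw [← integral_sub]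
      · congr 1
        ext x
        ring
      · exact cont_int (by fun_prop)
      · exact cont_int (by fun_prop)
    rw [h5, h2, h1, zero_sub, neg_neg]
    rfl
  rw [h4, norm_neg]
  have h6 := norm_integral_le_of_norm_le_const (μ := mu n)
    (f := fun x => (TX S (DA (tt i j) c) x - ψ x * TX S' (DA (tt i j) c') x) * mFourier (-κ) x)
      (C := e) (Eventually.of_forall fun x => by
        obtain ⟨θ, rfl⟩ := prj_surj x
        rw [norm_mul, norm_mF, mul_one, hψ]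
        dsimp only
        rw [TX_prj, TX_prj, TX_prj, TX_prj]
        exact he θ)
  simpa using h6

/-- F5: `W = ψ u` -/
lemma hq_prod {n : ℕ} (S S' : Finset (Fin n → ℤ)) (c c' : (Fin n → ℤ) → ℂ) {δ : ℝ}
    (hδ : 0 < δ) (hu : ∀ θ, δ ≤ (TS S' c' θ).re) (κ : Fin n → ℤ) :
    (if κ ∈ S then c κ else 0) + (if -κ ∈ S then (starRingEnd ℂ) (c (-κ)) else 0)
      = ∑ γ ∈ S', (c' γ * hq S S' c c' (κ - γ) + (starRingEnd ℂ) (c' γ) * hq S S' c c' (κ + γ)) := by
  set ψ : UnitAddTorus (Fin n) → ℂ := fun x => (((TX S c x).re / (TX S' c' x).re : ℝ) : ℂ) with hψ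
  have hψc : Continuous ψ := psi_cont S S' c c' hδ hu
  have hconj : ∀ (S : Finset (Fin n → ℤ)) (c : (Fin n → ℤ) → ℂ) x,
      (starRingEnd ℂ) (TX S c x) = ∑ γ ∈ S, (starRingEnd ℂ) (c γ) * mFourier (-γ) x := by
    intro S c x
    unfold TX
    rw [map_sum]
    apply Finset.sum_congr rfl
    intro γ _
    rw [map_mul, mFourier_neg]
  have c1 := TX_cont S c
  have c2 := TX_cont S' c'
  have h0 : ∀ x, (TX S c x + (starRingEnd ℂ) (TX S c x)) = ψ x * (TX S' c' x + (starRingEnd ℂ) (TX S' c' x)) := by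
    intro x
    obtain ⟨θ, rfl⟩ := prj_surj x
    rw [Complex.add_conj, Complex.add_conj, hψ]
    dsimp only
    rw [TX_prj, TX_prj, ← Complex.ofReal_mul]
    congr 1
    have := (lt_of_lt_of_le hδ (hu θ)).ne'
    field_simp
  have hL : ∫ x, (TX S c x + (starRingEnd ℂ) (TX S c x)) * mFourier (-κ) x ∂(mu n)
      = (if κ ∈ S then c κ else 0) + (if -κ ∈ S then (starRingEnd ℂ) (c (-κ)) else 0) := by
    have h1 : ∫ x, (TX S c x + (starRingEnd ℂ) (TX S c x)) * mFourier (-κ) x ∂(mu n)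
        = (∫ x, TX S c x * mFourier (-κ) x ∂(mu n)) + ∫ x, (starRingEnd ℂ) (TX S c x) * mFourier (-κ) x ∂(mu n) := by
      rw [← integral_add]
      · congr 1
        ext x
        ring
      · exact cont_int (by fun_prop)
      · exact cont_int (by fun_prop)
    have h2 : ∫ x, (starRingEnd ℂ) (TX S c x) * mFourier (-κ) x ∂(mu n)
        = (starRingEnd ℂ) (∫ x, TX S c x * mFourier (-(-κ)) x ∂(mu n)) := by
      rw [← integral_conj]
      congr 1
      ext x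
      rw [map_mul, ← mFourier_neg, neg_neg]
    rw [h1, h2, int_TX1, int_TX1]
    congr 1
    split_ifs <;> simp
  have hR : ∫ x, ψ x * (TX S' c' x + (starRingEnd ℂ) (TX S' c' x)) * mFourier (-κ) x ∂(mu n)
      = ∑ γ ∈ S', (c' γ * hq S S' c c' (κ - γ) + (starRingEnd ℂ) (c' γ) * hq S S' c c' (κ + γ)) := by
    have h1 : ∫ x, ψ x * (TX S' c' x + (starRingEnd ℂ) (TX S' c' x)) * mFourier (-κ) x ∂(mu n)
        = (∫ x, ψ x * TX S' c' x * mFourier (-κ) x ∂(mu n)) + ∫ x, ψ x * (starRingEnd ℂ) (TX S' c' x) * mFourier (-κ) x ∂(mu n) := by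
      rw [← integral_add]
      · congr 1
        ext x
        ring
      · exact cont_int (by fun_prop)
      · exact cont_int (by fun_prop)
    rw [h1, int_TX S' c' ψ hψc κ, Finset.sum_add_distrib]
    congr 1
    have h2 : ∀ x, ψ x * (starRingEnd ℂ) (TX S' c' x) * mFourier (-κ) x
        = ∑ γ ∈ S', (starRingEnd ℂ) (c' γ) * (ψ x * mFourier (-(κ + γ)) x) := by
      intro x
      rw [hconj, Finset.mul_sum, Finset.sum_mul]
      apply Finset.sum_congr rfl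
      intro γ _
      have : (-(κ + γ)) = -γ + -κ := by abel
      rw [this, ← mF_mul]
      ring
    simp only [h2]
    rw [integral_finsetSum]
    · apply Finset.sum_congr rfl
      intro γ _
      rw [integral_const_mul]
      rfl
    · intro γ _
      exact cont_int (by fun_prop)
  rw [← hL, ← hR]
  congr 1
  ext x
  rw [h0]

end

end Pool.Agent.Lib.MP_6ff8d9_an
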