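import Pool.Agent.Lib.MP_6ff8d9_an.Four2

open Metric Filter Topology MeasureTheory

namespace Pool.Agent.Lib.MP_6ff8d9_an

noncomputable section

open UnitAddTorus

lemma smD_eq_TS {n : ℕ} (b : (Fin n → ℤ) → ℂ) (M : ℕ) (A θ : Fin n → ℝ) :
    smD b M A θ = TS (box n M) (DA A fun γ => (FM M γ : ℂ) * b γ) θ := by
  unfold smD TS DA
  apply Finset.sum_congr rfl
  intro γ _
  ring

lemma DD_sub_eq {n : ℕ} (p : (Fin n → ℕ) →₀ ℂ) (i j : Fin n) (θ : Fin n → ℝ) :
    DD p i θ - DD p j θ = TS (zs p) (DA (tt i j) (ext (⇑p))) θ := by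
  rw [DD_eq, DD_eq]
  unfold TS DA
  rw [← Finset.sum_sub_distrib]
  apply Finset.sum_congr rfl
  intro γ _
  rw [tt_dot]
  push_cast
  ring

theorem four_lim {n : ℕ} (hn : 2 ≤ n) (p : (Fin n → ℕ) →₀ ℂ) (hp0 : p 0 = 1) {δ : ℝ} (hδ : 0 < δ)
    (hu : ∀ θ, δ ≤ (gT p θ).re) (i : Fin n) (N : ℕ) (hN : 0 < N) (hpN : p (Pi.single i N) ≠ 0)
    (hiso : ∀ l : ℕ, 0 < l → p (Pi.single i N + fun _ => l) = 0) (M : ℕ → ℕ) (hM : Tendsto M atTop atTop)
    (β : ℕ → (Fin n → ℤ) → ℂ) (hβneg : ∀ q γ (i : Fin n), γ i < 0 → β q γ = 0) (hβ0 : ∀ q, β q 0 = 0)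
    (e : ℕ → ℝ) (he : Tendsto e atTop (𝓝 0))
    (hE : ∀ q θ (i j : Fin n), i ≠ j → ‖Er p (β q) (M q) i j θ‖ ≤ e q) (γ₀ : Fin n → ℕ) :
    Tendsto (fun q => β q (cz γ₀)) atTop (𝓝 0) := by
  classical
  set S : ℕ → Finset (Fin n → ℤ) := fun q => box n (M q) with hS
  set c : ℕ → (Fin n → ℤ) → ℂ := fun q γ => (FM (M q) γ : ℂ) * β q γ with hc
  have hcneg : ∀ q γ (i : Fin n), γ i < 0 → c q γ = 0 := by
    intro q γ i h
    rw [hc]
    dsimp only
    rw [hβneg q γ i h, mul_zero]
  have hu' : ∀ θ, δ ≤ (TS (zs p) (ext (⇑p)) θ).re := by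
    intro θ; rw [← gT_eq]; exact hu θ
  have hE' : ∀ q (i j : Fin n), i ≠ j → ∀ θ, ‖TS (S q) (DA (tt i j) (c q)) θ
      - (((TS (S q) (c q) θ).re / (TS (zs p) (ext (⇑p)) θ).re : ℝ) : ℂ) * TS (zs p) (DA (tt i j) (ext (⇑p))) θ‖ ≤ e q := by
    intro q i j hij θ
    have := hE q θ i j hij
    unfold Er at this
    rw [smD_eq_TS, DD_sub_eq, gT_eq] at this
    exact this
  set H : ℕ → (Fin n → ℤ) → ℂ := fun q γ => hq (S q) (zs p) (c q) (ext (⇑p)) γ with hH
  -- F1
  have F1 : ∀ γ : Fin n → ℤ, (∃ i j, γ i ≠ γ j) → Tendsto (fun q => H q γ) atTop (𝓝 0) := by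
    rintro γ ⟨i, j, hγ⟩
    have hij : i ≠ j := fun h => hγ (by rw [h])
    apply squeeze_zero_norm (a := fun q => e q / δ * |Real.pi / ((γ i : ℝ) - γ j)|)
    · intro q
      exact hq_small (S q) (zs p) (c q) (ext (⇑p)) hδ hu' (hE' q i j hij) γ hγ
    · have := (he.div_const δ).mul_const |Real.pi / ((γ i : ℝ) - γ j)|
      simpa using this
  obtain ⟨j, hj⟩ : ∃ j : Fin n, j ≠ i := by
    have : 1 < Fintype.card (Fin n) := by simp; omega
    exact Fintype.exists_ne_of_one_lt_card this i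
  have hext_neg : ∀ (γ : Fin n → ℤ) (i : Fin n), γ i < 0 → ext (⇑p) γ = 0 := fun γ i h => ext_of_neg _ i h
  -- F3
  have F3 : ∀ l : ℕ, 0 < l → Tendsto (fun q => H q (fun _ => -(l:ℤ))) atTop (𝓝 0) := by
    intro l hl
    set gs : Fin n → ℤ := cz (Pi.single i N) with hgs
    set κ : Fin n → ℤ := fun a => gs a - (l:ℤ) with hκ
    have hgsj : gs j = 0 := by simp [hgs, cz, hj]
    have hgsi : gs i = N := by simp [hgs, cz]
    have hκj : κ j < 0 := by
      rw [hκ]; dsimp only; rw [hgsj]; omega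
    have hsum : Tendsto (fun q => ∑ γ ∈ zs p, DA (tt i j) (ext (⇑p)) γ * H q (κ - γ)) atTop (𝓝 0) := by
      apply squeeze_zero_norm (a := e) _ he
      intro q
      exact hq_diff (S q) (zs p) (c q) (ext (⇑p)) hδ hu' (hE' q i j hj.symm) κ (fun _ => hcneg q κ j hκj)
    have hgsmem : gs ∈ zs p := by
      rw [hgs, zs]
      exact Finset.mem_image_of_mem _ (Finsupp.mem_support_iff.2 hpN)
    have hrest : Tendsto (fun q => ∑ γ ∈ (zs p).erase gs, DA (tt i j) (ext (⇑p)) γ * H q (κ - γ)) atTop (𝓝 0) := by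
      have : Tendsto (fun q => ∑ γ ∈ (zs p).erase gs, DA (tt i j) (ext (⇑p)) γ * H q (κ - γ)) atTop
          (𝓝 (∑ γ ∈ (zs p).erase gs, (0:ℂ))) := by
        apply tendsto_finsetSum
        intro γ hγ
        have hγne := (Finset.mem_erase.1 hγ).1
        by_cases hconst : ∃ a b, (κ - γ) a ≠ (κ - γ) b
        · have := (F1 (κ - γ) hconst).const_mul (DA (tt i j) (ext (⇑p)) γ)
          simpa using this
        · push Not at hconst
          have hz : ext (⇑p) γ = 0 := by
            have h1 : ∀ a, γ a = gs a + γ j := by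
              intro a
              have := hconst a j
              simp only [Pi.sub_apply, hκ] at this
              rw [hgsj] at this
              omega
            rcases lt_trichotomy (γ j) 0 with h2 | h2 | h2
            · exact hext_neg γ j h2
            · exfalso
              apply hγne
              ext a
              rw [h1 a, h2, add_zero]
            · have h3 : γ = cz (Pi.single i N + fun _ => (γ j).toNat) := by
                ext a
                rw [h1 a]
                simp only [cz, Pi.add_apply, hgs]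
                push_cast
                rw [Int.toNat_of_nonneg h2.le]
              rw [h3, ext_cast]
              exact hiso _ (by omega)
          have : (fun q => DA (tt i j) (ext (⇑p)) γ * H q (κ - γ)) = fun _ => 0 := by
            ext q
            unfold DA
            rw [hz]; ring
          rw [this]
          exact tendsto_const_nhds
      simpa using this
    have hmain : Tendsto (fun q => DA (tt i j) (ext (⇑p)) gs * H q (κ - gs)) atTop (𝓝 0) := by
      have h1 := hsum.sub hrest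
      rw [sub_zero] at h1
      refine h1.congr ?_
      intro q
      rw [← Finset.add_sum_erase (zs p) _ hgsmem]
      ring
    have hne : DA (tt i j) (ext (⇑p)) gs ≠ 0 := by
      unfold DA
      rw [tt_dot, hgsi, hgsj, hgs, ext_cast]
      apply mul_ne_zero _ hpN
      simp
      omega
    have h2 := hmain.const_mul (DA (tt i j) (ext (⇑p)) gs)⁻¹
    rw [mul_zero] at h2
    refine h2.congr ?_
    intro q
    rw [← mul_assoc, inv_mul_cancel₀ hne, one_mul]
    congr 1
    ext a
    simp only [Pi.sub_apply, hκ]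
    ring
  -- F4
  have F4 : ∀ γ : Fin n → ℤ, γ ≠ 0 → Tendsto (fun q => H q γ) atTop (𝓝 0) := by
    intro γ hγ
    by_cases hconst : ∃ a b, γ a ≠ γ b
    · exact F1 γ hconst
    · push Not at hconst
      have h1 : γ = fun _ => γ i := by ext a; exact hconst a i
      rcases lt_trichotomy (γ i) 0 with h2 | h2 | h2
      · have h3 : γ = fun _ => -(((-(γ i)).toNat : ℕ) : ℤ) := by
          ext a
          have h5 := hconst a i
          rw [Int.toNat_of_nonneg (by omega)]
          omega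
        rw [h3]
        exact F3 _ (by omega)
      · exfalso; apply hγ; rw [h1, h2]; rfl
      · have h3 : γ = -(fun _ : Fin n => -(((γ i).toNat : ℕ) : ℤ)) := by
          ext a
          have h5 := hconst a i
          simp only [Pi.neg_apply, neg_neg]
          rw [Int.toNat_of_nonneg (by omega)]
          exact h5
        rw [h3]
        have h4 := (Complex.continuous_conj.tendsto 0).comp (F3 (γ i).toNat (by omega))
        rw [map_zero] at h4
        refine h4.congr ?_
        intro q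
        simp only [hH, Function.comp]
        rw [hq_conj]
  -- F5
  have hmem0 : (0 : Fin n → ℤ) ∈ zs p := by
    rw [zs, Finset.mem_image]
    exact ⟨0, Finsupp.mem_support_iff.2 (by rw [hp0]; exact one_ne_zero), by ext a; simp [cz]⟩
  have hext0 : ext (⇑p) 0 = 1 := by
    unfold ext
    rw [if_pos (by intro j; simp)]
    exact hp0
  have F5 : Tendsto (fun q => H q 0) atTop (𝓝 0) := by
    have h1 : ∀ q, 2 * H q 0 = - ∑ γ ∈ (zs p).erase 0, (ext (⇑p) γ * H q (0 - γ) + (starRingEnd ℂ) (ext (⇑p) γ) * H q (0 + γ)) := by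
      intro q
      have h2 := hq_prod (S q) (zs p) (c q) (ext (⇑p)) hδ hu' 0
      have h3 : c q 0 = 0 := by rw [hc]; dsimp only; rw [hβ0, mul_zero]
      rw [neg_zero, h3, map_zero, ite_self, add_zero] at h2
      rw [← Finset.add_sum_erase (zs p) _ hmem0, hext0, sub_zero, add_zero, map_one] at h2
      simp only [hH]
      linear_combination -h2
    have h4 : Tendsto (fun q => - ∑ γ ∈ (zs p).erase 0, (ext (⇑p) γ * H q (0 - γ) + (starRingEnd ℂ) (ext (⇑p) γ) * H q (0 + γ)))
        atTop (𝓝 (- ∑ γ ∈ (zs p).erase 0, (ext (⇑p) γ * 0 + (starRingEnd ℂ) (ext (⇑p) γ) * 0))) := by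
      apply Tendsto.neg
      apply tendsto_finsetSum
      intro γ hγ
      have hγne := (Finset.mem_erase.1 hγ).1
      exact ((F4 (0 - γ) (by rw [zero_sub]; exact neg_ne_zero.2 hγne)).const_mul _).add
        ((F4 (0 + γ) (by rw [zero_add]; exact hγne)).const_mul _)
    have h5 : Tendsto (fun q => 2 * H q 0) atTop (𝓝 0) := by
      simp only [h1]
      simpa using h4
    have h6 := h5.const_mul (2:ℂ)⁻¹
    rw [mul_zero] at h6
    refine h6.congr ?_
    intro q
    rw [← mul_assoc, inv_mul_cancel₀ two_ne_zero, one_mul]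
  have Fall : ∀ γ : Fin n → ℤ, Tendsto (fun q => H q γ) atTop (𝓝 0) := by
    intro γ
    by_cases h : γ = 0
    · rw [h]; exact F5
    · exact F4 γ h
  -- F6
  by_cases hγ0 : γ₀ = 0
  · have h1 : cz γ₀ = 0 := by rw [hγ0]; ext a; simp [cz]
    rw [h1]
    simp only [hβ0]
    exact tendsto_const_nhds
  · obtain ⟨a, ha⟩ : ∃ a, γ₀ a ≠ 0 := by
      by_contra hcon
      push Not at hcon
      exact hγ0 (funext hcon)
    set κ := cz γ₀ with hκ
    have hR : Tendsto (fun q => ∑ γ ∈ zs p, (ext (⇑p) γ * H q (κ - γ) + (starRingEnd ℂ) (ext (⇑p) γ) * H q (κ + γ))) atTop (𝓝 0) := by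
      have : Tendsto (fun q => ∑ γ ∈ zs p, (ext (⇑p) γ * H q (κ - γ) + (starRingEnd ℂ) (ext (⇑p) γ) * H q (κ + γ))) atTop
          (𝓝 (∑ γ ∈ zs p, (ext (⇑p) γ * 0 + (starRingEnd ℂ) (ext (⇑p) γ) * 0))) := by
        apply tendsto_finsetSum
        intro γ _
        exact ((Fall _).const_mul _).add ((Fall _).const_mul _)
      simpa using this
    have hneg : ∀ q, c q (-κ) = 0 := by
      intro q
      apply hcneg q (-κ) a
      simp only [Pi.neg_apply, hκ, cz]
      omega
    have hmemev : ∀ᶠ q in atTop, κ ∈ S q := by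
      obtain ⟨D, hD⟩ : ∃ D : ℕ, ∀ j, |κ j| < (D:ℤ) := by
        refine ⟨(∑ j, (|κ j|).toNat) + 1, fun j => ?_⟩
        have h1 : |κ j| = ((|κ j|).toNat : ℤ) := (Int.toNat_of_nonneg (abs_nonneg _)).symm
        rw [h1]
        have := Finset.single_le_sum (f := fun j => (|κ j|).toNat) (fun _ _ => Nat.zero_le _) (Finset.mem_univ j)
        push_cast
        have h3 : (((|κ j|).toNat : ℕ) : ℤ) ≤ ((∑ j, (|κ j|).toNat : ℕ) : ℤ) := by exact_mod_cast this
        push_cast at h3
        omega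
      filter_upwards [hM.eventually_ge_atTop D] with q hq
      rw [hS]
      dsimp only
      rw [mem_box]
      intro j
      have := hD j
      rw [abs_lt] at this
      have h2 : (D:ℤ) ≤ (M q : ℤ) := by exact_mod_cast hq
      omega
    have hL : ∀ᶠ q in atTop, ∑ γ ∈ zs p, (ext (⇑p) γ * H q (κ - γ) + (starRingEnd ℂ) (ext (⇑p) γ) * H q (κ + γ))
        = (FM (M q) κ : ℂ) * β q κ := by
      filter_upwards [hmemev] with q hq
      have h2 := hq_prod (S q) (zs p) (c q) (ext (⇑p)) hδ hu' κ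
      rw [hneg q, map_zero, ite_self, add_zero, if_pos hq] at h2
      exact h2.symm
    have hprod : Tendsto (fun q => (FM (M q) κ : ℂ) * β q κ) atTop (𝓝 0) := hR.congr' hL
    have hFM : Tendsto (fun q => (FM (M q) κ : ℂ)) atTop (𝓝 ((1:ℝ):ℂ)) :=
      (Complex.continuous_ofReal.tendsto 1).comp ((FM_tendsto κ).comp hM)
    have hinv : Tendsto (fun q => ((FM (M q) κ : ℂ))⁻¹) atTop (𝓝 (((1:ℝ):ℂ)⁻¹)) :=
      hFM.inv₀ (by norm_num)
    have h3 := hinv.mul hprod
    rw [mul_zero] at h3
    refine h3.congr' ?_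
    filter_upwards [hFM.eventually_ne (by norm_num : ((1:ℝ):ℂ) ≠ 0)] with q hq
    rw [← mul_assoc, inv_mul_cancel₀ hq, one_mul]

end

end Pool.Agent.Lib.MP_6ff8d9_an
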