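import Pool.Agent.Lib.MP_6ff8d9_an.Base

open Metric Filter Topology MvPolynomial

namespace Pool.Agent.Lib.MP_6ff8d9_an.Hom

noncomputable section

/-- unit sphere -/
def Sph (n : ℕ) : Set (Fin n → ℂ) := {z | ∑ i, ‖z i‖ ^ 2 = 1}

/-- condition (ii): no nonzero polynomial is dominated by `1 - |H|²` on the sphere -/
def NoDom {n : ℕ} (H : MvPolynomial (Fin n) ℂ) : Prop :=
  ∀ p : MvPolynomial (Fin n) ℂ, (∀ z ∈ Sph n, ‖eval z p‖ ≤ 1 - ‖eval z H‖ ^ 2) → p = 0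

/-- condition (i): `H` is not a proper power -/
def NotPower {n : ℕ} (H : MvPolynomial (Fin n) ℂ) : Prop :=
  ¬ ∃ k : ℕ, 2 ≤ k ∧ ∃ P : MvPolynomial (Fin n) ℂ, H = P ^ k

/-- the Cayley transform -/
def gH {n : ℕ} (H : MvPolynomial (Fin n) ℂ) (z : Cn n) : ℂ :=
  (1 + eval (fun i => z i) H) / (1 - eval (fun i => z i) H)

/-- coefficients of `(1 + hλ^d)/(1 - hλ^d)` -/
def gc (d : ℕ) (h : ℂ) (j : ℕ) : ℂ := if j = 0 then 1 else if d ∣ j then 2 * h ^ (j / d) else 0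

end

end Pool.Agent.Lib.MP_6ff8d9_an.Hom
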