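import Pool.Agent.Lib.MP_6ff8d9_an.Fejer

open Metric Filter Topology

namespace Pool.Agent.Lib.MP_6ff8d9_an

noncomputable section

/-! ### the kernel on the torus -/

/-- product weights -/
def FM {n : ℕ} (M : ℕ) (γ : Fin n → ℤ) : ℝ := ∏ j, fM M (γ j)

lemma FM_zero {n : ℕ} (M : ℕ) : FM M (0 : Fin n → ℤ) = 1 := by simp [FM, fM_zero]

lemma FM_neg {n : ℕ} (M : ℕ) (γ : Fin n → ℤ) : FM M (-γ) = FM M γ := by simp [FM, fM_neg]

lemma FM_nonneg {n : ℕ} (M : ℕ) (γ : Fin n → ℤ) : 0 ≤ FM M γ :=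
  Finset.prod_nonneg fun _ _ => fM_nonneg _ _

lemma FM_le_one {n : ℕ} (M : ℕ) (γ : Fin n → ℤ) : FM M γ ≤ 1 :=
  Finset.prod_le_one (fun _ _ => fM_nonneg _ _) fun _ _ => fM_le_one _ _

lemma FM_tendsto {n : ℕ} (γ : Fin n → ℤ) : Tendsto (fun M : ℕ => FM M γ) atTop (𝓝 1) := by
  have : Tendsto (fun M : ℕ => ∏ j, fM M (γ j)) atTop (𝓝 (∏ _j : Fin n, (1:ℝ))) :=
    tendsto_finsetProd _ fun j _ => fM_tendsto (γ j)
  simpa [FM] using this

/-- the box `|γ_j| < M` -/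
def box (n M : ℕ) : Finset (Fin n → ℤ) := Fintype.piFinset fun _ => Finset.Ioo (-(M:ℤ)) M

lemma mem_box {n M : ℕ} {γ : Fin n → ℤ} : γ ∈ box n M ↔ ∀ j, -(M:ℤ) < γ j ∧ γ j < M := by
  simp [box, Fintype.mem_piFinset]

lemma neg_mem_box {n M : ℕ} {γ : Fin n → ℤ} : -γ ∈ box n M ↔ γ ∈ box n M := by
  simp only [mem_box, Pi.neg_apply]
  constructor <;> intro h j <;> have := h j <;> omega

lemma FM_eq_zero {n M : ℕ} (hM : 1 ≤ M) {γ : Fin n → ℤ} (h : γ ∉ box n M) : FM M γ = 0 := by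
  rw [mem_box] at h
  push Not at h
  obtain ⟨j, hj⟩ := h
  apply Finset.prod_eq_zero (Finset.mem_univ j)
  apply fM_eq_zero hM
  rcases abs_cases (γ j) with ⟨h1, _⟩ | ⟨h1, _⟩
  · rw [h1]; apply hj; omega
  · rw [h1]; by_contra h2; have := hj (by omega); omega

lemma sum_box_neg {n M : ℕ} (g : (Fin n → ℤ) → ℂ) : ∑ γ ∈ box n M, g (-γ) = ∑ γ ∈ box n M, g γ := by
  refine Finset.sum_nbij' (fun γ => -γ) (fun γ => -γ) ?_ ?_ ?_ ?_ ?_
  · intro γ h; exact neg_mem_box.2 h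
  · intro γ h; exact neg_mem_box.2 h
  · intro γ _; simp
  · intro γ _; simp
  · intro γ _; rfl

/-- character `e^{iγ·θ}` -/
def cx {n : ℕ} (γ : Fin n → ℤ) (θ : Fin n → ℝ) : ℂ :=
  Complex.exp (Complex.I * ((∑ j, (γ j : ℝ) * θ j : ℝ) : ℂ))

lemma cx_neg {n : ℕ} (γ : Fin n → ℤ) (θ : Fin n → ℝ) : cx (-γ) θ = (starRingEnd ℂ) (cx γ θ) := by
  simp only [cx, ← Complex.exp_conj, map_mul, Complex.conj_I, Complex.conj_ofReal]
  congr 1
  simp

/-- the Fejér kernel on the torus centred at `θ₁` -/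
def RK {n : ℕ} (M : ℕ) (θ₁ : Fin n → ℝ) : (Fin n → ℤ) →₀ ℂ :=
  Finsupp.onFinset (box n M) (fun γ => if γ ∈ box n M then (FM M γ : ℂ) * cx (-γ) θ₁ else 0)
    (by intro k hk; by_contra h; simp only [h, if_false] at hk; exact hk rfl)

lemma RK_sum {n M : ℕ} (θ₁ : Fin n → ℝ) (g : (Fin n → ℤ) → ℂ → ℂ) (hg : ∀ k, g k 0 = 0) :
    (RK M θ₁).sum g = ∑ γ ∈ box n M, g γ ((FM M γ : ℂ) * cx (-γ) θ₁) := by
  unfold RK
  rw [Finsupp.onFinset_sum _ (fun k => hg k)]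
  apply Finset.sum_congr rfl
  intro k hk
  rw [if_pos hk]

lemma RK_ev {n M : ℕ} (θ₁ θ : Fin n → ℝ) :
    evT (RK M θ₁) θ = ∏ j, evC (Fe M (θ₁ j)) (θ j) := by
  unfold evT
  rw [RK_sum _ _ (by intro k; simp)]
  have h1 : ∀ j, evC (Fe M (θ₁ j)) (θ j) = ∑ k ∈ Finset.Ioo (-(M:ℤ)) M,
      (fM M k : ℂ) * Complex.exp (Complex.I * ((-(k:ℝ) * θ₁ j : ℝ) : ℂ))
        * Complex.exp (Complex.I * (((k:ℝ) * θ j : ℝ) : ℂ)) := by
    intro j
    unfold evC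
    rw [Fe_sum _ _ (by intro k; simp)]
  simp only [h1]
  rw [Finset.prod_univ_sum]
  apply Finset.sum_congr rfl
  intro γ _
  rw [Finset.prod_mul_distrib, Finset.prod_mul_distrib]
  congr 1
  · congr 1
    · rw [FM]; push_cast; rfl
    · rw [cx, ← Complex.exp_sum, ← Finset.mul_sum]
      push_cast
      simp
  · rw [← Complex.exp_sum, ← Finset.mul_sum]
    push_cast
    rfl

lemma Fe_nonneg {M : ℕ} (hM : 1 ≤ M) (x₁ x : ℝ) :
    0 ≤ (evC (Fe M x₁) x).re ∧ (evC (Fe M x₁) x).im = 0 := by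
  rw [Fe_ev hM]
  exact ⟨by rw [Complex.ofReal_re]; positivity, Complex.ofReal_im _⟩

lemma RK_nonneg {n M : ℕ} (hM : 1 ≤ M) (θ₁ θ : Fin n → ℝ) :
    0 ≤ (evT (RK M θ₁) θ).re ∧ (evT (RK M θ₁) θ).im = 0 := by
  rw [RK_ev]
  have h : ∀ s : Finset (Fin n), ∃ r : ℝ, 0 ≤ r ∧ ∏ j ∈ s, evC (Fe M (θ₁ j)) (θ j) = (r:ℂ) := by
    intro s
    induction s using Finset.induction_on with
    | empty => exact ⟨1, zero_le_one, by simp⟩
    | insert i s hi ih =>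
      obtain ⟨r, hr, hr'⟩ := ih
      rw [Finset.prod_insert hi, hr', Fe_ev hM, ← Complex.ofReal_mul]
      exact ⟨_, mul_nonneg (by positivity) hr, rfl⟩
  obtain ⟨r, hr, hr'⟩ := h Finset.univ
  rw [hr']
  exact ⟨by rwa [Complex.ofReal_re], Complex.ofReal_im _⟩

/-! ### the kernel in the phase -/

/-- the weight `(1 - cos φ) J(φ - φ₁)` -/
def PK (L : ℕ) (φ₁ : ℝ) : ℤ →₀ ℂ :=
  Fe L φ₁ - (1/2 : ℂ) • (Fe L φ₁).mapDomain (· + 1) - (1/2 : ℂ) • (Fe L φ₁).mapDomain (· - 1)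

lemma PK_apply (L : ℕ) (φ₁ : ℝ) (k : ℤ) :
    PK L φ₁ k = Fe L φ₁ k - (1/2) * Fe L φ₁ (k - 1) - (1/2) * Fe L φ₁ (k + 1) := by
  have h1 : (Fe L φ₁).mapDomain (· + 1) k = Fe L φ₁ (k - 1) := by
    have := Finsupp.mapDomain_apply (f := fun x : ℤ => x + 1) (add_left_injective 1) (Fe L φ₁) (k - 1)
    simpa using this
  have h2 : (Fe L φ₁).mapDomain (· - 1) k = Fe L φ₁ (k + 1) := by
    have := Finsupp.mapDomain_apply (f := fun x : ℤ => x - 1) (sub_left_injective (b := 1)) (Fe L φ₁) (k + 1)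
    simpa using this
  simp only [PK, Finsupp.sub_apply, Finsupp.smul_apply, h1, h2, smul_eq_mul]

lemma evC_eq (P : ℤ →₀ ℂ) (φ : ℝ) :
    evC P φ = Finsupp.linearCombination ℂ (fun k : ℤ => Complex.exp (Complex.I * (((k:ℝ) * φ : ℝ) : ℂ))) P := by
  simp only [evC, Finsupp.linearCombination_apply, smul_eq_mul]

lemma PK_lc (L : ℕ) (φ₁ : ℝ) (v : ℤ → ℂ) :
    Finsupp.linearCombination ℂ v (PK L φ₁) =
      Finsupp.linearCombination ℂ (fun k => v k - (1/2) * v (k + 1) - (1/2) * v (k - 1)) (Fe L φ₁) := by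
  simp only [PK, map_sub, map_smul, Finsupp.linearCombination_mapDomain, smul_eq_mul]
  simp only [Finsupp.linearCombination_apply, Finsupp.sum, smul_eq_mul, Finset.mul_sum,
    ← Finset.sum_sub_distrib]
  apply Finset.sum_congr rfl
  intro k _
  simp only [Function.comp]
  ring

lemma PK_ev (L : ℕ) (φ₁ φ : ℝ) : evC (PK L φ₁) φ = (1 - Real.cos φ : ℝ) * evC (Fe L φ₁) φ := by
  rw [evC_eq, PK_lc, evC_eq]
  simp only [Finsupp.linearCombination_apply, Finsupp.sum, smul_eq_mul, Finset.mul_sum]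
  apply Finset.sum_congr rfl
  intro k _
  have h1 : Complex.exp (Complex.I * ((((k+1:ℤ):ℝ) * φ : ℝ) : ℂ)) =
      Complex.exp (Complex.I * (((k:ℝ) * φ : ℝ) : ℂ)) * Complex.exp ((φ:ℂ) * Complex.I) := by
    rw [← Complex.exp_add]; congr 1; push_cast; ring
  have h2 : Complex.exp (Complex.I * ((((k-1:ℤ):ℝ) * φ : ℝ) : ℂ)) =
      Complex.exp (Complex.I * (((k:ℝ) * φ : ℝ) : ℂ)) * Complex.exp (-(φ:ℂ) * Complex.I) := by
    rw [← Complex.exp_add]; congr 1; push_cast; ring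
  rw [h1, h2]
  push_cast
  rw [Complex.cos]
  ring

lemma PK_nonneg {L : ℕ} (hL : 1 ≤ L) (φ₁ φ : ℝ) :
    0 ≤ (evC (PK L φ₁) φ).re ∧ (evC (PK L φ₁) φ).im = 0 := by
  rw [PK_ev, Fe_ev hL, ← Complex.ofReal_mul]
  refine ⟨?_, Complex.ofReal_im _⟩
  rw [Complex.ofReal_re]
  have := Real.cos_le_one φ
  exact mul_nonneg (by linarith) (by positivity)

lemma PK_zero {L : ℕ} (hL : 1 ≤ L) (φ₁ : ℝ) : PK L φ₁ 0 = ((1 - fM L 1 * Real.cos φ₁ : ℝ) : ℂ) := by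
  rw [PK_apply, Fe_apply hL, Fe_apply hL, Fe_apply hL, fM_zero]
  have e1 : fM L ((0:ℤ) - 1) = fM L 1 := by rw [zero_sub, fM_neg]
  rw [e1, zero_add]
  push_cast
  rw [Complex.cos]
  have h1 : Complex.exp (Complex.I * (-0 * φ₁)) = 1 := by simp
  have h2 : Complex.exp (Complex.I * (- -1 * φ₁)) = Complex.exp (φ₁ * Complex.I) := by
    congr 1; ring
  have h3 : Complex.exp (Complex.I * (-1 * φ₁)) = Complex.exp (-φ₁ * Complex.I) := by
    congr 1; ring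
  rw [h1, h2, h3]
  ring

lemma PK_neg_one {L : ℕ} (hL : 1 ≤ L) (φ₁ : ℝ) : PK L φ₁ (-1) =
    (fM L 1 : ℂ) * Complex.exp (φ₁ * Complex.I) - (1/2) * ((fM L 2 : ℂ) * Complex.exp (2 * φ₁ * Complex.I)) - 1/2 := by
  rw [PK_apply, Fe_apply hL, Fe_apply hL, Fe_apply hL]
  have e1 : fM L (-1) = fM L 1 := fM_neg _ _
  have e2 : fM L (-1 - 1) = fM L 2 := by rw [show (-1 - 1 : ℤ) = -2 by norm_num, fM_neg]
  have e3 : fM L (-1 + 1) = 1 := by rw [show (-1 + 1 : ℤ) = 0 by norm_num, fM_zero]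
  rw [e1, e2, e3]
  push_cast
  have h2 : Complex.exp (Complex.I * (- -1 * φ₁)) = Complex.exp (φ₁ * Complex.I) := by
    congr 1; ring
  have h3 : Complex.exp (Complex.I * (- -2 * φ₁)) = Complex.exp (2 * φ₁ * Complex.I) := by
    congr 1; ring
  have h4 : Complex.exp (Complex.I * (-0 * φ₁)) = 1 := by simp
  rw [h2, h3, h4]
  ring

lemma lc_ind2 (F : ℤ →₀ ℂ) (a b : ℤ) (x y : ℂ) :
    Finsupp.linearCombination ℂ (fun k : ℤ => x * (if k = a then 1 else 0) + y * (if k = b then 1 else 0)) F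
      = x * F a + y * F b := by
  have h1 : ∀ (c : ℤ) (z : ℂ), Finsupp.linearCombination ℂ (fun k : ℤ => z * (if k = c then (1:ℂ) else 0)) F = z * F c := by
    intro c z
    rw [Finsupp.linearCombination_apply, Finsupp.sum]
    simp only [smul_eq_mul, mul_ite, mul_one, mul_zero]
    rw [Finset.sum_ite_eq' F.support c]
    split_ifs with h
    · ring
    · rw [Finsupp.notMem_support_iff.1 h]; simp
  rw [← h1 a x, ← h1 b y]
  simp only [Finsupp.linearCombination_apply, Finsupp.sum, ← Finset.sum_add_distrib, smul_eq_mul, mul_add]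

/-- sum over the negative frequencies -/
lemma PK_sumneg {L : ℕ} (hL : 1 ≤ L) (φ₁ : ℝ) :
    Finsupp.linearCombination ℂ (fun k : ℤ => if k < 0 then (1:ℂ) else 0) (PK L φ₁) =
      ((fM L 1 : ℂ) * Complex.exp (φ₁ * Complex.I) - 1) / 2 := by
  rw [PK_lc]
  have h : (fun k : ℤ => (if k < 0 then (1:ℂ) else 0) - (1/2) * (if k + 1 < 0 then 1 else 0)
      - (1/2) * (if k - 1 < 0 then 1 else 0)) = fun k => (1/2) * (if k = -1 then 1 else 0)
        + (-(1/2)) * (if k = 0 then 1 else 0) := by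
    ext k
    rcases lt_trichotomy k (-1) with hk | hk | hk
    · rw [if_pos (by omega), if_pos (by omega), if_pos (by omega), if_neg (by omega), if_neg (by omega)]; ring
    · subst hk; norm_num
    · rcases eq_or_lt_of_le (show 0 ≤ k by omega) with h0 | h0
      · subst h0; norm_num
      · rw [if_neg (by omega), if_neg (by omega), if_neg (by omega), if_neg (by omega), if_neg (by omega)]; ring
  rw [h, lc_ind2, Fe_apply hL, Fe_apply hL, fM_zero, fM_neg]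
  push_cast
  have h2 : Complex.exp (Complex.I * (- -1 * φ₁)) = Complex.exp (φ₁ * Complex.I) := by
    congr 1; ring
  have h4 : Complex.exp (Complex.I * (-0 * φ₁)) = 1 := by simp
  rw [h2, h4]
  ring

/-- first moment of the negative frequencies -/
lemma PK_sumneg1 {L : ℕ} (hL : 1 ≤ L) (φ₁ : ℝ) :
    Finsupp.linearCombination ℂ (fun k : ℤ => if k < 0 then (k:ℂ) else 0) (PK L φ₁) = 1 / 2 := by
  rw [PK_lc]
  have h : (fun k : ℤ => (if k < 0 then (k:ℂ) else 0) - (1/2) * (if k + 1 < 0 then ((k+1 : ℤ):ℂ) else 0)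
      - (1/2) * (if k - 1 < 0 then ((k-1:ℤ):ℂ) else 0)) = fun k => 0 * (if k = -1 then 1 else 0)
        + (1/2) * (if k = 0 then 1 else 0) := by
    ext k
    rcases lt_trichotomy k (-1) with hk | hk | hk
    · rw [if_pos (by omega), if_pos (by omega), if_pos (by omega), if_neg (by omega), if_neg (by omega)]
      push_cast; ring
    · subst hk; norm_num
    · rcases eq_or_lt_of_le (show 0 ≤ k by omega) with h0 | h0
      · subst h0; norm_num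
      · rw [if_neg (by omega), if_neg (by omega), if_neg (by omega), if_neg (by omega), if_neg (by omega)]; ring
  rw [h, lc_ind2, Fe_apply hL, Fe_apply hL, fM_zero]
  have h4 : Complex.exp (Complex.I * (((-((0:ℤ):ℝ) * φ₁ : ℝ)) : ℂ)) = 1 := by simp
  rw [h4, Complex.ofReal_one]
  ring

/-! ### evaluation of `EE` -/

/-- smoothed value -/
def sm {n : ℕ} (b : (Fin n → ℤ) → ℂ) (M : ℕ) (θ : Fin n → ℝ) : ℂ :=
  ∑ γ ∈ box n M, (FM M γ : ℂ) * b γ * cx γ θ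

/-- smoothed derivative in direction `A` -/
def smD {n : ℕ} (b : (Fin n → ℤ) → ℂ) (M : ℕ) (A : Fin n → ℝ) (θ : Fin n → ℝ) : ℂ :=
  ∑ γ ∈ box n M, (FM M γ : ℂ) * ((∑ j, (γ j : ℝ) * A j : ℝ) : ℂ) * b γ * cx γ θ

lemma sm_add {n : ℕ} (b c : (Fin n → ℤ) → ℂ) (M : ℕ) (θ : Fin n → ℝ) :
    sm (b + c) M θ = sm b M θ + sm c M θ := by
  simp only [sm, Pi.add_apply, mul_add, add_mul, Finset.sum_add_distrib]

lemma sm_sub {n : ℕ} (b c : (Fin n → ℤ) → ℂ) (M : ℕ) (θ : Fin n → ℝ) :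
    sm (b - c) M θ = sm b M θ - sm c M θ := by
  simp only [sm, Pi.sub_apply, mul_sub, sub_mul, Finset.sum_sub_distrib]

lemma smD_add {n : ℕ} (b c : (Fin n → ℤ) → ℂ) (M : ℕ) (A θ : Fin n → ℝ) :
    smD (b + c) M A θ = smD b M A θ + smD c M A θ := by
  simp only [smD, Pi.add_apply, mul_add, add_mul, Finset.sum_add_distrib]

lemma smD_sub {n : ℕ} (b c : (Fin n → ℤ) → ℂ) (M : ℕ) (A θ : Fin n → ℝ) :
    smD (b - c) M A θ = smD b M A θ - smD c M A θ := by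
  simp only [smD, Pi.sub_apply, mul_sub, sub_mul, Finset.sum_sub_distrib]

lemma EE_eq {n : ℕ} (b : (Fin n → ℤ) → ℂ) (R : (Fin n → ℤ) →₀ ℂ) (P : ℤ →₀ ℂ) (A : Fin n → ℝ) :
    EE b R P A = (R.sum fun γ r => r * (P 0 * b (-γ) * ((-∑ j, (γ j : ℝ) * A j : ℝ) : ℂ)
      + (b (-γ) + (starRingEnd ℂ) (b γ)) *
        (Finsupp.linearCombination ℂ (fun k : ℤ => if k < 0 then (1:ℂ) else 0) P * ((-∑ j, (γ j : ℝ) * A j : ℝ) : ℂ)
        + Finsupp.linearCombination ℂ (fun k : ℤ => if k < 0 then (k:ℂ) else 0) P * ((∑ j, A j ^ 2 : ℝ) : ℂ)))).re := by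
  unfold EE
  congr 2
  ext γ r
  congr 2
  simp only [Finsupp.linearCombination_apply, Finsupp.sum, smul_eq_mul]
  rw [Finset.sum_mul, Finset.sum_mul, ← Finset.sum_add_distrib, Finset.mul_sum]
  apply Finset.sum_congr rfl
  intro k _
  split_ifs
  · push_cast; ring
  · ring

lemma EE_kernel {n : ℕ} (b : (Fin n → ℤ) → ℂ) (M : ℕ) {L : ℕ} (hL : 1 ≤ L) (θ₁ : Fin n → ℝ) (φ₁ : ℝ)
    (A : Fin n → ℝ) :
    EE b (RK M θ₁) (PK L φ₁) A = (1 - fM L 1 * Real.cos φ₁) * (smD b M A θ₁).re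
      - fM L 1 * Real.sin φ₁ * (smD b M A θ₁).im + (∑ j, A j ^ 2) * (sm b M θ₁).re := by
  rw [EE_eq, PK_zero hL, PK_sumneg hL, PK_sumneg1 hL]
  rw [RK_sum _ _ (by intro k; simp)]
  set S : ℂ := ((fM L 1 : ℂ) * Complex.exp (φ₁ * Complex.I) - 1) / 2 with hS
  set c₀ : ℝ := 1 - fM L 1 * Real.cos φ₁ with hc0
  set a2 : ℝ := ∑ j, A j ^ 2 with ha2
  have e1 : ∑ γ ∈ box n M, (FM M γ : ℂ) * cx (-γ) θ₁ * ((c₀:ℂ) * b (-γ) * ((-∑ j, (γ j : ℝ) * A j : ℝ) : ℂ)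
      + (b (-γ) + (starRingEnd ℂ) (b γ)) * (S * ((-∑ j, (γ j : ℝ) * A j : ℝ) : ℂ) + 1/2 * (a2 : ℂ)))
      = ((c₀:ℂ) + S) * smD b M A θ₁ - S * (starRingEnd ℂ) (smD b M A θ₁)
        + (a2 : ℂ) / 2 * (sm b M θ₁ + (starRingEnd ℂ) (sm b M θ₁)) := by
    have h1 : smD b M A θ₁ = ∑ γ ∈ box n M, (FM M γ : ℂ) * cx (-γ) θ₁ * b (-γ) * ((-∑ j, (γ j : ℝ) * A j : ℝ) : ℂ) := by
      rw [smD, ← sum_box_neg]
      apply Finset.sum_congr rfl
      intro γ _
      rw [FM_neg]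
      have : (∑ j, (((-γ) j : ℤ) : ℝ) * A j : ℝ) = -∑ j, (γ j : ℝ) * A j := by
        rw [← Finset.sum_neg_distrib]
        apply Finset.sum_congr rfl
        intro j _
        rw [Pi.neg_apply]; push_cast; ring
      rw [this]
      ring
    have h2 : (starRingEnd ℂ) (smD b M A θ₁) = ∑ γ ∈ box n M, (FM M γ : ℂ) * cx (-γ) θ₁ * (starRingEnd ℂ) (b γ) *
        ((∑ j, (γ j : ℝ) * A j : ℝ) : ℂ) := by
      rw [smD, map_sum]
      apply Finset.sum_congr rfl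
      intro γ _
      rw [map_mul, map_mul, map_mul, Complex.conj_ofReal, Complex.conj_ofReal, cx_neg]
      ring
    have h3 : sm b M θ₁ = ∑ γ ∈ box n M, (FM M γ : ℂ) * cx (-γ) θ₁ * b (-γ) := by
      rw [sm, ← sum_box_neg]
      apply Finset.sum_congr rfl
      intro γ _
      rw [FM_neg]
      ring
    have h4 : (starRingEnd ℂ) (sm b M θ₁) = ∑ γ ∈ box n M, (FM M γ : ℂ) * cx (-γ) θ₁ * (starRingEnd ℂ) (b γ) := by
      rw [sm, map_sum]
      apply Finset.sum_congr rfl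
      intro γ _
      rw [map_mul, map_mul, Complex.conj_ofReal, cx_neg]
      ring
    rw [h2, h4, h1, h3, ← Finset.sum_add_distrib, Finset.mul_sum, Finset.mul_sum, Finset.mul_sum,
      ← Finset.sum_sub_distrib, ← Finset.sum_add_distrib]
    apply Finset.sum_congr rfl
    intro γ _
    push_cast
    ring
  rw [e1]
  have hSim : S.im = fM L 1 * Real.sin φ₁ / 2 := by
    rw [hS]
    rw [show ((fM L 1 : ℂ) * Complex.exp (φ₁ * Complex.I) - 1) / 2 = ((1/2 : ℝ) : ℂ) * ((fM L 1 : ℂ) * Complex.exp (φ₁ * Complex.I) - 1) by push_cast; ring]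
    rw [Complex.im_ofReal_mul, Complex.sub_im, Complex.im_ofReal_mul, Complex.exp_ofReal_mul_I_im, Complex.one_im]
    ring
  have hre : (((c₀:ℂ) + S) * smD b M A θ₁ - S * (starRingEnd ℂ) (smD b M A θ₁)
        + (a2 : ℂ) / 2 * (sm b M θ₁ + (starRingEnd ℂ) (sm b M θ₁))).re
      = c₀ * (smD b M A θ₁).re - 2 * S.im * (smD b M A θ₁).im + a2 * (sm b M θ₁).re := by
    simp only [Complex.add_re, Complex.sub_re, Complex.mul_re, Complex.conj_re, Complex.conj_im,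
      Complex.add_im, Complex.ofReal_re, Complex.ofReal_im, Complex.div_ofNat_re, Complex.div_ofNat_im]
    ring
  rw [hre, hSim]
  ring

end

end Pool.Agent.Lib.MP_6ff8d9_an
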