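import Pool.Agent.Lib.MP_6ff8d9_an.Base2
import Pool.Agent.Lib.MP_6ff8d9_an_h19.SeriesA

open Metric Filter Topology

namespace Pool.Agent.Lib.MP_6ff8d9_an

noncomputable section

/-- torus characters -/
def ch {n : ℕ} (γ : Fin n → ℤ) (θ : Fin n → ℝ) : ℂ :=
  Complex.exp (Complex.I * ((∑ j, (γ j : ℝ) * θ j : ℝ) : ℂ))

lemma evT_eq {n : ℕ} (F : (Fin n → ℤ) →₀ ℂ) (θ : Fin n → ℝ) :
    evT F θ = Finsupp.linearCombination ℂ (fun γ => ch γ θ) F := by
  simp only [evT, Finsupp.linearCombination_apply, ch, smul_eq_mul]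

lemma ch_zero {n : ℕ} (θ : Fin n → ℝ) : ch (0 : Fin n → ℤ) θ = 1 := by simp [ch]

lemma ch_add {n : ℕ} (γ δ : Fin n → ℤ) (θ : Fin n → ℝ) : ch (γ + δ) θ = ch γ θ * ch δ θ := by
  simp only [ch, ← Complex.exp_add]
  congr 1
  simp only [Pi.add_apply, Int.cast_add, add_mul, Finset.sum_add_distrib]
  push_cast
  ring

lemma ch_neg {n : ℕ} (γ : Fin n → ℤ) (θ : Fin n → ℝ) : ch (-γ) θ = (starRingEnd ℂ) (ch γ θ) := by
  simp only [ch, ← Complex.exp_conj, map_mul, Complex.conj_I, Complex.conj_ofReal]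
  congr 1
  simp

lemma ch_const {n : ℕ} (l : ℤ) (θ : Fin n → ℝ) :
    ch (fun _ => l) θ = Complex.exp (Complex.I * (((l : ℝ) * ∑ j, θ j : ℝ) : ℂ)) := by
  simp only [ch, Finset.mul_sum]

/-- linear functional: `W ↦ ∑ W_γ a(-γ) w_γ` -/
def LL {n : ℕ} (a : (Fin n → ℕ) → ℂ) (w : (Fin n → ℤ) → ℂ) (W : (Fin n → ℤ) →₀ ℂ) : ℂ :=
  Finsupp.linearCombination ℂ (fun γ => ext a (-γ) * w γ) W

lemma LL_eq {n : ℕ} (a : (Fin n → ℕ) → ℂ) (s : Fin n → ℝ) (W : (Fin n → ℤ) →₀ ℂ) :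
    (W.sum fun γ c => c * ext a (-γ) * ((∏ j, s j ^ (-γ j) : ℝ) : ℂ)) =
      LL a (fun γ => ((∏ j, s j ^ (-γ j) : ℝ) : ℂ)) W := by
  simp only [LL, Finsupp.linearCombination_apply, smul_eq_mul, mul_assoc]

/-- limit `s → 1` of the pairing inequality -/
theorem pairing_one {n : ℕ} (hn : 1 ≤ n) {a : (Fin n → ℕ) → ℂ} (ha : a ∈ KB n)
    (W : (Fin n → ℤ) →₀ ℂ) (hW : ∀ θ : Fin n → ℝ, 0 ≤ (evT W θ).re ∧ (evT W θ).im = 0) :
    0 ≤ (LL a (fun _ => 1) W).re := by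
  have key : ∀ s ∈ Set.Ioo (0:ℝ) 1, 0 ≤ (LL a (fun γ => ((∏ j, s ^ (-γ j) : ℝ) : ℂ)) W).re := by
    intro s hs
    have := pairing_nonneg ha W hW (fun _ => s) (fun _ => hs.1) (by
      simp only [Finset.sum_const, Finset.card_univ, Fintype.card_fin, nsmul_eq_mul]
      have h1 : s ^ 2 < 1 := by nlinarith [hs.1, hs.2]
      have h2 : (0:ℝ) < n := by exact_mod_cast hn
      nlinarith)
    rwa [LL_eq] at this
  have hcont : ContinuousAt (fun s : ℝ => (LL a (fun γ => ((∏ j, s ^ (-γ j) : ℝ) : ℂ)) W).re) 1 := by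
    simp only [LL, Finsupp.linearCombination_apply, Finsupp.sum, smul_eq_mul]
    apply Complex.continuous_re.continuousAt.comp
    apply tendsto_finsetSum
    intro γ _
    apply Tendsto.const_mul
    apply Tendsto.const_mul
    apply (Complex.continuous_ofReal.continuousAt (x := ∏ j, (1:ℝ) ^ (-γ j))).tendsto.comp
    apply tendsto_finsetProd
    intro j _
    exact (continuousAt_zpow₀ (1:ℝ) (-γ j) (Or.inl one_ne_zero)).tendsto
  have hlim : Tendsto (fun s : ℝ => (LL a (fun γ => ((∏ j, s ^ (-γ j) : ℝ) : ℂ)) W).re) (𝓝[<] 1)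
      (𝓝 (LL a (fun _ => 1) W).re) := by
    have := hcont.tendsto.mono_left (nhdsWithin_le_nhds (s := Set.Iio (1:ℝ)))
    simpa using this
  refine ge_of_tendsto hlim ?_
  filter_upwards [Ioo_mem_nhdsLT (zero_lt_one' ℝ)] with s hs using key s hs

/-- the weight `R(θ) P(mΣθ_j)` -/
def WW {n : ℕ} (m : ℕ) (R : (Fin n → ℤ) →₀ ℂ) (P : ℤ →₀ ℂ) : (Fin n → ℤ) →₀ ℂ :=
  P.sum fun k pk => R.sum fun γ r => Finsupp.single (γ + fun _ => k * (m : ℤ)) (pk * r)

lemma lc_WW {n : ℕ} (m : ℕ) (R : (Fin n → ℤ) →₀ ℂ) (P : ℤ →₀ ℂ) (v : (Fin n → ℤ) → ℂ) :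
    Finsupp.linearCombination ℂ v (WW m R P) =
      P.sum fun k pk => R.sum fun γ r => pk * r * v (γ + fun _ => k * (m : ℤ)) := by
  simp only [WW, Finsupp.sum, map_sum, Finsupp.linearCombination_single, smul_eq_mul]

lemma evT_WW {n : ℕ} (m : ℕ) (R : (Fin n → ℤ) →₀ ℂ) (P : ℤ →₀ ℂ) (θ : Fin n → ℝ) :
    evT (WW m R P) θ = evT R θ * evC P (m * ∑ j, θ j) := by
  rw [evT_eq, lc_WW, evT_eq, Finsupp.linearCombination_apply]
  simp only [evC, Finsupp.sum, smul_eq_mul]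
  rw [Finset.sum_mul_sum, Finset.sum_comm]
  apply Finset.sum_congr rfl
  intro γ _
  apply Finset.sum_congr rfl
  intro k _
  rw [ch_add, ch_const]
  have : (((k * (m:ℤ) : ℤ) : ℝ) * ∑ j, θ j : ℝ) = (k : ℝ) * ((m:ℝ) * ∑ j, θ j) := by
    push_cast; ring
  rw [this]
  ring

lemma WW_nonneg {n : ℕ} (m : ℕ) {R : (Fin n → ℤ) →₀ ℂ}
    (hR : ∀ θ : Fin n → ℝ, 0 ≤ (evT R θ).re ∧ (evT R θ).im = 0)
    {P : ℤ →₀ ℂ} (hP : ∀ φ : ℝ, 0 ≤ (evC P φ).re ∧ (evC P φ).im = 0) (θ : Fin n → ℝ) :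
    0 ≤ (evT (WW m R P) θ).re ∧ (evT (WW m R P) θ).im = 0 := by
  rw [evT_WW]
  obtain ⟨h1, h2⟩ := hR θ
  obtain ⟨h3, h4⟩ := hP (m * ∑ j, θ j)
  constructor
  · rw [Complex.mul_re, h2, h4]; simpa using mul_nonneg h1 h3
  · rw [Complex.mul_im, h2, h4]; simp

lemma BB_eq {n : ℕ} (a : (Fin n → ℕ) → ℂ) (m : ℕ) (R : (Fin n → ℤ) →₀ ℂ) (P : ℤ →₀ ℂ) :
    BB a m R P = LL a (fun _ => 1) (WW m R P) := by
  simp only [LL, lc_WW, BB, mul_one]
  simp only [Finsupp.sum]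
  apply Finset.sum_congr rfl
  intro k _
  apply Finset.sum_congr rfl
  intro γ _
  congr 2
  rw [neg_add]; rfl

lemma BB_nonneg {n : ℕ} (hn : 1 ≤ n) {a : (Fin n → ℕ) → ℂ} (ha : a ∈ KB n) (m : ℕ)
    {R : (Fin n → ℤ) →₀ ℂ}
    (hR : ∀ θ : Fin n → ℝ, 0 ≤ (evT R θ).re ∧ (evT R θ).im = 0)
    {P : ℤ →₀ ℂ} (hP : ∀ φ : ℝ, 0 ≤ (evC P φ).re ∧ (evC P φ).im = 0) :
    0 ≤ (BB a m R P).re := by
  rw [BB_eq]
  exact pairing_one hn ha _ (WW_nonneg m hR hP)

/-! ### Concentration -/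

lemma ext_of_neg {n : ℕ} (a : (Fin n → ℕ) → ℂ) {γ : Fin n → ℤ} (i : Fin n) (hi : γ i < 0) :
    ext a γ = 0 := by
  unfold ext
  rw [if_neg]
  push Not
  exact ⟨i, hi⟩

lemma norm_ext_le {n : ℕ} (hn : 1 ≤ n) {a : (Fin n → ℕ) → ℂ} (ha : a ∈ KB n) (γ : Fin n → ℤ) :
    ‖ext a γ‖ ≤ 2 := by
  unfold ext
  split_ifs with h
  · exact KB_coef_le hn ha _
  · simp

lemma ext_zero {n : ℕ} {a : (Fin n → ℕ) → ℂ} (ha : a ∈ KB n) : ext a 0 = 1 := by
  unfold ext
  rw [if_pos (by intro j; simp)]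
  exact ha.1

lemma ext_add {n : ℕ} (a b : (Fin n → ℕ) → ℂ) (γ : Fin n → ℤ) :
    ext (a + b) γ = ext a γ + ext b γ := by
  unfold ext; split_ifs <;> simp

lemma ext_sub {n : ℕ} (a b : (Fin n → ℕ) → ℂ) (γ : Fin n → ℤ) :
    ext (a - b) γ = ext a γ - ext b γ := by
  unfold ext; split_ifs <;> simp

lemma two_sub_cos_le (l : ℕ) (x : ℝ) : 2 - 2 * Real.cos (l * x) ≤ (l:ℝ)^2 * (2 - 2 * Real.cos x) := by
  have h1 : ∀ y : ℝ, 2 - 2 * Real.cos y = 4 * Real.sin (y/2)^2 := by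
    intro y
    have := Real.cos_sq (y/2)
    have h2 := Real.sin_sq (y/2)
    rw [show 2 * (y/2) = y by ring] at this
    nlinarith
  rw [h1, h1, show (l:ℝ) * x / 2 = l * (x/2) by ring]
  have : |Real.sin (l * (x/2))| ≤ l * |Real.sin (x/2)| := by
    generalize x/2 = y
    induction l with
    | zero => simp
    | succ l ih =>
      push_cast
      rw [show ((l:ℝ)+1) * y = l * y + y by ring, Real.sin_add]
      calc |Real.sin (l*y) * Real.cos y + Real.cos (l*y) * Real.sin y|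
          ≤ |Real.sin (l*y) * Real.cos y| + |Real.cos (l*y) * Real.sin y| := abs_add_le _ _
        _ ≤ l * |Real.sin y| + |Real.sin y| := by
            rw [abs_mul, abs_mul]
            have h3 := Real.abs_cos_le_one y
            have h4 := Real.abs_cos_le_one (l*y)
            have h5 := abs_nonneg (Real.sin (l*y))
            have h6 := abs_nonneg (Real.sin y)
            nlinarith [mul_nonneg h5 (sub_nonneg.2 h3), mul_nonneg h6 (sub_nonneg.2 h4)]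
        _ = (l+1) * |Real.sin y| := by ring
  have h7 : Real.sin (l * (x/2))^2 ≤ (l * |Real.sin (x/2)|)^2 := by
    rw [← sq_abs]
    exact pow_le_pow_left₀ (abs_nonneg _) this 2
  rw [mul_pow, sq_abs] at h7
  linarith

/-- the quantitative concentration inequality -/
lemma conc {n : ℕ} (hn : 1 ≤ n) {a : (Fin n → ℕ) → ℂ} (ha : a ∈ KB n) (m l : ℕ) (hm : 1 ≤ m)
    (γ : Fin n → ℤ) (i : Fin n) (hi : -γ i - l * m < 0) {t : ℝ} (ht : 0 < t) :
    ‖ext a γ + (starRingEnd ℂ) (ext a (-γ)) - ext a (γ + fun _ => (l:ℤ) * m)‖ ≤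
      t + (l:ℝ)^2 / t * (2 - (ext a (fun _ => (m:ℤ))).re) := by
  set X := ext a γ + (starRingEnd ℂ) (ext a (-γ)) - ext a (γ + fun _ => (l:ℤ) * m) with hX
  -- unimodular multiplier
  obtain ⟨ω, hω, hωX⟩ : ∃ ω : ℂ, ‖ω‖ = 1 ∧ ω * X = (‖X‖ : ℂ) := by
    by_cases h : X = 0
    · exact ⟨1, by simp, by simp [h]⟩
    · refine ⟨(starRingEnd ℂ) X / ‖X‖, ?_, ?_⟩
      · rw [norm_div, RCLike.norm_conj, Complex.norm_real, norm_norm, div_self (norm_ne_zero_iff.2 h)]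
      · have h' : (‖X‖ : ℂ) ≠ 0 := by exact_mod_cast norm_ne_zero_iff.2 h
        field_simp
        rw [mul_comm, Complex.mul_conj, Complex.normSq_eq_norm_sq]
        push_cast; ring
  set M : Fin n → ℤ := fun _ => (m:ℤ) with hM
  set LM : Fin n → ℤ := fun _ => (l:ℤ) * m with hLM
  set c : ℝ := 2 * (l:ℝ)^2 / t with hc
  let W : (Fin n → ℤ) →₀ ℂ :=
    Finsupp.single 0 ((t + c : ℝ) : ℂ) + Finsupp.single M ((-(c/2) : ℝ) : ℂ)
      + Finsupp.single (-M) ((-(c/2) : ℝ) : ℂ)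
      + Finsupp.single (-γ) (-ω) + Finsupp.single γ (-(starRingEnd ℂ) ω)
      + Finsupp.single (-γ - LM) ω + Finsupp.single (γ + LM) ((starRingEnd ℂ) ω)
  have hev : ∀ θ, evT W θ = ((t + c * (1 - Real.cos (m * ∑ j, θ j)) -
      2 * (ω * (starRingEnd ℂ) (ch γ θ) * (1 - (starRingEnd ℂ) (ch LM θ))).re : ℝ) : ℂ) := by
    intro θ
    rw [evT_eq]
    simp only [W, map_add, Finsupp.linearCombination_single, smul_eq_mul]
    rw [ch_zero, ch_neg, ch_neg, sub_eq_add_neg, ch_add, ch_neg, ch_neg, ch_add]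
    have h1 : ch M θ = Complex.exp (Complex.I * ((m * ∑ j, θ j : ℝ) : ℂ)) := by
      rw [hM, ch_const]; simp
    have h2 : ch M θ + (starRingEnd ℂ) (ch M θ) = ((2 * Real.cos (m * ∑ j, θ j) : ℝ) : ℂ) := by
      rw [Complex.add_conj, h1, mul_comm Complex.I, Complex.exp_ofReal_mul_I_re]
    have h3 : ∀ z : ℂ, ((2 * z.re : ℝ) : ℂ) = z + (starRingEnd ℂ) z := by
      intro z; rw [Complex.add_conj]
    have h4 : ((t + c * (1 - Real.cos (m * ∑ j, θ j)) -
      2 * (ω * (starRingEnd ℂ) (ch γ θ) * (1 - (starRingEnd ℂ) (ch LM θ))).re : ℝ) : ℂ)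
        = ((t + c : ℝ) : ℂ) - ((c/2:ℝ):ℂ) * ((2 * Real.cos (m * ∑ j, θ j) : ℝ) : ℂ)
          - ((2 * (ω * (starRingEnd ℂ) (ch γ θ) * (1 - (starRingEnd ℂ) (ch LM θ))).re : ℝ) : ℂ) := by
      push_cast; ring
    rw [h4, h3, ← h2]
    simp only [map_mul, map_sub, map_one, Complex.conj_conj]
    push_cast
    ring
  have hnn : ∀ θ, 0 ≤ (evT W θ).re ∧ (evT W θ).im = 0 := by
    intro θ
    rw [hev θ]
    refine ⟨?_, Complex.ofReal_im _⟩
    rw [Complex.ofReal_re]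
    set φ := (m:ℝ) * ∑ j, θ j with hφ
    have h1 : ch LM θ = Complex.exp (((l * φ : ℝ) : ℂ) * Complex.I) := by
      rw [hLM, ch_const]
      congr 1
      rw [hφ]; push_cast; ring
    have h2 : (ω * (starRingEnd ℂ) (ch γ θ) * (1 - (starRingEnd ℂ) (ch LM θ))).re ≤ ‖1 - ch LM θ‖ := by
      refine (Complex.re_le_norm _).trans ?_
      rw [norm_mul, norm_mul, hω, RCLike.norm_conj]
      have h3 : ‖ch γ θ‖ = 1 := by
        rw [ch, mul_comm]; exact Complex.norm_exp_ofReal_mul_I _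
      have h5 : (1:ℂ) - (starRingEnd ℂ) (ch LM θ) = (starRingEnd ℂ) (1 - ch LM θ) := by simp
      rw [h3, h5, RCLike.norm_conj]; simp
    have h3 : ‖1 - ch LM θ‖^2 = 2 - 2 * Real.cos (l * φ) := by
      rw [h1, ← Complex.normSq_eq_norm_sq, Complex.normSq_apply]
      simp only [Complex.sub_re, Complex.one_re, Complex.sub_im, Complex.one_im,
        Complex.exp_ofReal_mul_I_re, Complex.exp_ofReal_mul_I_im]
      nlinarith [Real.sin_sq_add_cos_sq (l * φ)]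
    have h4 := two_sub_cos_le l φ
    rw [← h3] at h4
    -- 2 x ≤ t + x^2 / t
    have h5 : 2 * ‖1 - ch LM θ‖ ≤ t + ‖1 - ch LM θ‖^2 / t := by
      have : 0 ≤ (t - ‖1 - ch LM θ‖)^2 / t := by positivity
      have h6 : (t - ‖1 - ch LM θ‖)^2 / t = t - 2 * ‖1 - ch LM θ‖ + ‖1 - ch LM θ‖^2 / t := by
        field_simp; ring
      linarith
    have h7 : ‖1 - ch LM θ‖^2 / t ≤ c * (1 - Real.cos φ) := by
      rw [div_le_iff₀ ht, hc]
      have : 2 * (l:ℝ)^2 / t * (1 - Real.cos φ) * t = (l:ℝ)^2 * (2 - 2 * Real.cos φ) := by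
        field_simp
      rw [this]; exact h4
    linarith
  have hpos := pairing_one hn ha W hnn
  have hz1 : ext a (-M) = 0 := ext_of_neg a i (by simp only [hM, Pi.neg_apply]; omega)
  have hz2 : ext a (-(γ + LM)) = 0 := ext_of_neg a i (by
    simp only [hLM, Pi.neg_apply, Pi.add_apply]; linarith)
  have hLL : LL a (fun _ => 1) W = ((t + c : ℝ) : ℂ) - ((c/2:ℝ):ℂ) * ext a M
      - ω * ext a γ - (starRingEnd ℂ) ω * ext a (-γ) + ω * ext a (γ + LM) := by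
    simp only [LL, W, map_add, Finsupp.linearCombination_single, smul_eq_mul, mul_one]
    rw [neg_zero, ext_zero ha, neg_neg, neg_neg, hz1, hz2]
    have : -(-γ - LM) = γ + LM := by abel
    rw [this]
    push_cast
    ring
  rw [hLL] at hpos
  have hXe : (ω * X).re = (ω * ext a γ).re + ((starRingEnd ℂ) ω * ext a (-γ)).re - (ω * ext a (γ + LM)).re := by
    rw [hX, mul_sub, mul_add, Complex.sub_re, Complex.add_re]
    congr 2
    rw [← Complex.conj_re]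
    simp
  rw [hωX, Complex.ofReal_re] at hXe
  simp only [Complex.add_re, Complex.sub_re, Complex.ofReal_re, Complex.re_ofReal_mul] at hpos
  rw [hXe]
  have hcc : (l:ℝ)^2 / t * (2 - (ext a M).re) = c - c/2 * (ext a M).re := by
    rw [hc]; field_simp
  rw [hcc]
  linarith

lemma conc_tendsto {n : ℕ} (hn : 1 ≤ n) (F : Filter ℕ) (m : ℕ → ℕ) (hm : Tendsto m F atTop)
    (a : ℕ → (Fin n → ℕ) → ℂ) (ha : ∀ᶠ j in F, a j ∈ KB n)
    (b : (Fin n → ℤ) → ℂ) (hb : ∀ γ, Tendsto (fun j => ext (a j) γ) F (𝓝 (b γ)))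
    (C : ℝ) (hC : ∀ᶠ j in F, (m j : ℝ) * (2 - (ext (a j) (fun _ => (m j : ℤ))).re) ≤ C)
    (γ : Fin n → ℤ) (l : ℕ) (hl : 1 ≤ l) :
    Tendsto (fun j => ext (a j) (γ + fun _ => (l:ℤ) * m j)) F
      (𝓝 (b γ + (starRingEnd ℂ) (b (-γ)))) := by
  have h1 : Tendsto (fun j => ext (a j) γ + (starRingEnd ℂ) (ext (a j) (-γ))) F
      (𝓝 (b γ + (starRingEnd ℂ) (b (-γ)))) :=
    (hb γ).add ((Complex.continuous_conj.tendsto _).comp (hb (-γ)))
  have h2 : Tendsto (fun j => ext (a j) γ + (starRingEnd ℂ) (ext (a j) (-γ))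
      - ext (a j) (γ + fun _ => (l:ℤ) * m j)) F (𝓝 0) := by
    rw [tendsto_zero_iff_norm_tendsto_zero]
    have hmr : Tendsto (fun j => ((m j : ℕ) : ℝ)) F atTop := tendsto_natCast_atTop_atTop.comp hm
    have h3 : Tendsto (fun j => (1 + (l:ℝ)^2 * C) / Real.sqrt (m j)) F (𝓝 0) :=
      Tendsto.div_atTop tendsto_const_nhds (Real.tendsto_sqrt_atTop.comp hmr)
    refine squeeze_zero' (Eventually.of_forall fun j => norm_nonneg _) ?_ h3
    have i : Fin n := ⟨0, hn⟩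
    filter_upwards [ha, hC, hm.eventually_ge_atTop (1 + (-γ i).toNat), hm.eventually_ge_atTop 1]
      with j haj hCj hmj hm1
    have hmpos : (0:ℝ) < m j := by exact_mod_cast hm1
    have hs : 0 < Real.sqrt (m j) := Real.sqrt_pos.2 hmpos
    have hi : -γ i - l * m j < 0 := by
      have h5 : (1:ℤ) + ((-γ i).toNat : ℤ) ≤ m j := by exact_mod_cast hmj
      have h6 : -γ i ≤ ((-γ i).toNat : ℤ) := Int.self_le_toNat _
      have h7 : (m j : ℤ) ≤ l * m j := by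
        have : (1:ℤ) ≤ l := by exact_mod_cast hl
        nlinarith [Int.natCast_nonneg (m j)]
      linarith
    refine (conc hn haj (m j) l hm1 γ i hi (t := 1 / Real.sqrt (m j)) (by positivity)).trans ?_
    have h8 : (2 - (ext (a j) (fun _ => (m j : ℤ))).re) ≤ C / m j := by
      rw [le_div_iff₀ hmpos]; linarith
    have h9 : (l:ℝ)^2 / (1 / Real.sqrt (m j)) * (2 - (ext (a j) (fun _ => (m j : ℤ))).re)
        ≤ (l:ℝ)^2 / (1 / Real.sqrt (m j)) * (C / m j) :=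
      mul_le_mul_of_nonneg_left h8 (by positivity)
    refine (add_le_add_right h9 _).trans (le_of_eq ?_)
    have h10 : Real.sqrt (m j) * Real.sqrt (m j) = m j := Real.mul_self_sqrt hmpos.le
    have h11 : C / m j = C / (Real.sqrt (m j) * Real.sqrt (m j)) := by rw [h10]
    rw [h11]
    generalize Real.sqrt (m j) = q at hs
    field_simp
  have h3 := h1.sub h2
  simpa using h3

/-! ### asymptotics of the radii -/

lemma log_lim2 (c : ℝ) : Tendsto (fun m : ℕ => (m:ℝ)^2 * (Real.log (1 + c / m) - c / m)) atTop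
    (𝓝 (-c^2/2)) := by
  have h0 : Tendsto (fun m : ℕ => 2 * |c|^3 / (m:ℝ)) atTop (𝓝 0) :=
    Tendsto.div_atTop tendsto_const_nhds tendsto_natCast_atTop_atTop
  rw [tendsto_iff_norm_sub_tendsto_zero]
  refine squeeze_zero' (Eventually.of_forall fun _ => norm_nonneg _) ?_ h0
  obtain ⟨N, hN⟩ := exists_nat_gt (2 * |c|)
  filter_upwards [eventually_ge_atTop (N + 1)] with m hm
  have hm1 : (N:ℝ) + 1 ≤ m := by exact_mod_cast hm
  have hmpos : (0:ℝ) < m := by have := abs_nonneg c; linarith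
  have hx : |-(c / m)| ≤ 1/2 := by
    rw [abs_neg, abs_div, abs_of_pos hmpos, div_le_iff₀ hmpos]; linarith
  have h1 := Real.abs_log_sub_add_sum_range_le (x := -(c/m)) (by linarith) 2
  simp only [Finset.sum_range_succ, Finset.sum_range_zero, zero_add, pow_one] at h1
  rw [Real.norm_eq_abs]
  have h2 : (m:ℝ)^2 * (Real.log (1 + c / m) - c / m) - -c^2/2
      = (m:ℝ)^2 * ((-(c/m))/ ((0:ℕ) + 1 : ℝ) + (-(c/m))^(1+1) / ((1:ℕ) + 1 : ℝ) + Real.log (1 - -(c/m))) := by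
    rw [sub_neg_eq_add]
    generalize Real.log (1 + c / m) = L
    push_cast
    field_simp
    ring
  rw [h2, abs_mul, abs_of_pos (by positivity : (0:ℝ) < (m:ℝ)^2)]
  refine (mul_le_mul_of_nonneg_left h1 (by positivity)).trans ?_
  have h3 : |-(c / m)| ^ (2+1) / (1 - |-(c/m)|) ≤ 2 * |-(c/m)|^3 := by
    rw [div_le_iff₀ (by linarith)]
    nlinarith [pow_nonneg (abs_nonneg (-(c/m))) 3]
  refine (mul_le_mul_of_nonneg_left h3 (by positivity)).trans (le_of_eq ?_)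
  rw [abs_neg, abs_div, abs_of_pos hmpos]
  field_simp

lemma log_lim3 (e : ℕ) (he : e ≤ 2) : Tendsto (fun m : ℕ => (m:ℝ)^e * Real.log (1 - 1 / (m:ℝ)^3)) atTop (𝓝 0) := by
  have h0 : Tendsto (fun m : ℕ => 2 / (m:ℝ)) atTop (𝓝 0) :=
    Tendsto.div_atTop tendsto_const_nhds tendsto_natCast_atTop_atTop
  rw [tendsto_zero_iff_norm_tendsto_zero]
  refine squeeze_zero' (Eventually.of_forall fun _ => norm_nonneg _) ?_ h0
  filter_upwards [eventually_ge_atTop 2] with m hm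
  have hm1 : (2:ℝ) ≤ m := by exact_mod_cast hm
  have hmpos : (0:ℝ) < m := by linarith
  have hx : |1 / (m:ℝ)^3| ≤ 1/2 := by
    rw [abs_of_pos (by positivity), div_le_iff₀ (by positivity)]
    nlinarith [pow_le_pow_left₀ (by norm_num : (0:ℝ) ≤ 2) hm1 3]
  have h1 := Real.abs_log_sub_add_sum_range_le (x := 1/(m:ℝ)^3) (by linarith) 0
  simp only [Finset.sum_range_zero, zero_add, pow_one] at h1
  rw [Real.norm_eq_abs, abs_mul, abs_of_pos (by positivity : (0:ℝ) < (m:ℝ)^e)]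
  refine (mul_le_mul_of_nonneg_left h1 (by positivity)).trans ?_
  have h3 : |1/(m:ℝ)^3| / (1 - |1/(m:ℝ)^3|) ≤ 2 * (1/(m:ℝ)^3) := by
    rw [div_le_iff₀ (by linarith)]
    have h5 : |1/(m:ℝ)^3| = 1/(m:ℝ)^3 := abs_of_pos (by positivity)
    rw [h5] at hx ⊢
    nlinarith [show (0:ℝ) ≤ 1/(m:ℝ)^3 by positivity]
  refine (mul_le_mul_of_nonneg_left h3 (by positivity)).trans ?_
  have h4 : (m:ℝ)^e ≤ (m:ℝ)^2 := pow_le_pow_right₀ (by linarith) he
  calc (m:ℝ)^e * (2 * (1/(m:ℝ)^3)) ≤ (m:ℝ)^2 * (2 * (1/(m:ℝ)^3)) :=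
        mul_le_mul_of_nonneg_right h4 (by positivity)
    _ = 2 / m := by field_simp

/-- the radii -/
def rad {n : ℕ} (A : Fin n → ℝ) (m : ℕ) (j : Fin n) : ℝ :=
  Real.sqrt ((1 + 2 * A j / m) * (1 - 1 / (m:ℝ)^3))

lemma rad_pos_sum {n : ℕ} (hn : 1 ≤ n) (A : Fin n → ℝ) (hA : ∑ j, A j = 0) :
    ∀ᶠ m : ℕ in atTop, (∀ j, 0 < 1 + 2 * A j / m) ∧ 0 < 1 - 1 / (m:ℝ)^3 ∧ (∀ j, 0 < rad A m j) ∧
      ∑ j, rad A m j ^ 2 < (n:ℝ) := by
  have h1 : ∀ᶠ m : ℕ in atTop, ∀ j, 0 < 1 + 2 * A j / m := by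
    rw [eventually_all]
    intro j
    have : Tendsto (fun m : ℕ => 1 + 2 * A j / (m:ℝ)) atTop (𝓝 (1 + 0)) :=
      tendsto_const_nhds.add (Tendsto.div_atTop tendsto_const_nhds tendsto_natCast_atTop_atTop)
    rw [add_zero] at this
    exact this.eventually (lt_mem_nhds one_pos)
  filter_upwards [h1, eventually_ge_atTop 2] with m hm hm2
  have hm1 : (2:ℝ) ≤ m := by exact_mod_cast hm2
  have hc : 0 < 1 / (m:ℝ)^3 := by positivity
  have hc1 : 1 / (m:ℝ)^3 < 1 := by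
    rw [div_lt_one (by positivity)]
    have := pow_le_pow_left₀ (by norm_num : (0:ℝ) ≤ 2) hm1 3
    linarith
  have hq : 0 < 1 - 1 / (m:ℝ)^3 := by linarith
  refine ⟨hm, hq, fun j => Real.sqrt_pos.2 (mul_pos (hm j) hq), ?_⟩
  have : ∀ j, rad A m j ^ 2 = (1 + 2 * A j / m) * (1 - 1 / (m:ℝ)^3) := by
    intro j
    exact Real.sq_sqrt (mul_pos (hm j) hq).le
  simp only [this]
  rw [← Finset.sum_mul, Finset.sum_add_distrib, ← Finset.sum_div, ← Finset.mul_sum, hA]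
  simp only [Finset.sum_const, Finset.card_univ, Fintype.card_fin, nsmul_eq_mul, mul_one, mul_zero,
    zero_div, add_zero]
  have h2 : (0:ℝ) < n := by exact_mod_cast hn
  nlinarith

lemma rad_prod_tendsto {n : ℕ} (hn : 1 ≤ n) (A : Fin n → ℝ) (hA : ∑ j, A j = 0) (γ : Fin n → ℤ)
    (k : ℤ) :
    Tendsto (fun m : ℕ => (m:ℝ) * ((∏ j, rad A m j ^ (-(γ j + k * m))) - 1)) atTop
      (𝓝 (-∑ j, (γ j : ℝ) * A j + (k:ℝ) * ∑ j, A j ^ 2)) := by
  set L : ℝ := -∑ j, (γ j : ℝ) * A j + (k:ℝ) * ∑ j, A j ^ 2 with hL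
  set Λ : ℕ → ℝ := fun m => ∑ j, (-(γ j + k * m) : ℝ) * Real.log (rad A m j) with hΛ
  have h1 : Tendsto (fun m : ℕ => (m:ℝ) * Λ m) atTop (𝓝 L) := by
    have e1 : ∀ᶠ m : ℕ in atTop, (m:ℝ) * Λ m =
        ∑ j, (-(1/2) * (γ j : ℝ) * ((m:ℝ) * Real.log (1 + (2 * A j) / m))
          + -(k/2 : ℝ) * ((m:ℝ)^2 * (Real.log (1 + (2 * A j) / m) - (2 * A j) / m))
          + -(k:ℝ) * m * A j
          + -(1/2) * (γ j : ℝ) * ((m:ℝ)^1 * Real.log (1 - 1/(m:ℝ)^3))
          + -(k/2 : ℝ) * ((m:ℝ)^2 * Real.log (1 - 1/(m:ℝ)^3))) := by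
      filter_upwards [rad_pos_sum hn A hA, eventually_ge_atTop 1] with m hm hm1
      have hmpos : (0:ℝ) < m := by exact_mod_cast hm1
      rw [hΛ, Finset.mul_sum]
      apply Finset.sum_congr rfl
      intro j _
      have : Real.log (rad A m j) = (1/2) * (Real.log (1 + (2 * A j) / m) + Real.log (1 - 1/(m:ℝ)^3)) := by
        rw [rad, Real.log_sqrt (mul_pos (hm.1 j) hm.2.1).le, Real.log_mul (hm.1 j).ne' hm.2.1.ne']
        ring
      rw [this]
      generalize Real.log (1 + (2 * A j) / m) = X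
      generalize Real.log (1 - 1/(m:ℝ)^3) = Y
      field_simp
      ring
    refine Tendsto.congr' (EventuallyEq.symm e1) ?_
    simp only [Finset.sum_add_distrib]
    have e2 : ∀ m : ℕ, ∑ j, -(k:ℝ) * m * A j = 0 := by
      intro m; rw [← Finset.mul_sum, hA, mul_zero]
    simp only [e2, add_zero]
    have t1 : Tendsto (fun m : ℕ => ∑ j, -(1/2) * (γ j : ℝ) * ((m:ℝ) * Real.log (1 + (2 * A j) / m))) atTop
        (𝓝 (∑ j, -(1/2) * (γ j : ℝ) * (2 * A j))) := by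
      apply tendsto_finsetSum
      intro j _
      exact ((Real.tendsto_mul_log_one_add_div_atTop (2 * A j)).comp tendsto_natCast_atTop_atTop).const_mul _
    have t2 : Tendsto (fun m : ℕ => ∑ j, -(k/2 : ℝ) * ((m:ℝ)^2 * (Real.log (1 + (2 * A j) / m) - (2 * A j) / m))) atTop
        (𝓝 (∑ j, -(k/2 : ℝ) * (-(2 * A j)^2/2))) := by
      apply tendsto_finsetSum
      intro j _
      exact (log_lim2 (2 * A j)).const_mul _
    have t3 : Tendsto (fun m : ℕ => ∑ j, -(1/2) * (γ j : ℝ) * ((m:ℝ)^1 * Real.log (1 - 1/(m:ℝ)^3))) atTop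
        (𝓝 (∑ j : Fin n, -(1/2) * (γ j : ℝ) * 0)) := by
      apply tendsto_finsetSum
      intro j _
      exact (log_lim3 1 (by norm_num)).const_mul _
    have t4 : Tendsto (fun m : ℕ => ∑ j : Fin n, -(k/2 : ℝ) * ((m:ℝ)^2 * Real.log (1 - 1/(m:ℝ)^3))) atTop
        (𝓝 (∑ j : Fin n, -(k/2 : ℝ) * 0)) := by
      apply tendsto_finsetSum
      intro j _
      exact (log_lim3 2 (by norm_num)).const_mul _
    have := ((t1.add t2).add t3).add t4
    convert this using 2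
    rw [hL]
    simp only [mul_zero, Finset.sum_const_zero, add_zero]
    rw [← Finset.sum_neg_distrib, Finset.mul_sum]
    congr 1
    · apply Finset.sum_congr rfl; intro j _; ring
    · apply Finset.sum_congr rfl; intro j _; ring
  have hinv : Tendsto (fun m : ℕ => 1 / (m:ℝ)) atTop (𝓝 0) :=
    Tendsto.div_atTop tendsto_const_nhds tendsto_natCast_atTop_atTop
  have h2 : Tendsto Λ atTop (𝓝 0) := by
    have := h1.mul hinv
    rw [mul_zero] at this
    refine this.congr' ?_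
    filter_upwards [eventually_ge_atTop 1] with m hm1
    have hmpos : (0:ℝ) < m := by exact_mod_cast hm1
    field_simp
  have h3 : Tendsto (fun m : ℕ => (m:ℝ) * (Real.exp (Λ m) - 1 - Λ m)) atTop (𝓝 0) := by
    have e3 : Tendsto (fun m : ℕ => ((m:ℝ) * Λ m) * Λ m) atTop (𝓝 0) := by
      simpa using h1.mul h2
    rw [tendsto_zero_iff_norm_tendsto_zero] at e3 ⊢
    refine squeeze_zero' (Eventually.of_forall fun _ => norm_nonneg _) ?_ e3
    have h5 : ∀ᶠ m in atTop, |Λ m| ≤ 1 := by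
      have := h2.norm
      rw [norm_zero] at this
      filter_upwards [this.eventually (gt_mem_nhds zero_lt_one)] with m hm using hm.le
    filter_upwards [h5] with m hm
    have h6 := Real.abs_exp_sub_one_sub_id_le hm
    rw [Real.norm_eq_abs, Real.norm_eq_abs, abs_mul, mul_assoc, abs_mul]
    apply mul_le_mul_of_nonneg_left _ (abs_nonneg _)
    have h8 : |Λ m * Λ m| = Λ m ^ 2 := by rw [← sq, abs_of_nonneg (sq_nonneg _)]
    rw [h8]
    exact h6
  have h4 := h1.add h3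
  rw [add_zero] at h4
  refine h4.congr' ?_
  filter_upwards [rad_pos_sum hn A hA] with m hm
  have h7 : ∏ j, rad A m j ^ (-(γ j + k * m)) = Real.exp (Λ m) := by
    rw [hΛ, Real.exp_sum]
    apply Finset.prod_congr rfl
    intro j _
    rw [← Real.rpow_intCast, Real.rpow_def_of_pos (hm.2.2.1 j)]
    push_cast
    rw [mul_comm]
  rw [h7]
  ring

/-- one-sided inequality -/
theorem one_sided {n : ℕ} (hn : 1 ≤ n) (F : Filter ℕ) [F.NeBot] (m : ℕ → ℕ) (hm : Tendsto m F atTop)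
    (a : ℕ → (Fin n → ℕ) → ℂ) (ha : ∀ᶠ j in F, a j ∈ KB n)
    (b : (Fin n → ℤ) → ℂ) (hb : ∀ γ, Tendsto (fun j => ext (a j) γ) F (𝓝 (b γ)))
    (C : ℝ) (hC : ∀ᶠ j in F, (m j : ℝ) * (2 - (ext (a j) (fun _ => (m j : ℤ))).re) ≤ C)
    (R : (Fin n → ℤ) →₀ ℂ) (hR : ∀ θ : Fin n → ℝ, 0 ≤ (evT R θ).re ∧ (evT R θ).im = 0)
    (P : ℤ →₀ ℂ) (hP : ∀ φ : ℝ, 0 ≤ (evC P φ).re ∧ (evC P φ).im = 0)
    (κ : ℝ) (hκ : Tendsto (fun j => (m j : ℝ) * (BB (a j) (m j) R P).re) F (𝓝 κ))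
    (A : Fin n → ℝ) (hA : ∑ j, A j = 0) :
    0 ≤ κ + EE b R P A := by
  -- limit of the coefficients
  set Lim : ℤ → (Fin n → ℤ) → ℂ := fun k γ =>
    if 0 < k then 0 else if k = 0 then b (-γ) else b (-γ) + (starRingEnd ℂ) (b γ) with hLim
  have hext : ∀ (k : ℤ) (γ : Fin n → ℤ), Tendsto (fun j => ext (a j) (-γ - fun _ => k * (m j : ℤ))) F
      (𝓝 (Lim k γ)) := by
    intro k γ
    rcases lt_trichotomy k 0 with hk | hk | hk
    · have h1 := conc_tendsto hn F m hm a ha b hb C hC (-γ) (-k).toNat (by omega)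
      rw [neg_neg] at h1
      simp only [hLim, if_neg (not_lt.2 hk.le), if_neg hk.ne]
      refine h1.congr ?_
      intro j
      congr 1
      ext i
      simp only [Pi.add_apply, Pi.neg_apply, Pi.sub_apply]
      rw [Int.toNat_of_nonneg (by omega)]
      ring
    · subst hk
      simp only [hLim, lt_irrefl, if_false, if_true]
      refine (hb (-γ)).congr ?_
      intro j
      congr 1
      ext i
      simp
    · simp only [hLim, if_pos hk]
      refine tendsto_const_nhds.congr' ?_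
      have i : Fin n := ⟨0, hn⟩
      filter_upwards [hm.eventually_ge_atTop (1 + (-γ i).toNat)] with j hj
      symm
      apply ext_of_neg _ i
      have h5 : (1:ℤ) + ((-γ i).toNat : ℤ) ≤ m j := by exact_mod_cast hj
      have h6 : -γ i ≤ ((-γ i).toNat : ℤ) := Int.self_le_toNat _
      have h7 : (m j : ℤ) ≤ k * m j := by nlinarith [Int.natCast_nonneg (m j)]
      simp only [Pi.sub_apply, Pi.neg_apply]
      linarith
  -- the corrections
  set S : ℕ → ℤ → (Fin n → ℤ) → ℝ := fun j k γ => ∏ i, rad A (m j) i ^ (-(γ i + k * (m j : ℤ))) with hS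
  have hSt : ∀ (k : ℤ) (γ : Fin n → ℤ), Tendsto (fun j => (m j : ℝ) * (S j k γ - 1)) F
      (𝓝 (-∑ i, (γ i : ℝ) * A i + (k:ℝ) * ∑ i, A i ^ 2)) := by
    intro k γ
    exact (rad_prod_tendsto hn A hA γ k).comp hm
  have hT : Tendsto (fun j => (m j : ℝ) * (BB (a j) (m j) R P).re +
      (P.sum fun k pk => R.sum fun γ r => pk * r * (ext (a j) (-γ - fun _ => k * (m j : ℤ))
        * (((m j : ℝ) * (S j k γ - 1) : ℝ) : ℂ))).re) F
      (𝓝 (κ + (P.sum fun k pk => R.sum fun γ r => pk * r * (Lim k γ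
        * ((-∑ i, (γ i : ℝ) * A i + (k:ℝ) * ∑ i, A i ^ 2 : ℝ) : ℂ))).re)) := by
    refine hκ.add ?_
    refine (Complex.continuous_re.tendsto _).comp ?_
    simp only [Finsupp.sum]
    apply tendsto_finsetSum
    intro k _
    apply tendsto_finsetSum
    intro γ _
    apply Tendsto.const_mul
    exact (hext k γ).mul ((Complex.continuous_ofReal.tendsto _).comp (hSt k γ))
  have hlimeq : (P.sum fun k pk => R.sum fun γ r => pk * r * (Lim k γ
        * ((-∑ i, (γ i : ℝ) * A i + (k:ℝ) * ∑ i, A i ^ 2 : ℝ) : ℂ))).re = EE b R P A := by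
    unfold EE
    congr 1
    simp only [Finsupp.sum]
    rw [Finset.sum_comm]
    apply Finset.sum_congr rfl
    intro γ _
    rw [mul_add]
    have h1 : R γ * (P 0 * b (-γ) * ((-∑ i, (γ i : ℝ) * A i : ℝ) : ℂ))
        = ∑ k ∈ P.support, if k = 0 then R γ * (P k * b (-γ) * ((-∑ i, (γ i : ℝ) * A i : ℝ) : ℂ)) else 0 := by
      rw [Finset.sum_ite_eq' P.support (0:ℤ)]
      split_ifs with h
      · rfl
      · rw [Finsupp.notMem_support_iff.1 h]; simp
    rw [h1, Finset.mul_sum, ← Finset.sum_add_distrib]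
    apply Finset.sum_congr rfl
    intro k _
    rcases lt_trichotomy k 0 with hk | hk | hk
    · simp only [hLim, if_neg (not_lt.2 hk.le), if_neg hk.ne, if_pos hk]
      ring
    · subst hk
      simp only [hLim, lt_irrefl, if_false, if_true]
      push_cast
      ring
    · simp only [hLim, if_pos hk, if_neg hk.ne', if_neg (not_lt.2 hk.le)]
      ring
  rw [hlimeq] at hT
  refine ge_of_tendsto hT ?_
  filter_upwards [ha, hm.eventually (rad_pos_sum hn A hA)] with j haj hrad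
  have h1 := pairing_nonneg haj (WW (m j) R P) (WW_nonneg (m j) hR hP) (rad A (m j)) hrad.2.2.1 hrad.2.2.2
  rw [LL_eq, LL, lc_WW] at h1
  have h2 : (P.sum fun k pk => R.sum fun γ r => pk * r * (ext (a j) (-(γ + fun _ : Fin n => k * (m j : ℤ)))
        * ((∏ i, rad A (m j) i ^ ((-(γ + fun _ : Fin n => k * (m j : ℤ))) i) : ℝ) : ℂ)))
      = BB (a j) (m j) R P + P.sum fun k pk => R.sum fun γ r => pk * r * (ext (a j) (-γ - fun _ => k * (m j : ℤ))
        * ((S j k γ - 1 : ℝ) : ℂ)) := by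
    simp only [BB, Finsupp.sum]
    rw [← Finset.sum_add_distrib]
    apply Finset.sum_congr rfl
    intro k _
    rw [← Finset.sum_add_distrib]
    apply Finset.sum_congr rfl
    intro γ _
    have e1 : -(γ + fun _ : Fin n => k * (m j : ℤ)) = -γ - fun _ : Fin n => k * (m j : ℤ) := by rw [neg_add]; rfl
    have e2 : ∀ i, (-(γ + fun _ : Fin n => k * (m j : ℤ))) i = -(γ i + k * (m j : ℤ)) := fun i => rfl
    simp only [hS, e1, ← e2]
    push_cast
    ring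
  have h3 : (m j : ℝ) * (P.sum fun k pk => R.sum fun γ r => pk * r * (ext (a j) (-(γ + fun _ : Fin n => k * (m j : ℤ)))
        * ((∏ i, rad A (m j) i ^ ((-(γ + fun _ : Fin n => k * (m j : ℤ))) i) : ℝ) : ℂ))).re
      = (m j : ℝ) * (BB (a j) (m j) R P).re +
      (P.sum fun k pk => R.sum fun γ r => pk * r * (ext (a j) (-γ - fun _ => k * (m j : ℤ))
        * (((m j : ℝ) * (S j k γ - 1) : ℝ) : ℂ))).re := by
    rw [h2, Complex.add_re, mul_add]
    congr 1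
    rw [← Complex.re_ofReal_mul]
    congr 1
    simp only [Finsupp.sum]
    rw [Finset.mul_sum]
    apply Finset.sum_congr rfl
    intro k _
    rw [Finset.mul_sum]
    apply Finset.sum_congr rfl
    intro γ _
    push_cast
    ring
  rw [← h3]
  exact mul_nonneg (Nat.cast_nonneg _) h1

/-- T2 -/
theorem two_sided {n : ℕ} (hn : 1 ≤ n) (F : Ultrafilter ℕ) (m : ℕ → ℕ) (hm : Tendsto m F atTop)
    (f k : ℕ → (Fin n → ℕ) → ℂ) (hfk : ∀ᶠ j in F, f j + k j ∈ KB n) (hfk' : ∀ᶠ j in F, f j - k j ∈ KB n)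
    (b β : (Fin n → ℤ) → ℂ) (hb : ∀ γ, Tendsto (fun j => ext (f j) γ) F (𝓝 (b γ)))
    (hβ : ∀ γ, Tendsto (fun j => ext (k j) γ) F (𝓝 (β γ)))
    (C : ℝ) (hC : ∀ᶠ j in F, (m j : ℝ) * (2 - (ext (f j) (fun _ => (m j : ℤ))).re) ≤ C)
    (R : (Fin n → ℤ) →₀ ℂ) (hR : ∀ θ : Fin n → ℝ, 0 ≤ (evT R θ).re ∧ (evT R θ).im = 0)
    (P : ℤ →₀ ℂ) (hP : ∀ φ : ℝ, 0 ≤ (evC P φ).re ∧ (evC P φ).im = 0)
    (κ : ℝ) (hκ : Tendsto (fun j => (m j : ℝ) * (BB (f j) (m j) R P).re) F (𝓝 κ))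
    (A₁ A₂ : Fin n → ℝ) (hA₁ : ∑ j, A₁ j = 0) (hA₂ : ∑ j, A₂ j = 0) :
    0 ≤ 2 * κ + EE (b + β) R P A₁ + EE (b - β) R P A₂ := by
  have hBadd : ∀ j, (BB (f j + k j) (m j) R P).re = (BB (f j) (m j) R P).re + (BB (k j) (m j) R P).re := by
    intro j
    rw [← Complex.add_re]
    congr 1
    simp only [BB, Finsupp.sum, ext_add, mul_add, Finset.sum_add_distrib]
  have hBsub : ∀ j, (BB (f j - k j) (m j) R P).re = (BB (f j) (m j) R P).re - (BB (k j) (m j) R P).re := by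
    intro j
    rw [← Complex.sub_re]
    congr 1
    simp only [BB, Finsupp.sum, ext_sub, mul_sub, Finset.sum_sub_distrib]
  -- convergence of `m Re BB(k)` along the ultrafilter
  obtain ⟨lam, hlam⟩ : ∃ x : ℝ, Tendsto (fun j => (m j : ℝ) * (BB (k j) (m j) R P).re) F (𝓝 x) := by
    have hcpt : IsCompact (Set.Icc (-(κ+1)) (κ+1)) := isCompact_Icc
    have hmem : ∀ᶠ j in (F : Filter ℕ), (m j : ℝ) * (BB (k j) (m j) R P).re ∈ Set.Icc (-(κ+1)) (κ+1) := by
      filter_upwards [hfk, hfk', hκ.eventually (gt_mem_nhds (show κ < κ + 1 by linarith))] with j h1 h2 h3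
      have h4 := BB_nonneg hn h1 (m j) hR hP
      have h5 := BB_nonneg hn h2 (m j) hR hP
      rw [hBadd] at h4
      rw [hBsub] at h5
      have h6 : (0:ℝ) ≤ m j := Nat.cast_nonneg _
      constructor <;> nlinarith
    have := hcpt.ultrafilter_le_nhds (F.map fun j => (m j : ℝ) * (BB (k j) (m j) R P).re) (by
      rw [Filter.le_principal_iff]; exact hmem)
    obtain ⟨x, _, hx⟩ := this
    exact ⟨x, hx⟩
  have hC2 : ∀ᶠ j in (F : Filter ℕ), (m j : ℝ) * (2 - (ext (f j + k j) (fun _ => (m j : ℤ))).re) ≤ 2 * C ∧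
      (m j : ℝ) * (2 - (ext (f j - k j) (fun _ => (m j : ℤ))).re) ≤ 2 * C := by
    filter_upwards [hfk, hfk', hC] with j h1 h2 h3
    have h4 := (Complex.re_le_norm _).trans (norm_ext_le hn h1 (fun _ => (m j : ℤ)))
    have h5 := (Complex.re_le_norm _).trans (norm_ext_le hn h2 (fun _ => (m j : ℤ)))
    rw [ext_add, Complex.add_re] at h4 ⊢
    rw [ext_sub, Complex.sub_re] at h5 ⊢
    have h6 : (0:ℝ) ≤ m j := Nat.cast_nonneg _
    constructor <;> nlinarith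
  have o1 := one_sided hn (F : Filter ℕ) m hm (fun j => f j + k j) hfk (b + β)
    (fun γ => by simpa only [ext_add, Pi.add_apply] using (hb γ).add (hβ γ)) (2 * C)
    (hC2.mono fun j h => h.1) R hR P hP (κ + lam)
    (by simpa only [hBadd, mul_add] using hκ.add hlam) A₁ hA₁
  have o2 := one_sided hn (F : Filter ℕ) m hm (fun j => f j - k j) hfk' (b - β)
    (fun γ => by simpa only [ext_sub, Pi.sub_apply] using (hb γ).sub (hβ γ)) (2 * C)
    (hC2.mono fun j h => h.2) R hR P hP (κ - lam)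
    (by simpa only [hBsub, mul_sub] using hκ.sub hlam) A₂ hA₂
  linarith

end

end Pool.Agent.Lib.MP_6ff8d9_an
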