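import Pool.Agent.Lib.MP_6ff8d9_an.Kernel
import Pool.Agent.Lib.MP_6ff8d9_an.Lower

open Metric Filter Topology

namespace Pool.Agent.Lib.MP_6ff8d9_an

noncomputable section

/-- evaluation of the pairing for the recovery sequence -/
lemma BB_recovery {n : ℕ} (hn : 1 ≤ n) (p : (Fin n → ℕ) →₀ ℂ) (K0 K1 : (Fin n → ℤ) →₀ ℂ)
    (f : (Fin n → ℕ) → ℂ) (m M : ℕ) (hmM : M < m)
    (hcoef : ∀ γ : Fin n → ℤ, (∀ j, |γ j| ≤ M) → ext f γ = ext (⇑p) γ ∧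
        ∀ l : ℕ, 1 ≤ l → ext f (γ + fun _ => (l : ℤ) * m) =
          ext (⇑p) γ + (starRingEnd ℂ) (ext (⇑p) (-γ)) - (2 / m) * K0 γ
            + (if l = 1 then (2 / m) * K1 γ else 0))
    {L : ℕ} (hL : 1 ≤ L) (θ₁ : Fin n → ℝ) (φ₁ : ℝ) :
    (m:ℝ) * (BB f m (RK M θ₁) (PK L φ₁)).re =
      (-((fM L 1 : ℂ) * Complex.exp (φ₁ * Complex.I) - 1) * sm (⇑K0) M θ₁
        + 2 * PK L φ₁ (-1) * sm (⇑K1) M θ₁).re := by
  set b : (Fin n → ℤ) → ℂ := ext (⇑p) with hb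
  have hmpos : (0:ℝ) < m := by exact_mod_cast (by omega : 0 < m)
  have hmC : (m:ℂ) ≠ 0 := by exact_mod_cast hmpos.ne'
  have hsm : ∀ c : (Fin n → ℤ) → ℂ, ∑ γ ∈ box n M, (FM M γ : ℂ) * cx (-γ) θ₁ * c (-γ) = sm c M θ₁ := by
    intro c
    rw [sm, ← sum_box_neg]
    apply Finset.sum_congr rfl
    intro γ _
    rw [FM_neg]; ring_nf
  have hsmc : ∑ γ ∈ box n M, (FM M γ : ℂ) * cx (-γ) θ₁ * (starRingEnd ℂ) (b γ) = (starRingEnd ℂ) (sm b M θ₁) := by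
    rw [sm, map_sum]
    apply Finset.sum_congr rfl
    intro γ _
    rw [map_mul, map_mul, Complex.conj_ofReal, cx_neg]; ring
  set X : ℂ := sm b M θ₁ + (starRingEnd ℂ) (sm b M θ₁) - (2 / m) * sm (⇑K0) M θ₁ with hX
  have hY : ∀ k : ℤ, ∑ γ ∈ box n M, (FM M γ : ℂ) * cx (-γ) θ₁ * ext f (-γ - fun _ => k * (m : ℤ))
      = X * (if k < 0 then 1 else 0) + (sm b M θ₁ * (if k = 0 then 1 else 0)
        + (2 / m) * sm (⇑K1) M θ₁ * (if k = -1 then 1 else 0)) := by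
    intro k
    have hbox : ∀ γ ∈ box n M, ∀ j, |(-γ) j| ≤ (M:ℤ) := by
      intro γ hγ j
      have := mem_box.1 hγ j
      rw [Pi.neg_apply, abs_neg]
      rw [abs_le]; omega
    rcases lt_trichotomy k 0 with hk | hk | hk
    · have h1 : ∀ γ ∈ box n M, ext f (-γ - fun _ => k * (m : ℤ)) =
          b (-γ) + (starRingEnd ℂ) (b γ) - (2 / m) * K0 (-γ) + (if k = -1 then (2 / m) * K1 (-γ) else 0) := by
        intro γ hγ
        have h2 := (hcoef (-γ) (hbox γ hγ)).2 (-k).toNat (by omega)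
        rw [neg_neg] at h2
        have h3 : (-γ - fun _ => k * (m : ℤ)) = (-γ + fun _ : Fin n => (((-k).toNat : ℕ) : ℤ) * m) := by
          ext i
          simp only [Pi.add_apply, Pi.neg_apply, Pi.sub_apply]
          rw [Int.toNat_of_nonneg (by omega)]
          ring
        rw [h3, h2]
        congr 1
        by_cases hk1 : k = -1
        · subst hk1; simp
        · rw [if_neg hk1, if_neg (by omega)]
      rw [Finset.sum_congr rfl (fun γ hγ => by rw [h1 γ hγ])]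
      rw [if_pos hk, if_neg hk.ne, mul_one, mul_zero, zero_add, hX]
      rw [← hsmc, ← hsm b, ← hsm (⇑K0), ← hsm (⇑K1)]
      rw [Finset.mul_sum, Finset.mul_sum, Finset.sum_mul, ← Finset.sum_add_distrib, ← Finset.sum_sub_distrib,
        ← Finset.sum_add_distrib]
      apply Finset.sum_congr rfl
      intro γ _
      split_ifs <;> ring
    · subst hk
      rw [← hsm b]
      simp only [lt_irrefl, if_false, mul_zero, zero_add, if_true, mul_one]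
      rw [if_neg (by norm_num), mul_zero, add_zero]
      apply Finset.sum_congr rfl
      intro γ hγ
      congr 1
      have h3 : (-γ - fun _ : Fin n => (0:ℤ) * (m : ℤ)) = -γ := by ext i; simp
      rw [h3]
      exact (hcoef (-γ) (hbox γ hγ)).1
    · rw [if_neg (by omega), if_neg (by omega), if_neg (by omega)]
      simp only [mul_zero, add_zero]
      apply Finset.sum_eq_zero
      intro γ hγ
      have i : Fin n := ⟨0, hn⟩
      rw [ext_of_neg f i, mul_zero]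
      simp only [Pi.sub_apply, Pi.neg_apply]
      have h4 := mem_box.1 hγ i
      have h5 : (m:ℤ) ≤ k * m := by nlinarith
      omega
  have hBB : BB f m (RK M θ₁) (PK L φ₁) =
      X * (((fM L 1 : ℂ) * Complex.exp (φ₁ * Complex.I) - 1) / 2) + (sm b M θ₁ * PK L φ₁ 0
        + (2 / m) * sm (⇑K1) M θ₁ * PK L φ₁ (-1)) := by
    have h1 : BB f m (RK M θ₁) (PK L φ₁) = (PK L φ₁).sum fun k pk => pk *
        (∑ γ ∈ box n M, (FM M γ : ℂ) * cx (-γ) θ₁ * ext f (-γ - fun _ => k * (m : ℤ))) := by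
      unfold BB
      congr 1
      ext k pk
      rw [RK_sum _ _ (by intro k; simp), Finset.mul_sum]
      apply Finset.sum_congr rfl
      intro γ _
      ring
    rw [h1]
    simp only [hY]
    rw [← PK_sumneg hL, ← lc_ind2]
    simp only [Finsupp.linearCombination_apply, Finsupp.sum, smul_eq_mul]
    rw [Finset.mul_sum, ← Finset.sum_add_distrib]
    apply Finset.sum_congr rfl
    intro k _
    ring
  rw [hBB, PK_zero hL]
  set S := ((fM L 1 : ℂ) * Complex.exp (φ₁ * Complex.I) - 1) with hS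
  have hSre : S.re = fM L 1 * Real.cos φ₁ - 1 := by
    rw [hS, Complex.sub_re, Complex.re_ofReal_mul, Complex.exp_ofReal_mul_I_re, Complex.one_re]
  have e1 : X * (S / 2) + (sm b M θ₁ * ((1 - fM L 1 * Real.cos φ₁ : ℝ) : ℂ) + (2 / m) * sm (⇑K1) M θ₁ * PK L φ₁ (-1))
      = ((sm b M θ₁ + (starRingEnd ℂ) (sm b M θ₁)) * (S / 2) + sm b M θ₁ * ((1 - fM L 1 * Real.cos φ₁ : ℝ) : ℂ))
        + ((1 / m : ℝ) : ℂ) * (-S * sm (⇑K0) M θ₁ + 2 * PK L φ₁ (-1) * sm (⇑K1) M θ₁) := by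
    rw [hX]; push_cast; ring
  rw [e1, Complex.add_re, Complex.re_ofReal_mul]
  have e2 : ((sm b M θ₁ + (starRingEnd ℂ) (sm b M θ₁)) * (S / 2) + sm b M θ₁ * ((1 - fM L 1 * Real.cos φ₁ : ℝ) : ℂ)).re = 0 := by
    rw [Complex.add_conj, Complex.add_re, Complex.re_mul_ofReal, Complex.re_ofReal_mul,
      Complex.div_ofNat_re, hSre]
    ring
  rw [e2, zero_add]
  field_simp

/-- the functional after the phase localisation -/
def Ev {n : ℕ} (c : (Fin n → ℤ) → ℂ) (M : ℕ) (θ₁ : Fin n → ℝ) (φ₁ : ℝ) (A : Fin n → ℝ) : ℝ :=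
  (1 - Real.cos φ₁) * (smD c M A θ₁).re - Real.sin φ₁ * (smD c M A θ₁).im
    + (∑ j, A j ^ 2) * (sm c M θ₁).re

def gL (s0 s1 e1 e2 : ℂ) (c s d1r d1i q1 d2r d2i q2 : ℝ) (x y : ℝ) : ℝ :=
  2 * (-((x : ℂ) * e1 - 1) * s0
        + 2 * ((x : ℂ) * e1 - (1/2) * ((y : ℂ) * e2) - 1/2) * s1).re
      + ((1 - x * c) * d1r - x * s * d1i + q1)
      + ((1 - x * c) * d2r - x * s * d2i + q2)

lemma lim_aux (s0 s1 e1 e2 : ℂ) (c s d1r d1i q1 d2r d2i q2 : ℝ) {f1 f2 : ℕ → ℝ}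
    (h1 : Tendsto f1 atTop (𝓝 1)) (h2 : Tendsto f2 atTop (𝓝 1)) :
    Tendsto (fun L : ℕ => gL s0 s1 e1 e2 c s d1r d1i q1 d2r d2i q2 (f1 L) (f2 L)) atTop
    (𝓝 (gL s0 s1 e1 e2 c s d1r d1i q1 d2r d2i q2 1 1)) := by
  unfold gL
  have hx : Tendsto (fun L => ((f1 L : ℝ) : ℂ)) atTop (𝓝 ((1:ℝ):ℂ)) := (Complex.continuous_ofReal.tendsto _).comp h1
  have hy : Tendsto (fun L => ((f2 L : ℝ) : ℂ)) atTop (𝓝 ((1:ℝ):ℂ)) := (Complex.continuous_ofReal.tendsto _).comp h2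
  have hz : Tendsto (fun L => (-((f1 L : ℂ) * e1 - 1) * s0
        + 2 * ((f1 L : ℂ) * e1 - (1/2) * ((f2 L : ℂ) * e2) - 1/2) * s1)) atTop (𝓝 (-(((1:ℝ) : ℂ) * e1 - 1) * s0
        + 2 * (((1:ℝ) : ℂ) * e1 - (1/2) * (((1:ℝ) : ℂ) * e2) - 1/2) * s1)) :=
    ((((hx.mul_const e1).sub_const 1).neg).mul_const s0).add
      ((((((hx.mul_const e1).sub ((hy.mul_const e2).const_mul (1/2))).sub_const (1/2))).const_mul 2).mul_const s1)
  have hw := ((Complex.continuous_re.tendsto _).comp hz).const_mul (2:ℝ)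
  exact (hw.add ((((h1.mul_const c).const_sub 1).mul_const d1r).sub ((h1.mul_const s).mul_const d1i) |>.add_const q1)).add
    ((((h1.mul_const c).const_sub 1).mul_const d2r).sub ((h1.mul_const s).mul_const d2i) |>.add_const q2)

theorem key_ineq {n : ℕ} (hn : 1 ≤ n) (p : (Fin n → ℕ) →₀ ℂ) (hp0 : p 0 = 1)
    (K0 K1 : (Fin n → ℤ) →₀ ℂ) (f k : ℕ → (Fin n → ℕ) → ℂ)
    (F : Ultrafilter ℕ) (hF : (F : Filter ℕ) ≤ atTop)
    (hcoef : ∀ D : ℕ, ∀ᶠ m : ℕ in atTop, ∀ γ : Fin n → ℤ, (∀ j, |γ j| ≤ D) →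
        ext (f m) γ = ext (⇑p) γ ∧
        ∀ l : ℕ, 1 ≤ l → ext (f m) (γ + fun _ => (l : ℤ) * m) =
          ext (⇑p) γ + (starRingEnd ℂ) (ext (⇑p) (-γ)) - (2 / m) * K0 γ
            + (if l = 1 then (2 / m) * K1 γ else 0))
    (hfk : ∀ᶠ m in (F : Filter ℕ), f m + k m ∈ KB n) (hfk' : ∀ᶠ m in (F : Filter ℕ), f m - k m ∈ KB n)
    (β : (Fin n → ℤ) → ℂ) (hβ : ∀ γ, Tendsto (fun m => ext (k m) γ) F (𝓝 (β γ)))
    (M : ℕ) (hM : 1 ≤ M) (θ₁ : Fin n → ℝ) (φ₁ : ℝ) (A₁ A₂ : Fin n → ℝ)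
    (hA₁ : ∑ j, A₁ j = 0) (hA₂ : ∑ j, A₂ j = 0) :
    0 ≤ 2 * (-(Complex.exp (φ₁ * Complex.I) - 1) * sm (⇑K0) M θ₁
        + 2 * (Complex.exp (φ₁ * Complex.I) * (1 - Real.cos φ₁ : ℝ)) * sm (⇑K1) M θ₁).re
      + Ev (ext (⇑p) + β) M θ₁ φ₁ A₁ + Ev (ext (⇑p) - β) M θ₁ φ₁ A₂ := by
  -- coefficients of f converge
  have hb : ∀ γ, Tendsto (fun m => ext (f m) γ) F (𝓝 (ext (⇑p) γ)) := by
    intro γ
    refine tendsto_const_nhds.congr' ?_
    obtain ⟨D, hD⟩ : ∃ D : ℕ, ∀ j, |γ j| ≤ (D:ℤ) := by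
      refine ⟨∑ j, (|γ j|).toNat, fun j => ?_⟩
      have h1 : |γ j| = ((|γ j|).toNat : ℤ) := (Int.toNat_of_nonneg (abs_nonneg _)).symm
      rw [h1]
      exact_mod_cast Finset.single_le_sum (f := fun j => (|γ j|).toNat) (fun _ _ => Nat.zero_le _) (Finset.mem_univ j)
    filter_upwards [(hcoef D).filter_mono hF] with m hm
    exact ((hm γ hD).1).symm
  -- the bound for the coefficient at `m`
  have hC : ∀ᶠ m : ℕ in (F : Filter ℕ), (m : ℝ) * (2 - (ext (f m) (fun _ => (m : ℤ))).re) ≤ 2 * (K0 0 - K1 0).re := by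
    filter_upwards [(hcoef 0).filter_mono hF, (eventually_ge_atTop 1).filter_mono hF] with m hm hm1
    have hmpos : (0:ℝ) < m := by exact_mod_cast hm1
    have h1 := (hm 0 (by intro j; simp)).2 1 le_rfl
    have h2 : ((0 : Fin n → ℤ) + fun _ => ((1:ℕ):ℤ) * (m:ℤ)) = fun _ => (m:ℤ) := by
      ext i; simp
    rw [h2] at h1
    have h3 : ext (⇑p) 0 = 1 := by
      unfold ext
      rw [if_pos (by intro j; simp)]
      exact hp0
    rw [neg_zero, h3, if_pos rfl, map_one] at h1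
    rw [h1]
    have h4 : (1 + 1 - 2 / (m:ℂ) * K0 0 + 2 / (m:ℂ) * K1 0) = ((2:ℝ):ℂ) - ((2/m : ℝ):ℂ) * (K0 0 - K1 0) := by
      push_cast; ring
    rw [h4, Complex.sub_re, Complex.re_ofReal_mul, Complex.ofReal_re]
    apply le_of_eq
    field_simp
    ring
  -- inequality for every L
  have hL : ∀ L : ℕ, 1 ≤ L → 0 ≤ 2 * (-((fM L 1 : ℂ) * Complex.exp (φ₁ * Complex.I) - 1) * sm (⇑K0) M θ₁
        + 2 * PK L φ₁ (-1) * sm (⇑K1) M θ₁).re
      + EE (ext (⇑p) + β) (RK M θ₁) (PK L φ₁) A₁ + EE (ext (⇑p) - β) (RK M θ₁) (PK L φ₁) A₂ := by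
    intro L hL
    refine two_sided hn F id hF f k hfk hfk' (ext (⇑p)) β hb hβ _ hC (RK M θ₁) (RK_nonneg hM θ₁)
      (PK L φ₁) (PK_nonneg hL φ₁) _ ?_ A₁ A₂ hA₁ hA₂
    refine tendsto_const_nhds.congr' ?_
    filter_upwards [(hcoef M).filter_mono hF, (eventually_gt_atTop M).filter_mono hF] with m hm hmM
    exact (BB_recovery hn p K0 K1 (f m) m M hmM hm hL θ₁ φ₁).symm
  -- limit
  have hf1 := fM_tendsto 1
  have hf2 := fM_tendsto 2
  have hlim := lim_aux (sm (⇑K0) M θ₁) (sm (⇑K1) M θ₁) (Complex.exp (φ₁ * Complex.I)) (Complex.exp (2 * φ₁ * Complex.I))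
    (Real.cos φ₁) (Real.sin φ₁) (smD (ext (⇑p) + β) M A₁ θ₁).re (smD (ext (⇑p) + β) M A₁ θ₁).im
    ((∑ j, A₁ j ^ 2) * (sm (ext (⇑p) + β) M θ₁).re) (smD (ext (⇑p) - β) M A₂ θ₁).re (smD (ext (⇑p) - β) M A₂ θ₁).im
    ((∑ j, A₂ j ^ 2) * (sm (ext (⇑p) - β) M θ₁).re) hf1 hf2
  have hge := ge_of_tendsto hlim (b := 0) (by
    filter_upwards [eventually_ge_atTop 1] with L hL1
    have := hL L hL1
    rw [EE_kernel _ _ hL1, EE_kernel _ _ hL1, PK_neg_one hL1] at this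
    exact this)
  unfold Ev
  have hexp : (((1:ℝ) : ℂ) * Complex.exp (φ₁ * Complex.I) - (1/2) * (((1:ℝ) : ℂ) * Complex.exp (2 * φ₁ * Complex.I)) - 1/2)
      = Complex.exp (φ₁ * Complex.I) * ((1 - Real.cos φ₁ : ℝ) : ℂ) := by
    have h1 : Complex.exp (2 * φ₁ * Complex.I) = Complex.exp (φ₁ * Complex.I) * Complex.exp (φ₁ * Complex.I) := by
      rw [← Complex.exp_add]; congr 1; ring
    have h2 : Complex.exp (φ₁ * Complex.I) * Complex.exp (-φ₁ * Complex.I) = 1 := by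
      rw [← Complex.exp_add]; simp
    rw [h1]
    push_cast
    rw [Complex.cos]
    linear_combination (1/2) * h2
  unfold gL at hge
  rw [hexp] at hge
  simp only [Complex.ofReal_one, one_mul] at hge
  exact hge

end

end Pool.Agent.Lib.MP_6ff8d9_an
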