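import Pool.Agent.Lib.MP_6ff8d9_an.Key

open Metric Filter Topology

namespace Pool.Agent.Lib.MP_6ff8d9_an

noncomputable section

/-- trigonometric sum over a finite set -/
def TS {n : ℕ} (S : Finset (Fin n → ℤ)) (c : (Fin n → ℤ) → ℂ) (θ : Fin n → ℝ) : ℂ :=
  ∑ γ ∈ S, c γ * cx γ θ

lemma norm_cx {n : ℕ} (γ : Fin n → ℤ) (θ : Fin n → ℝ) : ‖cx γ θ‖ = 1 := by
  unfold cx
  rw [mul_comm, Complex.norm_exp_ofReal_mul_I]

lemma box_sum {n M : ℕ} (hM : 1 ≤ M) (S : Finset (Fin n → ℤ)) (g : (Fin n → ℤ) → ℂ)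
    (hg : ∀ γ, γ ∉ S → g γ = 0) :
    ∑ γ ∈ box n M, (FM M γ : ℂ) * g γ = ∑ γ ∈ S, (FM M γ : ℂ) * g γ := by
  classical
  rw [← Finset.sum_filter_add_sum_filter_not (box n M) (· ∈ S), ← Finset.sum_filter_add_sum_filter_not S (· ∈ box n M)]
  have h1 : ∑ γ ∈ (box n M).filter (fun γ => γ ∉ S), (FM M γ : ℂ) * g γ = 0 := by
    apply Finset.sum_eq_zero
    intro γ hγ
    rw [hg γ (Finset.mem_filter.1 hγ).2, mul_zero]
  have h2 : ∑ γ ∈ S.filter (fun γ => γ ∉ box n M), (FM M γ : ℂ) * g γ = 0 := by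
    apply Finset.sum_eq_zero
    intro γ hγ
    rw [FM_eq_zero hM (Finset.mem_filter.1 hγ).2, Complex.ofReal_zero, zero_mul]
  rw [h1, h2, add_zero, add_zero]
  apply Finset.sum_congr
  · ext γ; simp only [Finset.mem_filter]; tauto
  · intro _ _; rfl

/-- the error of the Fejér smoothing -/
def er {n : ℕ} (S : Finset (Fin n → ℤ)) (c : (Fin n → ℤ) → ℂ) (M : ℕ) : ℝ :=
  ∑ γ ∈ S, |FM M γ - 1| * (‖c γ‖ * (1 + ∑ j, |(γ j : ℝ)|))

lemma er_tendsto {n : ℕ} (S : Finset (Fin n → ℤ)) (c : (Fin n → ℤ) → ℂ) :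
    Tendsto (er S c) atTop (𝓝 0) := by
  have h : Tendsto (fun M => ∑ γ ∈ S, |FM M γ - 1| * (‖c γ‖ * (1 + ∑ j, |(γ j : ℝ)|))) atTop
      (𝓝 (∑ γ ∈ S, 0 * (‖c γ‖ * (1 + ∑ j, |(γ j : ℝ)|)))) := by
    apply tendsto_finsetSum
    intro γ _
    apply Tendsto.mul_const
    have := ((FM_tendsto γ).sub_const 1).abs
    simpa using this
  have h0 : (∑ γ ∈ S, 0 * (‖c γ‖ * (1 + ∑ j, |(γ j : ℝ)|))) = (0:ℝ) := by simp
  rw [h0] at h
  exact h

lemma sm_close {n M : ℕ} (hM : 1 ≤ M) (S : Finset (Fin n → ℤ)) (c : (Fin n → ℤ) → ℂ)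
    (hc : ∀ γ, γ ∉ S → c γ = 0) (θ : Fin n → ℝ) : ‖sm c M θ - TS S c θ‖ ≤ er S c M := by
  have h1 : sm c M θ = ∑ γ ∈ S, (FM M γ : ℂ) * (c γ * cx γ θ) := by
    rw [← box_sum hM S (fun γ => c γ * cx γ θ) (by intro γ h; simp [hc γ h])]
    unfold sm
    apply Finset.sum_congr rfl
    intro γ _
    ring
  rw [h1, TS, ← Finset.sum_sub_distrib]
  refine (norm_sum_le _ _).trans (Finset.sum_le_sum fun γ _ => ?_)
  have h2 : (FM M γ : ℂ) * (c γ * cx γ θ) - c γ * cx γ θ = ((FM M γ - 1 : ℝ) : ℂ) * (c γ * cx γ θ) := by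
    push_cast; ring
  rw [h2, norm_mul, Complex.norm_real, norm_mul, norm_cx, mul_one, Real.norm_eq_abs]
  apply mul_le_mul_of_nonneg_left _ (abs_nonneg _)
  have h3 : 0 ≤ ∑ j, |(γ j : ℝ)| := Finset.sum_nonneg fun _ _ => abs_nonneg _
  nlinarith [norm_nonneg (c γ)]

lemma smD_close {n M : ℕ} (hM : 1 ≤ M) (S : Finset (Fin n → ℤ)) (c : (Fin n → ℤ) → ℂ)
    (hc : ∀ γ, γ ∉ S → c γ = 0) (A θ : Fin n → ℝ) (C : ℝ) (hA : ∀ j, |A j| ≤ C) (hC : 0 ≤ C) :
    ‖smD c M A θ - ∑ j, (A j : ℂ) * TS S (fun γ => (γ j : ℂ) * c γ) θ‖ ≤ C * er S c M := by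
  have h1 : smD c M A θ = ∑ γ ∈ S, (FM M γ : ℂ) * (((∑ j, (γ j : ℝ) * A j : ℝ) : ℂ) * c γ * cx γ θ) := by
    rw [← box_sum hM S (fun γ => ((∑ j, (γ j : ℝ) * A j : ℝ) : ℂ) * c γ * cx γ θ) (by intro γ h; simp [hc γ h])]
    unfold smD
    apply Finset.sum_congr rfl
    intro γ _
    ring
  have h2 : ∑ j, (A j : ℂ) * TS S (fun γ => (γ j : ℂ) * c γ) θ
      = ∑ γ ∈ S, (((∑ j, (γ j : ℝ) * A j : ℝ) : ℂ) * c γ * cx γ θ) := by
    simp only [TS, Finset.mul_sum]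
    rw [Finset.sum_comm]
    apply Finset.sum_congr rfl
    intro γ _
    push_cast
    rw [Finset.sum_mul, Finset.sum_mul]
    apply Finset.sum_congr rfl
    intro j _
    ring
  rw [h1, h2, ← Finset.sum_sub_distrib, er, Finset.mul_sum]
  refine (norm_sum_le _ _).trans (Finset.sum_le_sum fun γ _ => ?_)
  have h3 : (FM M γ : ℂ) * (((∑ j, (γ j : ℝ) * A j : ℝ) : ℂ) * c γ * cx γ θ) - ((∑ j, (γ j : ℝ) * A j : ℝ) : ℂ) * c γ * cx γ θ
      = ((FM M γ - 1 : ℝ) : ℂ) * (((∑ j, (γ j : ℝ) * A j : ℝ) : ℂ) * c γ * cx γ θ) := by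
    push_cast; ring
  rw [h3, norm_mul, Complex.norm_real, norm_mul, norm_mul, norm_cx, mul_one, Real.norm_eq_abs, Complex.norm_real,
    Real.norm_eq_abs]
  have h4 : |∑ j, (γ j : ℝ) * A j| ≤ C * ∑ j, |(γ j : ℝ)| := by
    refine (Finset.abs_sum_le_sum_abs _ _).trans ?_
    rw [Finset.mul_sum]
    apply Finset.sum_le_sum
    intro j _
    rw [abs_mul, mul_comm]
    exact mul_le_mul_of_nonneg_right (hA j) (abs_nonneg _)
  have h5 : 0 ≤ ∑ j, |(γ j : ℝ)| := Finset.sum_nonneg fun _ _ => abs_nonneg _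
  have h6 : |FM M γ - 1| * (|∑ j, (γ j : ℝ) * A j| * ‖c γ‖) ≤ |FM M γ - 1| * ((C * ∑ j, |(γ j : ℝ)|) * ‖c γ‖) := by
    apply mul_le_mul_of_nonneg_left _ (abs_nonneg _)
    exact mul_le_mul_of_nonneg_right h4 (norm_nonneg _)
  refine h6.trans ?_
  have h7 : C * (|FM M γ - 1| * (‖c γ‖ * (1 + ∑ j, |(γ j : ℝ)|))) - |FM M γ - 1| * ((C * ∑ j, |(γ j : ℝ)|) * ‖c γ‖)
      = C * |FM M γ - 1| * ‖c γ‖ := by ring
  have h8 : 0 ≤ C * |FM M γ - 1| * ‖c γ‖ := by positivity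
  linarith

/-- cast of exponents -/
def cz {n : ℕ} (γ : Fin n → ℕ) : Fin n → ℤ := fun j => (γ j : ℤ)

lemma cz_inj {n : ℕ} : Function.Injective (cz (n := n)) := by
  intro a b h
  ext j
  have := congrFun h j
  simpa [cz] using this

/-- integer support of a polynomial -/
def zs {n : ℕ} (p : (Fin n → ℕ) →₀ ℂ) : Finset (Fin n → ℤ) := p.support.image cz

lemma ext_cast {n : ℕ} (a : (Fin n → ℕ) → ℂ) (γ : Fin n → ℕ) : ext a (cz γ) = a γ := by
  unfold ext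
  rw [if_pos (by intro j; simp [cz])]
  congr 1

lemma ext_off {n : ℕ} (p : (Fin n → ℕ) →₀ ℂ) (γ : Fin n → ℤ) (h : γ ∉ zs p) : ext (⇑p) γ = 0 := by
  by_contra hne
  apply h
  unfold ext at hne
  split_ifs at hne with h1
  · unfold zs
    rw [Finset.mem_image]
    refine ⟨fun j => (γ j).toNat, Finsupp.mem_support_iff.2 hne, ?_⟩
    ext j
    exact Int.toNat_of_nonneg (h1 j)
  · exact absurd rfl hne

lemma gT_eq {n : ℕ} (p : (Fin n → ℕ) →₀ ℂ) (θ : Fin n → ℝ) : gT p θ = TS (zs p) (ext (⇑p)) θ := by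
  unfold gT TS zs
  rw [Finset.sum_image (fun _ _ _ _ h => cz_inj h), Finsupp.sum]
  apply Finset.sum_congr rfl
  intro γ _
  rw [ext_cast]
  simp [cx, cz]

lemma DD_eq {n : ℕ} (p : (Fin n → ℕ) →₀ ℂ) (j : Fin n) (θ : Fin n → ℝ) :
    DD p j θ = TS (zs p) (fun γ => (γ j : ℂ) * ext (⇑p) γ) θ := by
  unfold DD TS zs
  rw [Finset.sum_image (fun _ _ _ _ h => cz_inj h), Finsupp.sum]
  apply Finset.sum_congr rfl
  intro γ _
  dsimp only
  rw [ext_cast]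
  simp [cx, cz]

lemma evT_eq' {n : ℕ} (K : (Fin n → ℤ) →₀ ℂ) (θ : Fin n → ℝ) : evT K θ = TS K.support (⇑K) θ := rfl

lemma norm_TS_le {n : ℕ} (S : Finset (Fin n → ℤ)) (c : (Fin n → ℤ) → ℂ) (θ : Fin n → ℝ) :
    ‖TS S c θ‖ ≤ ∑ γ ∈ S, ‖c γ‖ := by
  refine (norm_sum_le _ _).trans (Finset.sum_le_sum fun γ _ => ?_)
  rw [norm_mul, norm_cx, mul_one]

lemma norm_sm_le {n M : ℕ} (hM : 1 ≤ M) (S : Finset (Fin n → ℤ)) (c : (Fin n → ℤ) → ℂ)
    (hc : ∀ γ, γ ∉ S → c γ = 0) (θ : Fin n → ℝ) : ‖sm c M θ‖ ≤ ∑ γ ∈ S, ‖c γ‖ := by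
  have h1 : sm c M θ = ∑ γ ∈ S, (FM M γ : ℂ) * (c γ * cx γ θ) := by
    rw [← box_sum hM S (fun γ => c γ * cx γ θ) (by intro γ h; simp [hc γ h])]
    unfold sm
    apply Finset.sum_congr rfl
    intro γ _
    ring
  rw [h1]
  refine (norm_sum_le _ _).trans (Finset.sum_le_sum fun γ _ => ?_)
  rw [norm_mul, Complex.norm_real, norm_mul, norm_cx, mul_one, Real.norm_eq_abs, abs_of_nonneg (FM_nonneg M γ)]
  exact mul_le_of_le_one_left (norm_nonneg _) (FM_le_one M γ)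

lemma smD_addA {n : ℕ} (c : (Fin n → ℤ) → ℂ) (M : ℕ) (A B θ : Fin n → ℝ) :
    smD c M (A + B) θ = smD c M A θ + smD c M B θ := by
  simp only [smD, ← Finset.sum_add_distrib]
  apply Finset.sum_congr rfl
  intro γ _
  have : (∑ j, (γ j : ℝ) * (A + B) j) = (∑ j, (γ j : ℝ) * A j) + ∑ j, (γ j : ℝ) * B j := by
    rw [← Finset.sum_add_distrib]
    apply Finset.sum_congr rfl
    intro j _
    simp [mul_add]
  rw [this]
  push_cast; ring

lemma smD_smulA {n : ℕ} (c : (Fin n → ℤ) → ℂ) (M : ℕ) (s : ℝ) (B θ : Fin n → ℝ) :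
    smD c M (s • B) θ = (s : ℂ) * smD c M B θ := by
  simp only [smD, Finset.mul_sum]
  apply Finset.sum_congr rfl
  intro γ _
  have : (∑ j, (γ j : ℝ) * (s • B) j) = s * ∑ j, (γ j : ℝ) * B j := by
    rw [Finset.mul_sum]
    apply Finset.sum_congr rfl
    intro j _
    simp; ring
  rw [this]
  push_cast; ring

/-- direction `e_i - e_j` -/
def tt {n : ℕ} (i j : Fin n) : Fin n → ℝ := Pi.single i 1 - Pi.single j 1

lemma tt_sum {n : ℕ} (i j : Fin n) : ∑ l, tt i j l = 0 := by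
  simp [tt]

lemma tt_dot {n : ℕ} (i j : Fin n) (A : Fin n → ℝ) : ∑ l, A l * tt i j l = A i - A j := by
  simp [tt, mul_sub, Pi.single_apply]

lemma tt_sq {n : ℕ} {i j : Fin n} (h : i ≠ j) : ∑ l, tt i j l ^ 2 = 2 := by
  have : ∀ l, tt i j l ^ 2 = tt i j l * tt i j l := fun l => sq _
  simp only [this]
  rw [tt_dot]
  simp [tt, h, h.symm]
  norm_num

lemma quad_bound {D v U : ℝ} (h : ∀ s : ℝ, 0 ≤ D + s * v + 2 * U * s ^ 2) : v ^ 2 ≤ 8 * U * D := by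
  have := discrim_le_zero (a := 2 * U) (b := v) (c := D) (by
    intro s
    have := h s
    linarith [this, sq s])
  unfold discrim at this
  linarith


/-- the optimal displacement -/
def A0 {n : ℕ} (p : (Fin n → ℕ) →₀ ℂ) (θ : Fin n → ℝ) (φ : ℝ) (j : Fin n) : ℝ :=
  -((1 - Real.cos φ) * (DP p j θ).re - Real.sin φ * (DP p j θ).im) / (2 * (gT p θ).re)

lemma DP_sum {n : ℕ} (hn : 1 ≤ n) (p : (Fin n → ℕ) →₀ ℂ) (θ : Fin n → ℝ) : ∑ j, DP p j θ = 0 := by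
  unfold DP
  rw [Finset.sum_sub_distrib]
  simp only [Finset.sum_const, Finset.card_univ, Fintype.card_fin, nsmul_eq_mul]
  have : (n:ℂ) ≠ 0 := by exact_mod_cast (by omega : n ≠ 0)
  field_simp
  ring

lemma A0_sum {n : ℕ} (hn : 1 ≤ n) (p : (Fin n → ℕ) →₀ ℂ) (θ : Fin n → ℝ) (φ : ℝ) :
    ∑ j, A0 p θ φ j = 0 := by
  unfold A0
  rw [← Finset.sum_div, Finset.sum_neg_distrib, Finset.sum_sub_distrib, ← Finset.mul_sum, ← Finset.mul_sum,
    ← Complex.re_sum, ← Complex.im_sum, DP_sum hn]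
  simp

lemma A0_exact {n : ℕ} (hn : 1 ≤ n) (p : (Fin n → ℕ) →₀ ℂ) (θ : Fin n → ℝ) (φ : ℝ) (hu : 0 < (gT p θ).re) :
    (∑ j, A0 p θ φ j * ((1 - Real.cos φ) * (DD p j θ).re - Real.sin φ * (DD p j θ).im))
      + (∑ j, A0 p θ φ j ^ 2) * (gT p θ).re = -((1 - Real.cos φ) * kstar p θ φ) := by
  set u := (gT p θ).re with hudef
  set m0 : ℂ := (∑ i, DD p i θ) / n with hm0
  have hDD : ∀ j, DD p j θ = DP p j θ + m0 := by
    intro j; unfold DP; ring
  have h1 : (∑ j, A0 p θ φ j * ((1 - Real.cos φ) * (DD p j θ).re - Real.sin φ * (DD p j θ).im))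
      = ∑ j, A0 p θ φ j * ((1 - Real.cos φ) * (DP p j θ).re - Real.sin φ * (DP p j θ).im) := by
    have h2 : ∀ j, A0 p θ φ j * ((1 - Real.cos φ) * (DD p j θ).re - Real.sin φ * (DD p j θ).im)
        = A0 p θ φ j * ((1 - Real.cos φ) * (DP p j θ).re - Real.sin φ * (DP p j θ).im)
          + A0 p θ φ j * ((1 - Real.cos φ) * m0.re - Real.sin φ * m0.im) := by
      intro j
      rw [hDD j, Complex.add_re, Complex.add_im]; ring
    rw [Finset.sum_congr rfl (fun j _ => h2 j), Finset.sum_add_distrib, ← Finset.sum_mul, A0_sum hn, zero_mul, add_zero]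
  rw [h1]
  have hk : (1 - Real.cos φ) * kstar p θ φ
      = (∑ j, ((1 - Real.cos φ) * (DP p j θ).re - Real.sin φ * (DP p j θ).im) ^ 2) / (4 * u) := by
    unfold kstar
    rw [← mul_div_assoc]
    congr 1
    rw [map_sum, Finset.mul_sum, Complex.re_sum, ← Finset.sum_sub_distrib, Finset.mul_sum]
    apply Finset.sum_congr rfl
    intro j _
    generalize DP p j θ = z
    have h3 : (Complex.exp (φ * Complex.I) * (starRingEnd ℂ) (z ^ 2)).re
        = Real.cos φ * (z.re ^ 2 - z.im ^ 2) + Real.sin φ * (2 * z.re * z.im) := by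
      rw [Complex.mul_re, Complex.exp_ofReal_mul_I_re, Complex.exp_ofReal_mul_I_im, Complex.conj_re, Complex.conj_im,
        sq, Complex.mul_re, Complex.mul_im]
      ring
    rw [h3, Complex.sq_norm, Complex.normSq_apply]
    have h4 := Real.sin_sq_add_cos_sq φ
    have h5 : Real.sin φ ^ 2 = 1 - Real.cos φ ^ 2 := by linarith
    ring_nf
    rw [h5]
    ring
  rw [hk]
  unfold A0
  rw [← hudef, Finset.sum_div, Finset.sum_mul, ← Finset.sum_add_distrib, ← Finset.sum_neg_distrib]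
  apply Finset.sum_congr rfl
  intro j _
  have hu' : u ≠ 0 := hu.ne'
  field_simp
  ring

lemma A0_bound {n : ℕ} (p : (Fin n → ℕ) →₀ ℂ) {δ : ℝ} (hδ : 0 < δ) (hpos : ∀ θ, δ ≤ (gT p θ).re) :
    ∃ C : ℝ, 0 ≤ C ∧ ∀ θ φ j, |A0 p θ φ j| ≤ C := by
  set S : Fin n → ℝ := fun j => ∑ γ ∈ zs p, ‖(γ j : ℂ) * ext (⇑p) γ‖ with hS
  have hS0 : ∀ j, 0 ≤ S j := fun j => Finset.sum_nonneg fun _ _ => norm_nonneg _
  have hDD : ∀ j θ, ‖DD p j θ‖ ≤ S j := by
    intro j θ; rw [DD_eq]; exact norm_TS_le _ _ _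
  have hDP : ∀ j θ, ‖DP p j θ‖ ≤ 2 * ∑ i, S i := by
    intro j θ
    unfold DP
    have h1 : ‖(∑ i, DD p i θ) / (n:ℂ)‖ ≤ ∑ i, S i := by
      rw [norm_div]
      have hn : (1:ℝ) ≤ ‖(n:ℂ)‖ := by
        rw [Complex.norm_natCast]
        have : 1 ≤ n := by have := j.2; omega
        exact_mod_cast this
      have h2 : ‖∑ i, DD p i θ‖ ≤ ∑ i, S i := (norm_sum_le _ _).trans (Finset.sum_le_sum fun i _ => hDD i θ)
      exact (div_le_self (norm_nonneg _) hn).trans h2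
    have h3 : S j ≤ ∑ i, S i := Finset.single_le_sum (fun i _ => hS0 i) (Finset.mem_univ j)
    have := norm_sub_le (DD p j θ) ((∑ i, DD p i θ) / (n:ℂ))
    linarith [hDD j θ]
  have hSn : 0 ≤ ∑ i, S i := Finset.sum_nonneg fun i _ => hS0 i
  refine ⟨(3 * (2 * ∑ i, S i)) / (2 * δ), by positivity, ?_⟩
  intro θ φ j
  unfold A0
  rw [abs_div, abs_neg]
  have h1 : |(1 - Real.cos φ) * (DP p j θ).re - Real.sin φ * (DP p j θ).im| ≤ 3 * (2 * ∑ i, S i) := by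
    have h2 := Complex.abs_re_le_norm (DP p j θ)
    have h3 := Complex.abs_im_le_norm (DP p j θ)
    have h4 := hDP j θ
    have h5 : |(1 - Real.cos φ) * (DP p j θ).re| ≤ 2 * (2 * ∑ i, S i) := by
      rw [abs_mul]
      apply mul_le_mul _ (h2.trans h4) (abs_nonneg _) (by norm_num)
      rw [abs_le]; constructor <;> linarith [Real.neg_one_le_cos φ, Real.cos_le_one φ]
    have h6 : |Real.sin φ * (DP p j θ).im| ≤ 1 * (2 * ∑ i, S i) := by
      rw [abs_mul]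
      exact mul_le_mul (Real.abs_sin_le_one φ) (h3.trans h4) (abs_nonneg _) (by norm_num)
    have := abs_sub ((1 - Real.cos φ) * (DP p j θ).re) (Real.sin φ * (DP p j θ).im)
    linarith
  have h2 : 2 * δ ≤ |2 * (gT p θ).re| := by
    rw [abs_of_pos (by linarith [hpos θ] : 0 < 2 * (gT p θ).re)]
    linarith [hpos θ]
  exact div_le_div₀ (by positivity) h1 (by positivity) h2

/-- the defect -/
def Df {n : ℕ} (p : (Fin n → ℕ) →₀ ℂ) (K0 K1 : (Fin n → ℤ) →₀ ℂ) (M : ℕ) (θ : Fin n → ℝ) (φ : ℝ) : ℝ :=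
  (-(Complex.exp (φ * Complex.I) - 1) * sm (⇑K0) M θ
        + 2 * (Complex.exp (φ * Complex.I) * (1 - Real.cos φ : ℝ)) * sm (⇑K1) M θ).re
    + ((1 - Real.cos φ) * (smD (ext (⇑p)) M (A0 p θ φ) θ).re - Real.sin φ * (smD (ext (⇑p)) M (A0 p θ φ) θ).im)
    + (∑ j, A0 p θ φ j ^ 2) * (sm (ext (⇑p)) M θ).re

lemma norm_exp_sub_one_le (φ : ℝ) : ‖-(Complex.exp (φ * Complex.I) - 1)‖ ≤ 2 := by
  rw [norm_neg]
  refine (norm_sub_le _ _).trans ?_
  rw [Complex.norm_exp_ofReal_mul_I, norm_one]; norm_num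

lemma Df_le {n : ℕ} (hn : 1 ≤ n) (p : (Fin n → ℕ) →₀ ℂ) {δ : ℝ} (hδ : 0 < δ) (hpos : ∀ θ, δ ≤ (gT p θ).re)
    (K0 K1 : (Fin n → ℤ) →₀ ℂ) {ε : ℝ} (hε : 0 < ε)
    (hK0 : ∀ θ : Fin n → ℝ, (evT K0 θ).im = 0)
    (hK : ∀ (θ : Fin n → ℝ) (φ : ℝ), (evT K0 θ).re + 2 * (evT K1 θ * Complex.exp (φ * Complex.I)).re
        ≤ kstar p θ φ + ε) :
    ∀ᶠ M in atTop, ∀ θ φ, Df p K0 K1 M θ φ ≤ 3 * ε := by
  obtain ⟨C, hC0, hC⟩ := A0_bound p hδ hpos
  have hlim : Tendsto (fun M : ℕ => 2 * er K0.support (⇑K0) M + 4 * er K1.support (⇑K1) M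
      + 3 * (C * er (zs p) (ext (⇑p)) M) + (n * C^2) * er (zs p) (ext (⇑p)) M) atTop (𝓝 (2 * 0 + 4 * 0 + 3 * (C * 0) + (n * C^2) * 0)) := by
    have h1 := er_tendsto K0.support (⇑K0)
    have h2 := er_tendsto K1.support (⇑K1)
    have h3 := er_tendsto (zs p) (ext (⇑p))
    exact (((h1.const_mul 2).add (h2.const_mul 4)).add ((h3.const_mul C).const_mul 3)).add (h3.const_mul _)
  have hev : ∀ᶠ M : ℕ in atTop, 2 * er K0.support (⇑K0) M + 4 * er K1.support (⇑K1) M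
      + 3 * (C * er (zs p) (ext (⇑p)) M) + (n * C^2) * er (zs p) (ext (⇑p)) M < ε := by
    apply hlim.eventually_lt_const
    linarith
  filter_upwards [hev, eventually_ge_atTop 1] with M hM hM1 θ φ
  have hu : 0 < (gT p θ).re := lt_of_lt_of_le hδ (hpos θ)
  have e0 := sm_close hM1 K0.support (⇑K0) (fun γ h => Finsupp.notMem_support_iff.1 h) θ
  have e1 := sm_close hM1 K1.support (⇑K1) (fun γ h => Finsupp.notMem_support_iff.1 h) θ
  have e2 := sm_close hM1 (zs p) (ext (⇑p)) (ext_off p) θ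
  have e3 := smD_close hM1 (zs p) (ext (⇑p)) (ext_off p) (A0 p θ φ) θ C (hC θ φ) hC0
  rw [← evT_eq'] at e0 e1
  rw [← gT_eq] at e2
  have hDDs : ∑ j, (A0 p θ φ j : ℂ) * TS (zs p) (fun γ => (γ j : ℂ) * ext (⇑p) γ) θ
      = ∑ j, (A0 p θ φ j : ℂ) * DD p j θ := by
    apply Finset.sum_congr rfl
    intro j _
    rw [DD_eq]
  rw [hDDs] at e3
  have hex := A0_exact hn p θ φ hu
  -- first term
  have t1 : (-(Complex.exp (φ * Complex.I) - 1) * sm (⇑K0) M θ).re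
      ≤ (1 - Real.cos φ) * (evT K0 θ).re + 2 * er K0.support (⇑K0) M := by
    have h1 : (-(Complex.exp (φ * Complex.I) - 1) * sm (⇑K0) M θ)
        = (-(Complex.exp (φ * Complex.I) - 1)) * evT K0 θ + (-(Complex.exp (φ * Complex.I) - 1)) * (sm (⇑K0) M θ - evT K0 θ) := by ring
    rw [h1, Complex.add_re]
    have h2 : ((-(Complex.exp (φ * Complex.I) - 1)) * evT K0 θ).re = (1 - Real.cos φ) * (evT K0 θ).re := by
      rw [Complex.mul_re, hK0 θ, mul_zero, sub_zero, Complex.neg_re, Complex.sub_re, Complex.exp_ofReal_mul_I_re, Complex.one_re]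
      ring
    have h3 : ((-(Complex.exp (φ * Complex.I) - 1)) * (sm (⇑K0) M θ - evT K0 θ)).re ≤ 2 * er K0.support (⇑K0) M := by
      refine (Complex.re_le_norm _).trans ?_
      rw [norm_mul]
      exact mul_le_mul (norm_exp_sub_one_le φ) e0 (norm_nonneg _) (by norm_num)
    linarith
  have t2 : (2 * (Complex.exp (φ * Complex.I) * (1 - Real.cos φ : ℝ)) * sm (⇑K1) M θ).re
      ≤ (1 - Real.cos φ) * (2 * (evT K1 θ * Complex.exp (φ * Complex.I)).re) + 4 * er K1.support (⇑K1) M := by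
    have h1 : (2 * (Complex.exp (φ * Complex.I) * (1 - Real.cos φ : ℝ)) * sm (⇑K1) M θ)
        = ((2 * (1 - Real.cos φ) : ℝ) : ℂ) * (evT K1 θ * Complex.exp (φ * Complex.I))
          + (((2 * (1 - Real.cos φ) : ℝ) : ℂ) * Complex.exp (φ * Complex.I)) * (sm (⇑K1) M θ - evT K1 θ) := by
      push_cast; ring
    rw [h1, Complex.add_re, Complex.re_ofReal_mul]
    have h3 : ((((2 * (1 - Real.cos φ) : ℝ) : ℂ) * Complex.exp (φ * Complex.I)) * (sm (⇑K1) M θ - evT K1 θ)).re ≤ 4 * er K1.support (⇑K1) M := by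
      refine (Complex.re_le_norm _).trans ?_
      rw [norm_mul, norm_mul, Complex.norm_exp_ofReal_mul_I, mul_one, Complex.norm_real, Real.norm_eq_abs]
      apply mul_le_mul _ e1 (norm_nonneg _) (by norm_num)
      rw [abs_le]; constructor <;> linarith [Real.neg_one_le_cos φ, Real.cos_le_one φ]
    linarith
  have t3 : (1 - Real.cos φ) * (smD (ext (⇑p)) M (A0 p θ φ) θ).re - Real.sin φ * (smD (ext (⇑p)) M (A0 p θ φ) θ).im
      ≤ (∑ j, A0 p θ φ j * ((1 - Real.cos φ) * (DD p j θ).re - Real.sin φ * (DD p j θ).im))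
        + 3 * (C * er (zs p) (ext (⇑p)) M) := by
    set z := smD (ext (⇑p)) M (A0 p θ φ) θ with hz
    set z0 := ∑ j, (A0 p θ φ j : ℂ) * DD p j θ with hz0
    have h1 : (∑ j, A0 p θ φ j * ((1 - Real.cos φ) * (DD p j θ).re - Real.sin φ * (DD p j θ).im))
        = (1 - Real.cos φ) * z0.re - Real.sin φ * z0.im := by
      rw [hz0, Complex.re_sum, Complex.im_sum, Finset.mul_sum, Finset.mul_sum, ← Finset.sum_sub_distrib]
      apply Finset.sum_congr rfl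
      intro j _
      rw [Complex.re_ofReal_mul, Complex.im_ofReal_mul]; ring
    rw [h1]
    have h2 := Complex.abs_re_le_norm (z - z0)
    have h3 := Complex.abs_im_le_norm (z - z0)
    rw [Complex.sub_re] at h2
    rw [Complex.sub_im] at h3
    have h4 : |(1 - Real.cos φ) * (z.re - z0.re)| ≤ 2 * (C * er (zs p) (ext (⇑p)) M) := by
      rw [abs_mul]
      apply mul_le_mul _ (h2.trans e3) (abs_nonneg _) (by norm_num)
      rw [abs_le]; constructor <;> linarith [Real.neg_one_le_cos φ, Real.cos_le_one φ]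
    have h5 : |Real.sin φ * (z.im - z0.im)| ≤ 1 * (C * er (zs p) (ext (⇑p)) M) := by
      rw [abs_mul]
      exact mul_le_mul (Real.abs_sin_le_one φ) (h3.trans e3) (abs_nonneg _) (by norm_num)
    have h6 := (abs_le.1 h4).2
    have h7 := (abs_le.1 h5).1
    linarith
  have t4 : (∑ j, A0 p θ φ j ^ 2) * (sm (ext (⇑p)) M θ).re
      ≤ (∑ j, A0 p θ φ j ^ 2) * (gT p θ).re + (n * C^2) * er (zs p) (ext (⇑p)) M := by
    have h1 : (sm (ext (⇑p)) M θ).re ≤ (gT p θ).re + er (zs p) (ext (⇑p)) M := by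
      have := (Complex.re_le_norm (sm (ext (⇑p)) M θ - gT p θ)).trans e2
      rw [Complex.sub_re] at this
      linarith
    have h2 : 0 ≤ ∑ j, A0 p θ φ j ^ 2 := Finset.sum_nonneg fun _ _ => sq_nonneg _
    have h3 : ∑ j, A0 p θ φ j ^ 2 ≤ n * C ^ 2 := by
      have : ∀ j ∈ Finset.univ, A0 p θ φ j ^ 2 ≤ C ^ 2 := by
        intro j _
        rw [← sq_abs]
        exact pow_le_pow_left₀ (abs_nonneg _) (hC θ φ j) 2
      refine (Finset.sum_le_sum this).trans ?_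
      simp
    have h4 : 0 ≤ er (zs p) (ext (⇑p)) M := (norm_nonneg _).trans e2
    have h5 := mul_le_mul_of_nonneg_left h1 h2
    have h6 := mul_le_mul_of_nonneg_right h3 h4
    linarith
  have hKK := hK θ φ
  have hc1 : 0 ≤ 1 - Real.cos φ := by linarith [Real.cos_le_one φ]
  have hc2 : 1 - Real.cos φ ≤ 2 := by linarith [Real.neg_one_le_cos φ]
  have hKK2 := mul_le_mul_of_nonneg_left hKK hc1
  have hKK3 := mul_le_mul_of_nonneg_right hc2 hε.le
  unfold Df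
  rw [Complex.add_re]
  have e5 : (1 - Real.cos φ) * ((evT K0 θ).re + 2 * (evT K1 θ * Complex.exp (φ * Complex.I)).re)
    = (1 - Real.cos φ) * (evT K0 θ).re + (1 - Real.cos φ) * (2 * (evT K1 θ * Complex.exp (φ * Complex.I)).re) := by ring
  rw [e5] at hKK2
  have e6 : (1 - Real.cos φ) * (kstar p θ φ + ε) = (1 - Real.cos φ) * kstar p θ φ + (1 - Real.cos φ) * ε := by ring
  rw [e6] at hKK2
  linarith

end

end Pool.Agent.Lib.MP_6ff8d9_an
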