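import Pool.Agent.Lib.MP_6ff8d9_an.Rigid

open Metric Filter Topology

namespace Pool.Agent.Lib.MP_6ff8d9_an

noncomputable section

/-- the error `D^k_τ - ψ D^0_τ` -/
def Er {n : ℕ} (p : (Fin n → ℕ) →₀ ℂ) (β : (Fin n → ℤ) → ℂ) (M : ℕ) (i j : Fin n) (θ : Fin n → ℝ) : ℂ :=
  smD β M (tt i j) θ - (((sm β M θ).re / (gT p θ).re : ℝ) : ℂ) * (DD p i θ - DD p j θ)

lemma Ev_add {n : ℕ} (b c : (Fin n → ℤ) → ℂ) (M : ℕ) (θ : Fin n → ℝ) (φ : ℝ) (A : Fin n → ℝ) :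
    Ev (b + c) M θ φ A = Ev b M θ φ A + Ev c M θ φ A := by
  unfold Ev
  rw [smD_add, sm_add, Complex.add_re, Complex.add_re, Complex.add_im]
  ring

lemma Ev_sub {n : ℕ} (b c : (Fin n → ℤ) → ℂ) (M : ℕ) (θ : Fin n → ℝ) (φ : ℝ) (A : Fin n → ℝ) :
    Ev (b - c) M θ φ A = Ev b M θ φ A - Ev c M θ φ A := by
  unfold Ev
  rw [smD_sub, sm_sub, Complex.sub_re, Complex.sub_re, Complex.sub_im]
  ring

lemma Ev_shift {n : ℕ} (c : (Fin n → ℤ) → ℂ) (M : ℕ) (θ : Fin n → ℝ) (φ : ℝ) (A : Fin n → ℝ) {i j : Fin n}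
    (hij : i ≠ j) (s : ℝ) :
    Ev c M θ φ (A + s • tt i j) = Ev c M θ φ A
      + s * ((1 - Real.cos φ) * (smD c M (tt i j) θ).re - Real.sin φ * (smD c M (tt i j) θ).im
        + 2 * (A i - A j) * (sm c M θ).re) + 2 * s ^ 2 * (sm c M θ).re := by
  unfold Ev
  have h1 : ∑ l, (A + s • tt i j) l ^ 2 = (∑ l, A l ^ 2) + 2 * s * (A i - A j) + 2 * s ^ 2 := by
    have h2 : ∀ l, (A + s • tt i j) l ^ 2 = A l ^ 2 + 2 * s * (A l * tt i j l) + s ^ 2 * tt i j l ^ 2 := by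
      intro l
      simp only [Pi.add_apply, Pi.smul_apply, smul_eq_mul]
      ring
    rw [Finset.sum_congr rfl (fun l _ => h2 l), Finset.sum_add_distrib, Finset.sum_add_distrib, ← Finset.mul_sum,
      ← Finset.mul_sum, tt_dot, tt_sq hij]
    ring
  rw [h1, smD_addA, smD_smulA, Complex.add_re, Complex.add_im, Complex.re_ofReal_mul, Complex.im_ofReal_mul]
  ring

theorem key_quad {n : ℕ} (hn : 1 ≤ n) (p : (Fin n → ℕ) →₀ ℂ) (β : (Fin n → ℤ) → ℂ)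
    (K0 K1 : (Fin n → ℤ) →₀ ℂ) (M : ℕ) (θ : Fin n → ℝ) (φ : ℝ) (hu : 0 < (gT p θ).re)
    (key : ∀ A₁ A₂ : Fin n → ℝ, ∑ j, A₁ j = 0 → ∑ j, A₂ j = 0 →
      0 ≤ 2 * (-(Complex.exp (φ * Complex.I) - 1) * sm (⇑K0) M θ
        + 2 * (Complex.exp (φ * Complex.I) * (1 - Real.cos φ : ℝ)) * sm (⇑K1) M θ).re
      + Ev (ext (⇑p) + β) M θ φ A₁ + Ev (ext (⇑p) - β) M θ φ A₂) {i j : Fin n} (hij : i ≠ j) :
    ((1 - Real.cos φ) * (Er p β M i j θ).re - Real.sin φ * (Er p β M i j θ).im) ^ 2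
      ≤ 8 * (sm (ext (⇑p)) M θ).re * Df p K0 K1 M θ φ ∧ 0 ≤ Df p K0 K1 M θ φ := by
  have hq : ∀ s : ℝ, 0 ≤ Df p K0 K1 M θ φ
      + s * ((1 - Real.cos φ) * (Er p β M i j θ).re - Real.sin φ * (Er p β M i j θ).im)
      + 2 * (sm (ext (⇑p)) M θ).re * s ^ 2 := by
    intro s
    have h1 := key (A0 p θ φ + s • tt i j) (A0 p θ φ + (-s) • tt i j) (by
      simp only [Pi.add_apply, Pi.smul_apply, smul_eq_mul]
      rw [Finset.sum_add_distrib, ← Finset.mul_sum, tt_sum, A0_sum hn]; simp) (by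
      simp only [Pi.add_apply, Pi.smul_apply, smul_eq_mul]
      rw [Finset.sum_add_distrib, ← Finset.mul_sum, tt_sum, A0_sum hn]; simp)
    rw [Ev_shift _ _ _ _ _ hij, Ev_shift _ _ _ _ _ hij, Ev_add, Ev_sub, sm_add, sm_sub, smD_add, smD_sub] at h1
    simp only [Complex.add_re, Complex.sub_re, Complex.add_im, Complex.sub_im] at h1
    have h2 : (Er p β M i j θ).re = (smD β M (tt i j) θ).re - (sm β M θ).re / (gT p θ).re * ((DP p i θ).re - (DP p j θ).re) := by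
      unfold Er DP
      rw [Complex.sub_re, Complex.re_ofReal_mul, Complex.sub_re, Complex.sub_re, Complex.sub_re]
      ring
    have h3 : (Er p β M i j θ).im = (smD β M (tt i j) θ).im - (sm β M θ).re / (gT p θ).re * ((DP p i θ).im - (DP p j θ).im) := by
      unfold Er DP
      rw [Complex.sub_im, Complex.im_ofReal_mul, Complex.sub_im, Complex.sub_im, Complex.sub_im]
      ring
    have h4 : A0 p θ φ i - A0 p θ φ j = -((1 - Real.cos φ) * ((DP p i θ).re - (DP p j θ).re)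
        - Real.sin φ * ((DP p i θ).im - (DP p j θ).im)) / (2 * (gT p θ).re) := by
      unfold A0
      ring
    rw [h2, h3]
    rw [h4] at h1
    unfold Df
    simp only [Complex.add_re]
    unfold Ev at h1
    have hu' := hu.ne'
    set u := (gT p θ).re
    set W := (sm β M θ).re
    have e1 : 2 * (-((1 - Real.cos φ) * ((DP p i θ).re - (DP p j θ).re)
        - Real.sin φ * ((DP p i θ).im - (DP p j θ).im)) / (2 * u)) * W
        = - ((1 - Real.cos φ) * (W / u * ((DP p i θ).re - (DP p j θ).re)) - Real.sin φ * (W / u * ((DP p i θ).im - (DP p j θ).im))) := by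
      field_simp
    have e2 : ∀ x y : ℝ, 2 * (-((1 - Real.cos φ) * ((DP p i θ).re - (DP p j θ).re)
        - Real.sin φ * ((DP p i θ).im - (DP p j θ).im)) / (2 * u)) * (x + y)
        = 2 * (-((1 - Real.cos φ) * ((DP p i θ).re - (DP p j θ).re)
        - Real.sin φ * ((DP p i θ).im - (DP p j θ).im)) / (2 * u)) * x + 2 * (-((1 - Real.cos φ) * ((DP p i θ).re - (DP p j θ).re)
        - Real.sin φ * ((DP p i θ).im - (DP p j θ).im)) / (2 * u)) * y := by intro x y; ring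
    have e3 : ∀ x y : ℝ, 2 * (-((1 - Real.cos φ) * ((DP p i θ).re - (DP p j θ).re)
        - Real.sin φ * ((DP p i θ).im - (DP p j θ).im)) / (2 * u)) * (x - y)
        = 2 * (-((1 - Real.cos φ) * ((DP p i θ).re - (DP p j θ).re)
        - Real.sin φ * ((DP p i θ).im - (DP p j θ).im)) / (2 * u)) * x - 2 * (-((1 - Real.cos φ) * ((DP p i θ).re - (DP p j θ).re)
        - Real.sin φ * ((DP p i θ).im - (DP p j θ).im)) / (2 * u)) * y := by intro x y; ring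
    rw [e2, e3, e1] at h1
    linarith [h1]
  refine ⟨quad_bound hq, ?_⟩
  have := hq 0
  simpa using this

theorem key_local {n : ℕ} (hn : 1 ≤ n) (p : (Fin n → ℕ) →₀ ℂ) (hp0 : p 0 = 1) {δ : ℝ} (hδ : 0 < δ)
    (hpos : ∀ θ, δ ≤ (gT p θ).re)
    (K0 K1 : (Fin n → ℤ) →₀ ℂ) {ε : ℝ} (hε : 0 < ε)
    (hK0 : ∀ θ : Fin n → ℝ, (evT K0 θ).im = 0)
    (hK : ∀ (θ : Fin n → ℝ) (φ : ℝ), (evT K0 θ).re + 2 * (evT K1 θ * Complex.exp (φ * Complex.I)).re
        ≤ kstar p θ φ + ε)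
    (f k : ℕ → (Fin n → ℕ) → ℂ)
    (F : Ultrafilter ℕ) (hF : (F : Filter ℕ) ≤ atTop)
    (hcoef : ∀ D : ℕ, ∀ᶠ m : ℕ in atTop, ∀ γ : Fin n → ℤ, (∀ j, |γ j| ≤ D) →
        ext (f m) γ = ext (⇑p) γ ∧
        ∀ l : ℕ, 1 ≤ l → ext (f m) (γ + fun _ => (l : ℤ) * m) =
          ext (⇑p) γ + (starRingEnd ℂ) (ext (⇑p) (-γ)) - (2 / m) * K0 γ
            + (if l = 1 then (2 / m) * K1 γ else 0))
    (hfk : ∀ᶠ m in (F : Filter ℕ), f m + k m ∈ KB n) (hfk' : ∀ᶠ m in (F : Filter ℕ), f m - k m ∈ KB n)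
    (β : (Fin n → ℤ) → ℂ) (hβ : ∀ γ, Tendsto (fun m => ext (k m) γ) F (𝓝 (β γ))) :
    ∀ᶠ M in atTop, ∀ θ, ∀ i j : Fin n, i ≠ j →
      ‖Er p β M i j θ‖ ^ 2 ≤ 66 * ε * ∑ γ ∈ zs p, ‖ext (⇑p) γ‖ := by
  filter_upwards [Df_le hn p hδ hpos K0 K1 hε hK0 hK, eventually_ge_atTop 1] with M hM hM1 θ i j hij
  have hu : 0 < (gT p θ).re := lt_of_lt_of_le hδ (hpos θ)
  have h1 := fun φ => key_quad hn p β K0 K1 M θ φ hu
    (fun A₁ A₂ hA₁ hA₂ => key_ineq hn p hp0 K0 K1 f k F hF hcoef hfk hfk' β hβ M hM1 θ φ A₁ A₂ hA₁ hA₂) hij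
  set B := ∑ γ ∈ zs p, ‖ext (⇑p) γ‖ with hB
  have hB0 : 0 ≤ B := Finset.sum_nonneg fun _ _ => norm_nonneg _
  have hU : (sm (ext (⇑p)) M θ).re ≤ B :=
    (Complex.re_le_norm _).trans (norm_sm_le hM1 (zs p) (ext (⇑p)) (ext_off p) θ)
  have h2 : ∀ φ, ((1 - Real.cos φ) * (Er p β M i j θ).re - Real.sin φ * (Er p β M i j θ).im) ^ 2 ≤ 24 * ε * B := by
    intro φ
    have h3 := (h1 φ).1
    have h4 := (h1 φ).2
    have h5 := hM θ φ
    have h6 := mul_le_mul_of_nonneg_right hU h4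
    have h7 := mul_le_mul_of_nonneg_left h5 hB0
    nlinarith
  have h3 := h2 Real.pi
  have h4 := h2 (Real.pi / 2)
  rw [Real.cos_pi, Real.sin_pi] at h3
  rw [Real.cos_pi_div_two, Real.sin_pi_div_two] at h4
  rw [Complex.sq_norm, Complex.normSq_apply]
  generalize (Er p β M i j θ).re = x at *
  generalize (Er p β M i j θ).im = y at *
  have h5 : y ^ 2 ≤ 2 * x ^ 2 + 2 * (x - y) ^ 2 := by nlinarith [sq_nonneg (2 * x - y)]
  nlinarith

end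

end Pool.Agent.Lib.MP_6ff8d9_an
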