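import Pool.Agent.Lib.MP_6ff8d9_an.Four3

open Metric Filter Topology MeasureTheory

namespace Pool.Agent.Lib.MP_6ff8d9_an

noncomputable section

/-- the statement of T4 -/
def RecoveryStatement (n : ℕ) : Prop :=
  ∀ (p : (Fin n → ℕ) →₀ ℂ) (_ : p 0 = 1) {δ : ℝ} (_ : 0 < δ)
    (_ : ∀ y ∈ Dn n, δ ≤ (p.sum fun γ c => c * mon γ y).re) {ε : ℝ} (_ : 0 < ε),
    ∃ (K0 K1 : (Fin n → ℤ) →₀ ℂ) (f : ℕ → (Fin n → ℕ) → ℂ),
      (∀ θ : Fin n → ℝ, (evT K0 θ).im = 0) ∧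
      (∀ (θ : Fin n → ℝ) (φ : ℝ), (evT K0 θ).re + 2 * (evT K1 θ * Complex.exp (φ * Complex.I)).re
        ≤ kstar p θ φ + ε) ∧
      (∀ᶠ m in atTop, f m ∈ KB n) ∧
      (∀ D : ℕ, ∀ᶠ m : ℕ in atTop, ∀ γ : Fin n → ℤ, (∀ j, |γ j| ≤ D) →
        ext (f m) γ = ext (⇑p) γ ∧
        ∀ l : ℕ, 1 ≤ l → ext (f m) (γ + fun _ => (l : ℤ) * m) =
          ext (⇑p) γ + (starRingEnd ℂ) (ext (⇑p) (-γ)) - (2 / m) * K0 γ
            + (if l = 1 then (2 / m) * K1 γ else 0))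

lemma gT_pos {n : ℕ} (hn : 1 ≤ n) (p : (Fin n → ℕ) →₀ ℂ) {δ : ℝ}
    (hp : ∀ y ∈ Dn n, δ ≤ (p.sum fun γ c => c * mon γ y).re) (θ : Fin n → ℝ) : δ ≤ (gT p θ).re := by
  set y : ℝ → Fin n → ℂ := fun r j => (r : ℂ) * Complex.exp (θ j * Complex.I) with hy
  have hcont : Continuous fun r : ℝ => (p.sum fun γ c => c * mon γ (y r)).re := by
    apply Complex.continuous_re.comp
    unfold Finsupp.sum mon
    rw [hy]
    fun_prop
  have hlim : Tendsto (fun r : ℝ => (p.sum fun γ c => c * mon γ (y r)).re) (𝓝[<] 1)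
      (𝓝 (p.sum fun γ c => c * mon γ (y 1)).re) := (hcont.tendsto 1).mono_left nhdsWithin_le_nhds
  have h1 : (p.sum fun γ c => c * mon γ (y 1)) = gT p θ := by
    unfold gT Finsupp.sum mon
    apply Finset.sum_congr rfl
    intro γ _
    congr 1
    rw [hy]
    simp only [Complex.ofReal_one, one_mul]
    simp only [← Complex.exp_nat_mul]
    rw [← Complex.exp_sum]
    push_cast
    rw [Finset.mul_sum]
    congr 2
    apply Finset.sum_congr rfl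
    intro j _
    ring
  rw [h1] at hlim
  apply ge_of_tendsto hlim
  have h2 : ∀ᶠ r : ℝ in 𝓝[<] 1, r ∈ Set.Ioo (0:ℝ) 1 := Ioo_mem_nhdsLT one_pos
  filter_upwards [h2] with r hr
  apply hp
  unfold Dn
  simp only [Set.mem_ofPred_eq, hy]
  have h3 : ∀ j, ‖(r : ℂ) * Complex.exp (θ j * Complex.I)‖ ^ 2 = r ^ 2 := by
    intro j
    rw [norm_mul, Complex.norm_exp_ofReal_mul_I, mul_one, Complex.norm_real, Real.norm_eq_abs, sq_abs]
  simp only [h3]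
  rw [Finset.sum_const, Finset.card_univ, Fintype.card_fin, nsmul_eq_mul]
  have h4 : (0:ℝ) < n := by exact_mod_cast (by omega : 0 < n)
  have h5 : r ^ 2 < 1 := by nlinarith [hr.1, hr.2]
  nlinarith

/-- for each quality, the limit of the perturbations -/
lemma one_quality {n : ℕ} (hn : 2 ≤ n) (hrec : RecoveryStatement n) (p : (Fin n → ℕ) →₀ ℂ) (hp0 : p 0 = 1)
    {δ : ℝ} (hδ : 0 < δ) (hp : ∀ y ∈ Dn n, δ ≤ (p.sum fun γ c => c * mon γ y).re)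
    (γ₀ : Fin n → ℕ) {ε₀ : ℝ} (V : Set ((Fin n → ℕ) → ℂ)) (hV : V ∈ 𝓝 (⇑p : (Fin n → ℕ) → ℂ))
    (hbad : ∀ f ∈ V ∩ KB n, ∃ k : (Fin n → ℕ) → ℂ, f + k ∈ KB n ∧ f - k ∈ KB n ∧ ε₀ ≤ ‖k γ₀‖)
    {η : ℝ} (hη : 0 < η) :
    ∃ β : (Fin n → ℤ) → ℂ, (∀ γ (i : Fin n), γ i < 0 → β γ = 0) ∧ β 0 = 0 ∧ ε₀ ≤ ‖β (cz γ₀)‖ ∧
      ∀ᶠ M in atTop, ∀ θ, ∀ i j : Fin n, i ≠ j →
        ‖Er p β M i j θ‖ ^ 2 ≤ 66 * η * ∑ γ ∈ zs p, ‖ext (⇑p) γ‖ := by
  classical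
  have hn1 : 1 ≤ n := by omega
  obtain ⟨K0, K1, f, hK0, hK, hfKB, hcoef⟩ := hrec p hp0 hδ hp hη
  -- convergence of f
  have hfconv : Tendsto f atTop (𝓝 (⇑p : (Fin n → ℕ) → ℂ)) := by
    rw [tendsto_pi_nhds]
    intro γ
    refine tendsto_const_nhds.congr' ?_
    obtain ⟨D, hD⟩ : ∃ D : ℕ, ∀ j, |cz γ j| ≤ (D:ℤ) := by
      refine ⟨∑ j, (|cz γ j|).toNat, fun j => ?_⟩
      have h1 : |cz γ j| = ((|cz γ j|).toNat : ℤ) := (Int.toNat_of_nonneg (abs_nonneg _)).symm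
      rw [h1]
      exact_mod_cast Finset.single_le_sum (f := fun j => (|cz γ j|).toNat) (fun _ _ => Nat.zero_le _) (Finset.mem_univ j)
    filter_upwards [hcoef D] with m hm
    have := (hm (cz γ) hD).1
    rw [ext_cast, ext_cast] at this
    exact this.symm
  have hfV : ∀ᶠ m in atTop, f m ∈ V ∩ KB n := by
    filter_upwards [hfconv.eventually_mem hV, hfKB] with m h1 h2
    exact ⟨h1, h2⟩
  have hk : ∀ m, ∃ k : (Fin n → ℕ) → ℂ, f m ∈ V ∩ KB n → f m + k ∈ KB n ∧ f m - k ∈ KB n ∧ ε₀ ≤ ‖k γ₀‖ := by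
    intro m
    by_cases h : f m ∈ V ∩ KB n
    · obtain ⟨k, hk⟩ := hbad (f m) h
      exact ⟨k, fun _ => hk⟩
    · exact ⟨0, fun h' => absurd h' h⟩
  choose k hk using hk
  set F : Ultrafilter ℕ := hyperfilter ℕ with hFdef
  have hF : (F : Filter ℕ) ≤ atTop := Nat.hyperfilter_le_atTop
  have hgood : ∀ᶠ m in (F : Filter ℕ), f m + k m ∈ KB n ∧ f m - k m ∈ KB n ∧ ε₀ ≤ ‖k m γ₀‖ := by
    filter_upwards [hfV.filter_mono hF] with m hm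
    exact hk m hm
  have hbd : ∀ᶠ m in (F : Filter ℕ), ∀ γ, ‖ext (k m) γ‖ ≤ 2 := by
    filter_upwards [hgood] with m hm γ
    have h1 := norm_ext_le hn1 hm.1 γ
    have h2 := norm_ext_le hn1 hm.2.1 γ
    rw [ext_add] at h1
    rw [ext_sub] at h2
    have h3 : (2:ℂ) * ext (k m) γ = (ext (f m) γ + ext (k m) γ) - (ext (f m) γ - ext (k m) γ) := by ring
    have h4 : ‖(2:ℂ) * ext (k m) γ‖ ≤ 4 := by
      rw [h3]
      refine (norm_sub_le _ _).trans ?_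
      linarith
    rw [norm_mul] at h4
    have h5 : ‖(2:ℂ)‖ = 2 := by norm_num
    rw [h5] at h4
    linarith
  have hlim : ∀ γ : Fin n → ℤ, ∃ b : ℂ, Tendsto (fun m => ext (k m) γ) F (𝓝 b) := by
    intro γ
    have hc : IsCompact (closedBall (0:ℂ) 2) := isCompact_closedBall 0 2
    obtain ⟨b, _, hb⟩ := hc.ultrafilter_le_nhds (F.map (fun m => ext (k m) γ)) (by
      rw [Filter.le_principal_iff, Ultrafilter.coe_map, Filter.mem_map]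
      filter_upwards [hbd] with m hm
      simpa using hm γ)
    exact ⟨b, hb⟩
  choose β hβ using hlim
  refine ⟨β, ?_, ?_, ?_, ?_⟩
  · intro γ i hi
    have h1 : (fun m => ext (k m) γ) = fun _ => (0:ℂ) := by
      ext m; exact ext_of_neg _ i hi
    have h2 := hβ γ
    rw [h1] at h2
    exact tendsto_nhds_unique h2 tendsto_const_nhds
  · have h2 := hβ 0
    have h1 : Tendsto (fun m => ext (k m) 0) (F : Filter ℕ) (𝓝 0) := by
      refine tendsto_const_nhds.congr' ?_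
      filter_upwards [hgood] with m hm
      have e1 := ext_zero hm.1
      have e2 := ext_zero hm.2.1
      rw [ext_add] at e1
      rw [ext_sub] at e2
      linear_combination (1/2) * e2 - (1/2) * e1
    exact tendsto_nhds_unique h2 h1
  · have h2 := (hβ (cz γ₀)).norm
    apply ge_of_tendsto h2
    filter_upwards [hgood] with m hm
    rw [ext_cast]
    exact hm.2.2
  · exact key_local hn1 p hp0 hδ (gT_pos hn1 p hp) K0 K1 hη hK0 hK f k F hF hcoef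
      (hgood.mono fun m hm => hm.1) (hgood.mono fun m hm => hm.2.1) β hβ

theorem approx_of_good_of {n : ℕ} (hn : 2 ≤ n) (hrec : RecoveryStatement n) :
    ∀ a₀ ∈ Good n ∩ KB n, ∀ γ₀ : Fin n → ℕ, ∀ ε > 0,
    ∀ V ∈ 𝓝 a₀, ∃ f ∈ V ∩ KB n,
      ∀ k : (Fin n → ℕ) → ℂ, f + k ∈ KB n → f - k ∈ KB n → ‖k γ₀‖ < ε := by
  rintro a₀ ⟨⟨p, rfl, hp0, ⟨δ, hδ, hp⟩, i, N, hN, hpN, hiso⟩, -⟩ γ₀ ε₀ hε₀ V hV
  by_contra hcon
  push Not at hcon
  have hq : ∀ q : ℕ, ∃ (β : (Fin n → ℤ) → ℂ) (M : ℕ), (∀ γ (i : Fin n), γ i < 0 → β γ = 0) ∧ β 0 = 0 ∧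
      ε₀ ≤ ‖β (cz γ₀)‖ ∧ q ≤ M ∧ ∀ θ, ∀ i j : Fin n, i ≠ j →
        ‖Er p β M i j θ‖ ≤ Real.sqrt (66 * (1 / ((q:ℝ) + 1)) * ∑ γ ∈ zs p, ‖ext (⇑p) γ‖) := by
    intro q
    obtain ⟨β, h1, h2, h3, h4⟩ := one_quality hn hrec p hp0 hδ hp γ₀ V hV hcon (η := 1 / ((q:ℝ) + 1)) (by positivity)
    obtain ⟨M, hM1, hM2⟩ := (h4.and (eventually_ge_atTop q)).exists
    refine ⟨β, M, h1, h2, h3, hM2, ?_⟩
    intro θ i j hij
    exact Real.le_sqrt_of_sq_le (hM1 θ i j hij)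
  choose β M h1 h2 h3 h4 h5 using hq
  have hM : Tendsto M atTop atTop := tendsto_atTop_mono h4 tendsto_id
  have he : Tendsto (fun q : ℕ => Real.sqrt (66 * (1 / ((q:ℝ) + 1)) * ∑ γ ∈ zs p, ‖ext (⇑p) γ‖)) atTop (𝓝 0) := by
    have h6 : Tendsto (fun q : ℕ => 66 * (1 / ((q:ℝ) + 1)) * ∑ γ ∈ zs p, ‖ext (⇑p) γ‖) atTop (𝓝 (66 * 0 * ∑ γ ∈ zs p, ‖ext (⇑p) γ‖)) :=
      ((tendsto_one_div_add_atTop_nhds_zero_nat).const_mul 66).mul_const _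
    have h7 := (Real.continuous_sqrt.tendsto _).comp h6
    have e0 : Real.sqrt (66 * 0 * ∑ γ ∈ zs p, ‖ext (⇑p) γ‖) = 0 := by simp
    rw [e0] at h7
    exact h7
  have hlim := four_lim hn p hp0 hδ (gT_pos (by omega) p hp) i N hN hpN hiso M hM β h1 h2 _ he h5 γ₀
  have h8 := hlim.norm
  rw [norm_zero] at h8
  have h9 := ge_of_tendsto h8 (Eventually.of_forall h3)
  linarith

end

end Pool.Agent.Lib.MP_6ff8d9_an
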